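import Pool.Agent.Lib.K3E.B_ID
import Pool.Agent.Lib.KH.Blue
import Pool.Agent.Lib.NV5.D_CRV
import Pool.Agent.Lib.NV5.D_NRM

/-! Project kt: holomorphic tensors on a compact manifold, their norms and products. -/

open scoped Classical Topology ContDiff ComplexOrder Matrix ENNReal
open Set MeasureTheory Complex Metric Filter

noncomputable section

namespace Pool.Agent.Lib.KT

open Pool.Agent.Lib.SV (E)
open Pool.Agent.Lib.HS32 Pool.Agent.Lib.HLK
open Pool.Agent.Lib.RAA (hq kp kq hl st_KQ)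
open Pool.Agent.Lib.DM (uv)
open Pool.Agent.Lib.K3E (Tw)
open Pool.Agent.Lib.KH (HoK)

variable {n : ℕ}

/-- A holomorphic contravariant tensor of order `N` with values in `B K`, not zero. -/
structure Tn (M : Mf n) where
  N : ℕ
  B : ℕ
  s : M.Fam ((Fin N → Fin n) → ℂ)
  tw : Tw M (fun e e' x => kp N (M.J e e' x)) B s

variable {M : Mf n}

/-- Holomorphic on `O` and bounded for the weight `w`. -/
def Bd (O : Set M.X) (w : M.X → ℝ) (f : M.X → ℂ) : Prop :=
  HoK M O f ∧ ∃ C, ∀ x ∈ O, normSq (f x) * w x ≤ C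

namespace Tn

/-- The complement of the zeros. -/
def O (τ : Tn M) : Set M.X := {x | M.ev τ.s x ≠ 0}

/-- The squared norm. -/
def pn (τ : Tn M) (G : M.Fam (Mat n)) : M.X → ℝ := M.ev fun e => uv τ.N τ.B (G e) (τ.s e)

theorem law (τ : Tn M) : M.Ov fun e e' x =>
    (M.J e e' x).det ^ τ.B • τ.s e (e x) = kp τ.N (M.J e e' x) *ᵥ τ.s e' (e' x) :=
  fun e he e' he' x hx hx' => by
    beta_reduce
    rw [τ.tw.cmp e he e' he' x hx hx', smul_smul,
      mul_inv_cancel₀ (pow_ne_zero _ ((mTR n M).2.1 e he e' he' x hx hx').2.1), one_smul]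

theorem mem_O (τ : Tn M) : M.All fun e z => e.symm z ∈ τ.O ↔ τ.s e z ≠ 0 := fun e he z hz => by
  have hx := e.map_target hz
  obtain ⟨c1, c2⟩ := (mTR n M).1 (e.symm z)
  have a := τ.tw.cmp e he _ c1 _ hx c2
  have b := τ.tw.cmp _ c1 e he _ c2 hx
  beta_reduce at a b ⊢
  rw [e.right_inv hz] at a b
  refine not_congr ⟨fun h => ?_, fun h => ?_⟩
  · rw [a, show τ.s _ _ = 0 from h, Matrix.mulVec_zero, smul_zero]
  · exact b.trans (by rw [h, Matrix.mulVec_zero, smul_zero])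

theorem holN (τ : Tn M) : M.All fun e z => HolN (τ.s e) z := fun e he z hz =>
  (eventually_all.2 (τ.tw.hol e he z hz)).mono fun _ h => differentiableAt_pi.2 h

theorem pn_rep (τ : Tn M) {G : M.Fam (Mat n)} (hG : M.Met G) :
    M.Rep (τ.pn G) (fun e => uv τ.N τ.B (G e) (τ.s e)) ∧ M.Sm (τ.pn G) ∧
      (∀ x, 0 ≤ τ.pn G x) ∧ ∀ x, τ.pn G x ≠ 0 ↔ x ∈ τ.O := by
  have i : M.Inv fun e => uv τ.N τ.B (G e) (τ.s e) := fun e he e' he' x hx hx' =>
    DM.NRM.uv_eq _ _ _ _ _ _ _ _ _ ((mTR n M).2.1 e he e' he' x hx hx').2.1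
      (hG.cmp e he e' he' x hx hx') (τ.law e he e' he' x hx hx')
  have k : M.All fun e z => _ := fun e he z hz => (DM.dCRV n τ.N τ.B).1 (G e) (τ.s e) z
    ((hG.sm.ev he hz).and (hG.pos.ev he hz)) (τ.holN e he z hz)
  exact ⟨i.rep, i.sm fun e he z hz => (k e he z hz).1, fun x => (k.ch x).2.1,
    fun x => not_congr (k.ch x).2.2.1⟩

theorem isOpen_O (τ : Tn M) : IsOpen τ.O := isOpen_iff_mem_nhds.2 fun x hx => by
  obtain ⟨c1, c2⟩ := (mTR n M).1 x
  have h := ((τ.holN _ c1 _ ((M.ch x).map_source c2)).self_of_nhds.continuousAt.comp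
    ((M.ch x).continuousAt c2)).eventually_ne hx
  filter_upwards [h, (M.ch x).open_source.mem_nhds c2] with y h1 h2
  have := (τ.mem_O _ c1 _ ((M.ch x).map_source h2)).2 h1
  rwa [(M.ch x).left_inv h2] at this

theorem freq [M.Cpt] (τ : Tn M) : M.All fun e z => ∃ i, ∃ᶠ w in 𝓝 z, τ.s e w i ≠ 0 :=
  K3E.bID n M _ _ _ _ τ.tw

theorem dense_O [M.Cpt] (τ : Tn M) : Dense τ.O := fun x => by
  obtain ⟨c1, c2⟩ := (mTR n M).1 x
  obtain ⟨i, hi⟩ := τ.freq _ c1 _ ((M.ch x).map_source c2)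
  refine mem_closure_iff_frequently.2 (((M.ch x).tendsto_symm c2).frequently ?_)
  refine (hi.and_eventually ((M.ch x).open_target.mem_nhds ((M.ch x).map_source c2))).mono
    fun w hw => (τ.mem_O _ c1 w hw.2).2 fun h => hw.1 (congrFun h i)

theorem aprod {q q' : ℕ} (J : Mat n) (a : (Fin q → Fin n) → ℂ) (b : (Fin q' → Fin n) → ℂ)
    (I : Fin (q + q') → Fin n) :
    (kp (q + q') J *ᵥ fun K => a (fun p => K (Fin.castAdd q' p)) * b fun p => K (Fin.natAdd q p)) I =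
      (kp q J *ᵥ a) (fun p => I (Fin.castAdd q' p)) * (kp q' J *ᵥ b) fun p => I (Fin.natAdd q p) := by
  simp only [Matrix.mulVec, dotProduct, kp, kq, Matrix.of_apply]
  rw [← Equiv.sum_comp (Fin.appendEquiv q q'), Fintype.sum_prod_type, Finset.sum_mul_sum]
  refine Finset.sum_congr rfl fun K _ => Finset.sum_congr rfl fun K' _ => ?_
  simp only [Fin.prod_univ_add, Fin.appendEquiv_apply, Fin.append_left, Fin.append_right]
  ring

theorem ne_mul {q q' : ℕ} {a : (Fin q → Fin n) → ℂ} {b : (Fin q' → Fin n) → ℂ} :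
    (fun K : Fin (q + q') → Fin n =>
      a (fun p => K (Fin.castAdd q' p)) * b fun p => K (Fin.natAdd q p)) ≠ 0 ↔ a ≠ 0 ∧ b ≠ 0 := by
  refine ⟨fun h => ⟨fun c => h (by simp [c]; rfl), fun c => h (by simp [c]; rfl)⟩, fun h c => ?_⟩
  obtain ⟨I, hI⟩ := Function.ne_iff.1 h.1
  obtain ⟨I', hI'⟩ := Function.ne_iff.1 h.2
  have := congrFun c (Fin.append I I')
  simp only [Fin.append_left, Fin.append_right] at this
  exact mul_ne_zero hI hI' this

/-- The product. -/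
def mul [M.Cpt] (σ τ : Tn M) : Tn M where
  N := σ.N + τ.N
  B := σ.B + τ.B
  s e z K := σ.s e z (fun p => K (Fin.castAdd τ.N p)) * τ.s e z fun p => K (Fin.natAdd σ.N p)
  tw := ⟨fun e he z hz K => ((σ.tw.hol e he z hz _).and (τ.tw.hol e he z hz _)).mono
      fun _ h => h.1.mul h.2, by
    obtain ⟨e, he, z, hz, h⟩ := σ.tw.nz
    obtain ⟨x, h1, h2⟩ := τ.dense_O.inter_open_nonempty _ σ.isOpen_O
      ⟨_, (σ.mem_O e he z hz).2 h⟩
    exact ⟨_, ((mTR n M).1 x).1, _, (M.ch x).map_source ((mTR n M).1 x).2, ne_mul.2 ⟨h1, h2⟩⟩,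
    fun e he e' he' x hx hx' => funext fun K => by
      rw [Pi.smul_apply, aprod, σ.tw.cmp e he e' he' x hx hx', τ.tw.cmp e he e' he' x hx hx']
      simp only [Pi.smul_apply, smul_eq_mul, pow_add, mul_inv]
      ring⟩

/-- The constant one. -/
def one [M.Cpt] : Tn M where
  N := 0
  B := 0
  s _ _ _ := 1
  tw := ⟨fun _ _ _ _ _ => Eventually.of_forall fun _ => differentiableAt_const _, by
    obtain ⟨x⟩ : Nonempty M.X := inferInstance
    exact ⟨_, ((mTR n M).1 x).1, _, (M.ch x).map_source ((mTR n M).1 x).2, one_ne_zero⟩,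
    fun e he e' he' x hx hx' => funext fun K => by
      simp [Matrix.mulVec, dotProduct, kp, kq]⟩

/-- The powers. -/
def pw [M.Cpt] (τ : Tn M) : ℕ → Tn M
  | 0 => one
  | k + 1 => (τ.pw k).mul τ

theorem O_mul [M.Cpt] (σ τ : Tn M) : (σ.mul τ).O = σ.O ∩ τ.O := Set.ext fun _ => ne_mul

theorem O_one [M.Cpt] : (one : Tn M).O = univ := eq_univ_of_forall fun _ h =>
  one_ne_zero (α := ℂ) (congrFun h Fin.elim0)

theorem O_pw [M.Cpt] (τ : Tn M) (k : ℕ) : τ.O ⊆ (τ.pw k).O ∧ (τ.pw (k + 1)).O = τ.O := by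
  have h : τ.O ⊆ (τ.pw k).O := by
    induction k with
    | zero => exact (subset_univ _).trans O_one.ge
    | succ k ih => exact (subset_inter ih Subset.rfl).trans (O_mul _ _).ge
  exact ⟨h, (O_mul _ _).trans (inter_eq_right.2 h)⟩

theorem hq_mul {q q' : ℕ} (T : Mat n) (a : (Fin q → Fin n) → ℂ) (b : (Fin q' → Fin n) → ℂ) :
    hq (kp (q + q') T) (fun K => a (fun p => K (Fin.castAdd q' p)) * b fun p => K (Fin.natAdd q p)) =
      ((star a ⬝ᵥ kp q T *ᵥ a) * (star b ⬝ᵥ kp q' T *ᵥ b)).re := by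
  simp only [hq, dotProduct, aprod]
  rw [← Equiv.sum_comp (Fin.appendEquiv q q'), Fintype.sum_prod_type, Finset.sum_mul_sum]
  refine congrArg _ (Finset.sum_congr rfl fun K _ => Finset.sum_congr rfl fun K' _ => ?_)
  simp only [Fin.appendEquiv_apply, Fin.append_left, Fin.append_right, Pi.star_apply, star_mul']
  ring

theorem pn_mul [M.Cpt] (σ τ : Tn M) {G : M.Fam (Mat n)} (hG : M.Met G) (x : M.X) :
    (σ.mul τ).pn G x = σ.pn G x * τ.pn G x := by
  have h : ∀ (q : ℕ) (a : (Fin q → Fin n) → ℂ), (star a ⬝ᵥ kp q (M.ev G x) *ᵥ a).im = 0 :=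
    fun q a => (Complex.le_def.1 ((((st_KQ q (Fin n) (Fin n) (Fin n)).2.2.2.2.1 _).2
      fun _ => hG.ev_pos x).posSemidef.dotProduct_mulVec_nonneg a)).2.symm
  show hq (kp (σ.N + τ.N) (M.ev G x)) _ / _ ^ (σ.B + τ.B) = _ / _ * (_ / _)
  rw [div_mul_div_comm, ← pow_add]
  refine congrArg (· / _) ((hq_mul _ (M.ev σ.s x) (M.ev τ.s x)).trans ?_)
  rw [mul_re, h, zero_mul, sub_zero]
  rfl

theorem pn_one [M.Cpt] (G : M.Fam (Mat n)) (x : M.X) : (one : Tn M).pn G x = 1 := by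
  show hq (kp 0 (M.ev G x)) (fun _ => 1) / (M.ev G x).det.re ^ 0 = 1
  simp [hq, kp, kq, Matrix.mulVec, dotProduct]

theorem pn_pw [M.Cpt] (τ : Tn M) {G : M.Fam (Mat n)} (hG : M.Met G) (k : ℕ) (x : M.X) :
    (τ.pw k).pn G x = τ.pn G x ^ k := by
  induction k with
  | zero => exact pn_one G x
  | succ k ih => rw [pw, pn_mul _ _ hG, ih, pow_succ]

end Tn

end Pool.Agent.Lib.KT
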