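import Pool.Agent.Lib.KT.Blue
import Pool.Agent.Lib.KC.Trl
import Pool.Agent.Lib.KG56.Push

/-! Project kt: the rows that feed the analytic core. Blueprint. -/

open scoped Classical Topology ContDiff ComplexOrder Matrix ENNReal
open Set MeasureTheory Complex Metric Filter

set_option linter.unusedVariables false

noncomputable section

namespace Pool.Agent.Lib.KT

open Pool.Agent.Lib.SV (E nsq)
open Pool.Agent.Lib.HS32 Pool.Agent.Lib.HLK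
open Pool.Agent.Lib.RAA (kp)
open Pool.Agent.Lib.K3E (Tw)
open Pool.Agent.Lib.KH (HoK SmK OnK Jo Pol Cmp)
open Pool.Agent.Lib.SIE (Rk)
open Pool.Agent.Lib.KC (Gk ng Sx tl Sub)

namespace Ba

variable {n : ℕ} {M : Mf n} {H : M.Fam (Mat n)} (b : Ba M H)

/-- The properties that the analytic core needs. -/
structure Ok : Prop where
  kae : M.Kae H
  opn : IsOpen b.O
  ae : ∀ᵐ y ∂M.mu H, y ∈ b.O
  ne : M.mu H ≠ 0
  cp : ContinuousOn b.p b.O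
  pos : ∀ y ∈ b.O, 0 < b.p y ∧ b.p y ≤ 1 ∧ 0 < b.T y
  sT : SmK M b.O fun y => Real.log (b.T y)
  hT : OnK M b.O fun e z => M.hs (fun y => Real.log (b.T y)) e z = (b.d : ℝ) • M.ric H e z
  cmp : ∀ x c g, Gk M b.O b.T b.p x c g → KC.Nz M b.O g → Cmp M H (b.O ∩ {y | g y ≠ 0})
  neg : ∀ x c g, Gk M b.O b.T b.p x c g → KC.Nz M b.O g → ∃ ε > (0 : ℝ),
    ∫⁻ y in b.O, ng (normSq (g y) * (b.T y ^ x * b.p y ^ c)) ε ∂M.mu H ≠ ⊤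
  l2 : ∀ x c g, HoK M b.O g →
    Jo M H b.O (fun y => normSq (g y) * (b.T y ^ x * b.p y ^ c)) ≠ ⊤ → Gk M b.O b.T b.p x c g

/-- The base data of the analytic core. -/
def bs (h : b.Ok) : KC.Bs M :=
  ⟨H, b.O, b.p, b.T, b.d, h.kae, h.opn, h.ae, h.ne, b.d0, h.cp, h.pos, h.sT, h.hT, h.cmp, h.neg,
    h.l2⟩

/-- The field data of the analytic core. -/
def fd (h : b.Ok) {A : Subalgebra ℂ (M.X → ℂ)} {F : Type} [Field F] [Algebra ℂ F]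
    {ev : A →ₐ[ℂ] F} {G : ℕ → ℕ → Submodule ℂ F} {R : Subalgebra ℂ F} {fn : R →ₐ[ℂ] (M.X → ℂ)}
    (m : b.Md ev G R fn) : KC.Fd (b.bs h) F := ⟨R, fn, G, m.ae, m.mem, m.sur⟩

end Ba

/-- A multivector gives a tensor. -/
def St_LAM : Prop := ∀ (n : ℕ) (M : Mf n) (a : ℕ) (W : M.Fam (Fs n → ℂ)),
  Tw M (fun e e' x => La (M.J e e' x)) a W → ∃ q ≤ n, ∃ s : M.Fam ((Fin q → Fin n) → ℂ),
    Tw M (fun e e' x => kp q (M.J e e' x)) a s ∧ M.All fun e z => s e z ≠ 0 → W e z ≠ 0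

/-- Proportional tensors. -/
def St_CRM : Prop := ∀ (n : ℕ) (M : Mf n) (O : Set M.X),
  {a | ∃ W, Tw M (fun e e' x => La (M.J e e' x)) a W ∧
    M.All fun e z => W e z ≠ 0 → e.symm z ∈ O}.Infinite →
  ∃ (N : ℕ) (a : ℕ → ℕ) (s : ℕ → M.Fam ((Fin N → Fin n) → ℂ)), Pro N a s ∧
    ∀ y, M.ev (s 0) y ≠ 0 → y ∈ O

/-- The base data. -/
def St_BS : Prop := ∀ (n : ℕ) (M : Mf n) [M.Cpt] (H : M.Fam (Mat n)) (b : Ba M H), M.Kae H → b.Ok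

/-- The input of the fillers. -/
def St_AIC : Prop := ∀ (n : ℕ) (M : Mf n) [M.Cpt] (H : M.Fam (Mat n)) (b : Ba M H) (h : b.Ok)
  (k : ℕ) (z : Fin k → M.X → ℂ), (∀ y ∈ b.O, Rk M z y) → (∀ c g, b.Gm 0 c g → Alg b.O z g) →
  (b.bs h).AI z b.c

/-- A lower bound for the Jacobian. -/
def St_JQ : Prop := ∀ (n : ℕ) (M : Mf n) [M.Cpt] (H : M.Fam (Mat n)) (O : Set M.X) (p : M.X → ℝ)
  (k : ℕ) (z : Fin k → M.X → ℂ), M.Met H → (∀ y ∈ O, 0 ≤ p y) → Iv O p z →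
  ∃ C > (0 : ℝ), ∀ y ∈ O, p y ^ k ≤ C * KG56.jq M H z y

/-- The direct image for a denominator. -/
def St_PDT : Prop := ∀ (n : ℕ) (M : Mf n) [M.Cpt] (H : M.Fam (Mat n)) (τ : Tn M) (k : ℕ)
  (z : Fin k → M.X → ℂ), M.Kae H → (∀ i, Bd τ.O (τ.pn H) (z i)) → KG56.Dt M H τ.O (τ.pn H) z

/-- The weight of the fibration. -/
def St_FIB : Prop := ∀ (n : ℕ) (M : Mf n) [M.Cpt] (H : M.Fam (Mat n)) (b : Ba M H) (k w : ℕ)
  (s : Sx k → M.X → ℂ) (z : Fin w → M.X → ℂ), M.Kae H → (∀ i, b.Gm 0 1 (s i)) →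
  (∀ i, b.Gm 0 1 (z i)) → (∃ x, Rk M (Fin.append (fun i => s (some i)) z) x) →
  (∀ᵐ y ∂M.mu H, Sub M (fun x => tl (s · x)) y) ∧ ∃ (j : M.X → ℝ) (ε : ℝ), ContinuousOn j b.O ∧
    (∀ y ∈ b.O, 0 ≤ j y ∧ j y ≤ b.p y) ∧ 0 < ε ∧ ∫⁻ y in b.O, ng (j y) ε ∂M.mu H ≠ ⊤ ∧
    ∃ C : ℝ≥0∞, C ≠ ⊤ ∧ ∀ G : E k × E w → ℝ≥0∞, Measurable G →
      ∫⁻ y in b.O, G (tl (s · y), (z · y)) * ENNReal.ofReal (j y) ∂M.mu H ≤ C * ∫⁻ q, G q

/-- Generators of the field, read on functions. -/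
def St_RAT : Prop := ∀ (n : ℕ) (M : Mf n) (H : M.Fam (Mat n)) (A : Subalgebra ℂ (M.X → ℂ))
  (F : Type) [Field F] [Algebra ℂ F] (ev : A →ₐ[ℂ] F) (b : Ba M H) (G : ℕ → ℕ → Submodule ℂ F)
  (R : Subalgebra ℂ F) (fn : R →ₐ[ℂ] (M.X → ℂ)) (τ : Type) (h : τ → R), b.Md ev G R fn →
  IntermediateField.adjoin ℂ (range fun i => (h i : F)) = ⊤ → ∀ c g, b.Gm 0 c g →
    ∃ P Q : MvPolynomial τ ℂ, (∃ y ∈ b.O, MvPolynomial.eval (fun i => fn (h i) y) Q ≠ 0) ∧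
      ∀ y ∈ b.O, MvPolynomial.eval (fun i => fn (h i) y) Q * g y =
        MvPolynomial.eval (fun i => fn (h i) y) P

/-- The tower of fields and the change of the system. -/
def St_TRF : Prop := ∀ (F : Type) [Field F] [Algebra ℂ F] (K : IntermediateField ℂ F),
  (∀ (k w : ℕ) (t : Fin k → K) (z : Fin w → F), AlgebraicIndependent ℂ t →
    AlgebraicIndependent K z → AlgebraicIndependent ℂ (Fin.append (fun i => (t i : F)) z)) ∧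
  (∀ (σ τ : Type) (s : σ → F) (h : τ → F), IntermediateField.adjoin ℂ (range s) = K →
    IntermediateField.adjoin K (range h) = ⊤ →
    IntermediateField.adjoin ℂ (range (Sum.elim s h)) = ⊤) ∧
  ∀ (G G' : ℕ → ℕ → Submodule ℂ F), (∀ x c, G x c ≤ G' x c) →
    (KBE.Frc G → KBE.Frc G') ∧
    (∀ (R : Subalgebra ℂ F) (τ : Type) (s : τ → R) (l m : ℕ),
      KBE.Cut G R s l m → KBE.Cut G' R s l m) ∧
    ∀ (q : F) (m : ℕ), q ≠ 0 → (∀ x c, ∀ u ∈ G' x c, q ^ c * u ∈ G x (m * c)) →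
      ∀ (τ : Type) (h : τ → F), KBE.Deg K G h → KBE.Deg K G' h

/-- The tensors for the domination. -/
def St_EX1 : Prop := ∀ (n : ℕ) (M : Mf n) [M.Cpt] (H : M.Fam (Mat n)) (b : Ba M H)
  (g : M.X → ℂ), M.Met H → b.Gm 0 1 g → ∃ t : M.Fam ((Fin b.B.N → Fin n) → ℂ), Hol t ∧
    (M.Ov fun e e' x =>
      t e (e x) = ((M.J e e' x).det ^ b.B.B)⁻¹ • kp b.B.N (M.J e e' x) *ᵥ t e' (e' x)) ∧
    M.All fun e z => b.B.s e z ≠ 0 → t e z = g (e.symm z) • b.B.s e z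

/-- The first stage: a base whose system satisfies the hypotheses of the field theory. -/
def St_ST1 : Prop := ∀ (n : ℕ) (M : Mf n) [M.Cpt] (H : M.Fam (Mat n)) (b₀ : Ba M H), M.Kae H →
  ∃ (A : Subalgebra ℂ (M.X → ℂ)) (F : Type) (_ : Field F) (_ : Algebra ℂ F) (ev : A →ₐ[ℂ] F)
    (b : Ba M H) (G : ℕ → ℕ → Submodule ℂ F) (c : ℕ), Fm H A ev ∧ Algebra.EssFiniteType ℂ F ∧
    b.O ⊆ b₀.O ∧ b.IsG ev G ∧ KBE.Sys G c ∧ KBE.Frc G ∧ KBE.Der G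

end Pool.Agent.Lib.KT
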