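import Pool.Agent.Lib.KT.Top

/-! Rows AIC and EX1. -/

open scoped Topology
open Set Complex

namespace Pool.Agent.Lib.KT

open Pool.Agent.Lib.HS32

theorem Ba.one {n : ℕ} {M : Mf n} {H : M.Fam (Mat n)} (b : Ba M H) (h : b.Ok) (a : ℕ) :
    b.Gm 0 a fun _ => 1 :=
  ⟨fun _ _ _ _ _ => Filter.Eventually.of_forall fun _ => differentiableAt_const _, 1, fun y hy => by
    simpa using pow_le_one₀ (h.pos y hy).1.le (b.le1 y)⟩

theorem tAIC (hTUB : St_TUB) (hTEN : St_TEN) : St_AIC := by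
  intro n M _ H b h k z hz ha J
  obtain ⟨j, hj, γ, g1, g2⟩ := b.ai J
  have g3 := ((hTEN n M H b j b.c γ h.kae.toMet).2 g1).2.1
  obtain ⟨y₀, y1, ρ, r0, C, hC⟩ := hTUB n M H b k j b.c z γ h.kae.toMet hz g1 g2 (ha _ _ g3)
  obtain ⟨-, C', hC'⟩ := g1
  refine ⟨j, hj, _, γ, fun _ => 1, y₀, ρ, max C C', g3, b.one h _, y1, fun c => ?_, one_ne_zero, r0,
    fun y hy => ⟨?_, fun l => ?_⟩⟩
  · have := hC y₀ y1 (by simpa using r0.le)
    rw [c, map_zero, mul_zero] at this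
    exact not_lt.2 this one_pos
  · rw [map_one, mul_one]
    exact (hC' y hy).trans (le_max_right _ _)
  · rw [map_one]
    exact (hC y hy l).trans (mul_le_mul_of_nonneg_right (le_max_left _ _) (normSq_nonneg _))

theorem Ba.gm1 {n : ℕ} {M : Mf n} {H : M.Fam (Mat n)} (b : Ba M H) {g : M.X → ℂ} :
    b.Gm 0 1 g ↔ Bd b.O b.p g := by
  simp only [Ba.Gm, pow_zero, pow_one, one_mul]

theorem tEX1 (hNUM : St_NUM) : St_EX1 := by
  intro n M _ H b g hH hg
  obtain ⟨-, t, t1, t2⟩ := hNUM n M H b.B g hH (b.gm1.1 hg)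
  refine ⟨t, fun e he z hz i => (t1.hol e he z hz trivial).mono fun _ l => differentiableAt_pi.1 l i,
    fun e he e' he' x hx hx' => ?_, fun e he z hz l => t2 e he z hz ((b.B.mem_O e he z hz).2 l)⟩
  beta_reduce
  rw [← t1.law e he e' he' x hx hx' trivial, smul_smul,
    inv_mul_cancel₀ (pow_ne_zero _ ((mTR n M).2.1 e he e' he' x hx hx').2.1), one_smul]

end Pool.Agent.Lib.KT
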