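import Pool.Agent.Lib.KT.Top
import Pool.Agent.Lib.KH.B_MET

/-! Project kt: the base data of the analytic core. -/

open scoped Classical Topology ContDiff ComplexOrder Matrix ENNReal
open Set MeasureTheory Complex Metric Filter

noncomputable section

namespace Pool.Agent.Lib.KT

open Pool.Agent.Lib.HS32

theorem tBS (hKIT : St_KIT) (hNEG : St_NEG) (hTEN : St_TEN) (hLT : St_LT) : St_BS := by
  intro n M _ H b hK
  have hM : M.Met H := hK.toMet
  have k := (hKIT n M H hM).2.2.2.2 b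
  have l := hLT n M H b hM
  have := (mMU n M H hM).2.2.1
  refine ⟨hK, b.B.isOpen_O, (hNEG n M H b.B hM).2.1, fun h => ?_,
    (b.B.pn_rep hM).2.1.continuous.continuousOn,
    fun y hy => ⟨(k.1 y hy).1, b.le1 y, (k.1 y hy).2⟩, l.1, l.2, fun x c g hg hz => ?_,
    fun x c g hg hz => ?_, fun x c g hg hj => (hTEN n M H b x c g hM).1 hg hj⟩
  · exact isOpen_univ.measure_ne_zero (M.mu H) univ_nonempty (by rw [h]; rfl)
  · obtain ⟨σ, h1, -⟩ := ((hTEN n M H b x c g hM).2 hg).2.2 hz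
    have h2 := KH.bMET n M H _ hK (hNEG n M H (b.B.mul σ) hM).1
    have h3 : {y | (b.B.mul σ).pn H y ≠ 0} = b.O ∩ {y | g y ≠ 0} := by
      rw [← h1, ← Tn.O_mul]
      exact Set.ext fun y => ((b.B.mul σ).pn_rep hM).2.2.2 y
    exact h3 ▸ h2
  · obtain ⟨σ, -, h1⟩ := ((hTEN n M H b x c g hM).2 hg).2.2 hz
    obtain ⟨ε, e0, h2⟩ := (hNEG n M H σ hM).2.2
    refine ⟨ε, e0, ne_top_of_le_ne_top h2 ?_⟩
    refine le_trans (le_of_eq ?_) (setLIntegral_le_lintegral b.O _)
    exact setLIntegral_congr_fun b.B.isOpen_O.measurableSet fun y hy => by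
      simp only [KC.ng, h1 y hy]

end Pool.Agent.Lib.KT
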