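import Pool.Agent.Lib.KT.Blue

/-! Block CHG: the change of the system under a refinement by a common denominator. -/

open scoped Classical Topology ContDiff ComplexOrder Matrix ENNReal
open Set MeasureTheory Complex Metric Filter

noncomputable section

namespace Pool.Agent.Lib.KT

open Pool.Agent.Lib.SV (E nsq)
open Pool.Agent.Lib.HS32
open Pool.Agent.Lib.KH (HoK SmK OnK Jo Pol)

namespace CHG

variable {n : ℕ} {M : Mf n}

theorem ho_mono {O O' : Set M.X} {f : M.X → ℂ} (h : HoK M O f) (hs : O' ⊆ O) : HoK M O' f :=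
  fun e he z hz ho => h e he z hz (hs ho)

theorem ho_mul {O : Set M.X} {f g : M.X → ℂ} (hf : HoK M O f) (hg : HoK M O g) :
    HoK M O (f * g) := fun e he z hz ho =>
  ((hf e he z hz ho).and (hg e he z hz ho)).mono fun _ h => h.1.mul h.2

theorem ho_one (O : Set M.X) : HoK M O (1 : M.X → ℂ) := fun _ _ _ _ _ =>
  Eventually.of_forall fun _ => differentiableAt_const (1 : ℂ)

theorem ho_pow {O : Set M.X} {f : M.X → ℂ} (hf : HoK M O f) (c : ℕ) : HoK M O (f ^ c) := by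
  induction c with
  | zero => rw [pow_zero]; exact ho_one O
  | succ c ih => rw [pow_succ]; exact ho_mul ih hf

theorem ho_div {O : Set M.X} {f g : M.X → ℂ} (hf : HoK M O f) (hg : HoK M O g)
    (h0 : ∀ y ∈ O, g y ≠ 0) : HoK M O (f / g) := fun e he z hz ho => by
  have h1 : ∀ᶠ w in 𝓝 z, (g ∘ e.symm) w ≠ 0 :=
    (hg e he z hz ho).self_of_nhds.continuousAt.eventually_ne (h0 _ ho)
  refine (((hf e he z hz ho).and (hg e he z hz ho)).and h1).mono fun w h => ?_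
  have e1 : (f / g) ∘ e.symm = fun w => (f ∘ e.symm) w * ((g ∘ e.symm) w)⁻¹ :=
    funext fun w => div_eq_mul_inv _ _
  rw [e1]
  exact h.1.1.mul (h.1.2.inv h.2)

variable {H : M.Fam (Mat n)}

theorem gm_mul (b : Ba M H) (hp : ∀ y ∈ b.O, 0 < b.p y ∧ 0 < b.T y) {x c x' c' : ℕ}
    {f g : M.X → ℂ} (hf : b.Gm x c f) (hg : b.Gm x' c' g) : b.Gm (x + x') (c + c') (f * g) := by
  obtain ⟨h1, C, hC⟩ := hf
  obtain ⟨h2, C', hC'⟩ := hg
  refine ⟨ho_mul h1 h2, C * C', fun y hy => ?_⟩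
  obtain ⟨p0, t0⟩ := hp y hy
  have a0 : 0 ≤ normSq (f y) * (b.T y ^ x * b.p y ^ c) :=
    mul_nonneg (normSq_nonneg _) (by positivity)
  have a1 : 0 ≤ normSq (g y) * (b.T y ^ x' * b.p y ^ c') :=
    mul_nonneg (normSq_nonneg _) (by positivity)
  have e : normSq ((f * g) y) * (b.T y ^ (x + x') * b.p y ^ (c + c')) =
      normSq (f y) * (b.T y ^ x * b.p y ^ c) * (normSq (g y) * (b.T y ^ x' * b.p y ^ c')) := by
    rw [Pi.mul_apply, map_mul]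
    ring
  exact e.trans_le (mul_le_mul (hC y hy) (hC' y hy) a1 (a0.trans (hC y hy)))

variable {A : Subalgebra ℂ (M.X → ℂ)} {F : Type} [Field F] [Algebra ℂ F] {ev : A →ₐ[ℂ] F}

theorem den (b : Ba M H) (hp : ∀ y ∈ b.O, 0 < b.p y ∧ 0 < b.T y) {G : ℕ → ℕ → Submodule ℂ F}
    (hG : b.IsG ev G) (hF : KBE.Frc G) {τ : Type} (h : τ → F) (s : Finset τ) :
    ∃ a, ∃ q ∈ G 0 a, q ≠ 0 ∧ ∀ i ∈ s, q * h i ∈ G 0 a := by
  have mu : ∀ {c c' : ℕ} {u v : F}, u ∈ G 0 c → v ∈ G 0 c' → u * v ∈ G 0 (c + c') := by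
    intro c c' u v hu hv
    obtain ⟨f, hf, rfl⟩ := (hG _ _ _).1 hu
    obtain ⟨g, hg, rfl⟩ := (hG _ _ _).1 hv
    exact (hG _ _ _).2 ⟨f * g, gm_mul b hp hf hg, map_mul ev f g⟩
  induction s using Finset.induction_on with
  | empty =>
    refine ⟨0, 1, (hG _ _ _).2 ⟨1, ⟨ho_one _, 1, fun y _ => ?_⟩, map_one ev⟩, one_ne_zero,
      fun i hi => absurd hi (Finset.notMem_empty i)⟩
    simp
  | insert j s _ ih =>
    obtain ⟨a, q, hq, q0, hs⟩ := ih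
    obtain ⟨a', q', hq', q0', hj⟩ := hF (h j)
    refine ⟨a + a', q * q', mu hq hq', mul_ne_zero q0 q0', fun i hi => ?_⟩
    rcases Finset.mem_insert.1 hi with rfl | hi
    · rw [mul_assoc]
      exact mu hq hj
    · rw [mul_right_comm]
      exact mu (hs i hi) hq'

theorem ev_eq (hA : Fm H A ev) (τ : Tn M) {f g : A} (h : ∀ y ∈ τ.O, f.1 y = g.1 y) :
    ev f = ev g := by
  rw [← sub_eq_zero, ← map_sub]
  exact (hA.ker _).2 ⟨τ, fun y hy => sub_eq_zero.2 (h y hy)⟩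

end CHG

open CHG in
theorem tCHG (hTEN : St_TEN) (hREF : St_REF) (hRIE : St_RIE) (hKIT : St_KIT) : St_CHG := by
  intro n M _ H A F _ _ ev b G τ _ h hH hA hG hF
  have := Fintype.ofFinite τ
  obtain ⟨hp, cT, -⟩ := (hKIT n M H hH).2.2.2.2 b
  obtain ⟨a, q, hq, q0, hs⟩ := den b hp hG hF h Finset.univ
  obtain ⟨Q, hQ, rfl⟩ := (hG _ _ _).1 hq
  have nz : ∃ y ∈ b.O, Q.1 y ≠ 0 := by
    by_contra hc
    exact q0 ((hA.ker Q).2 ⟨b.B, fun y hy => by_contra fun h0 => hc ⟨y, hy, h0⟩⟩)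
  obtain ⟨σ, hσ, pσ⟩ := ((hTEN n M H b 0 a Q.1 hH).2 hQ).2.2 nz
  obtain ⟨b', m, ⟨r1, r2, -, rO, ε, ε0, rp⟩, up, -⟩ := hREF n M H b σ hH
  have sub : b'.O ⊆ b.O := rO ▸ inter_subset_left
  have Q0 : ∀ y ∈ b'.O, Q.1 y ≠ 0 := fun y hy => by
    rw [rO, hσ] at hy
    exact hy.2
  have eT : b'.T = b.T := by
    show Tq H b'.d b'.ψ = Tq H b.d b.ψ
    rw [r1, r2]
  have ep : ∀ y ∈ b'.O, b'.p y = ε * (normSq (Q.1 y) * b.p y ^ (m + a)) := fun y hy => by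
    rw [rp, pσ y (sub hy)]
    ring
  refine ⟨b', ev Q, m + a, sub, q0, fun G' hG' => ⟨fun i => ?_, fun x c u hu => ?_,
    fun x c u hu => ?_⟩⟩
  · obtain ⟨P, ⟨hP, C, hC⟩, eP⟩ := (hG _ _ _).1 (hs i (Finset.mem_univ i))
    have g1 : b'.Gm 0 1 (P.1 / Q.1) := by
      refine ⟨ho_div (ho_mono hP sub) (ho_mono hQ.1 sub) Q0, ε * C, fun y hy => ?_⟩
      have n0 : normSq (Q.1 y) ≠ 0 := fun h0 => Q0 y hy (normSq_eq_zero.1 h0)
      have p0 := (hp y (sub hy)).1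
      have e : normSq ((P.1 / Q.1) y) * (b'.T y ^ 0 * b'.p y ^ 1) =
          ε * (normSq (P.1 y) * (b.T y ^ 0 * b.p y ^ a) * b.p y ^ m) := by
        rw [Pi.div_apply, map_div₀, ep y hy]
        field_simp
        ring
      refine e.trans_le (mul_le_mul_of_nonneg_left (le_trans ?_ (hC y (sub hy))) ε0.le)
      exact mul_le_of_le_one_right (mul_nonneg (normSq_nonneg _) (by positivity))
        (pow_le_one₀ p0.le (b.le1 y))
    have m1 : P.1 / Q.1 ∈ A := (hA.mem _).2 ((hTEN n M H b' 0 1 _ hH).2 g1).1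
    refine (hG' _ _ _).2 ⟨⟨_, m1⟩, g1, mul_left_cancel₀ q0 ?_⟩
    rw [← map_mul, ← eP]
    exact ev_eq hA b'.B fun y hy => mul_div_cancel₀ (P.1 y) (Q0 y hy)
  · obtain ⟨f, hf, rfl⟩ := (hG _ _ _).1 hu
    exact (hG' _ _ _).2 ⟨f, up x c _ hf, rfl⟩
  · obtain ⟨f, ⟨hf, C, hC⟩, rfl⟩ := (hG' _ _ _).1 hu
    have cp : Continuous b.p := Mf.Sm.continuous (b.B.pn_rep hH).2.1
    have g1 : Bd (b.O ∩ σ.O) (fun y => b.T y ^ x * b.p y ^ ((m + a) * c)) (Q.1 ^ c * f.1) := by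
      rw [← rO]
      refine ⟨ho_mul (ho_pow (ho_mono hQ.1 sub) c) hf, C / ε ^ c, fun y hy => ?_⟩
      have h1 := hC y hy
      beta_reduce at h1 ⊢
      rw [eT, ep y hy] at h1
      rw [le_div_iff₀ (pow_pos ε0 c), Pi.mul_apply, Pi.pow_apply, map_mul, map_pow]
      refine le_trans (le_of_eq ?_) h1
      rw [pow_mul]
      ring
    obtain ⟨g, hg, eg⟩ := hRIE n M b.O σ _ _ b.B.isOpen_O
      ((cT.pow x).mul (cp.continuousOn.pow _))
      (fun y hy => mul_pos (pow_pos (hp y hy).2 _) (pow_pos (hp y hy).1 _)) g1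
    have m1 : g ∈ A := (hA.mem _).2 ((hTEN n M H b x _ g hH).2 hg).1
    refine (hG _ _ _).2 ⟨⟨g, m1⟩, hg, ?_⟩
    rw [← map_pow, ← map_mul]
    exact ev_eq hA b'.B fun y hy => eg y (rO ▸ hy)

end Pool.Agent.Lib.KT
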