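import Pool.Agent.Lib.KT.Blue
import Pool.Agent.Lib.SIE.Gen

/-! Project kt, row COE: the coefficients of a differential. -/

open scoped Classical Topology Matrix
open Set Filter

noncomputable section

namespace Pool.Agent.Lib.KT

open Pool.Agent.Lib.SV (E)
open Pool.Agent.Lib.HS32
open Pool.Agent.Lib.KH (HoK OnK)
open Pool.Agent.Lib.SIE

namespace COE

variable {n k : ℕ} {M : Mf n} {e e' : M.Ch} {x : M.X} {z : Fin k → M.X → ℂ} {f : M.X → ℂ}

theorem lin {L : E n →L[ℂ] E k} {l : E n →L[ℂ] ℂ} (hL : Function.Surjective L)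
    (h : ∀ v, L v = 0 → l v = 0) : ∃ c : Fin k → ℂ, ∀ v, l v = ∑ i, c i * L v i := by
  choose u hu using fun a => hL (Pi.single a 1)
  refine ⟨fun a => l (u a), fun v => ?_⟩
  have := h (v - ∑ a, L v a • u a) (by
    ext j
    simp [hu, Pi.single_apply])
  simpa [sub_eq_zero, mul_comm] using this

theorem sum_ap {w : E n} (h : HolN (rd M z e) w) (c : Fin k → ℂ) (v : E n) :
    (∑ i, c i • df (z i) e w) v = ∑ i, c i * fderiv ℂ (rd M z e) w v i := by
  simp only [ContinuousLinearMap.sum_apply, ContinuousLinearMap.smul_apply, smul_eq_mul, fd_i h]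
  rfl

theorem chain (he : e ∈ M.C) (he' : e' ∈ M.C) (hx : x ∈ e.source) (hx' : x ∈ e'.source)
    (h : DifferentiableAt ℂ (f ∘ e.symm) (e x)) :
    df f e' (e' x) = (df f e (e x)).comp (fderiv ℂ (e ∘ e'.symm) (e' x)) := by
  have t := trans_hol he he' hx hx'
  have a : (e ∘ e'.symm) (e' x) = e x := by simp only [Function.comp, e'.left_inv hx']
  have q : f ∘ e'.symm =ᶠ[𝓝 (e' x)] (f ∘ e.symm) ∘ (e ∘ e'.symm) := t.mono fun w l => by
    simp only [Function.comp, l.2]
  rw [df, q.fderiv_eq, fderiv_comp _ (a ▸ h) t.self_of_nhds.1, a]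

theorem rk_at (he : e ∈ M.C) {w : E n} (hw : w ∈ e.target) (h : Rk M z (e.symm w)) :
    HolN (rd M z e) w ∧ Function.Surjective (fderiv ℂ (rd M z e) w) := by
  have := h e he (e.map_target hw)
  rwa [e.right_inv hw] at this

end COE

open COE in
theorem tCOE : St_COE := by
  intro n M O k z f hO hz hf hn
  refine ⟨?_, fun g g' h h' i y hy => ?_⟩
  · have ex : ∀ x, ∃ c : Fin k → ℂ, x ∈ O → ∀ e ∈ M.C, x ∈ e.source →
        df f e (e x) = ∑ i, c i • df (z i) e (e x) := fun x => by
      by_cases hx : x ∈ O
      swap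
      · exact ⟨0, fun c => absurd c hx⟩
      obtain ⟨e, he, hs⟩ := M.cov x
      have hw := e.map_source hs
      have l := e.left_inv hs
      obtain ⟨h1, h2⟩ := hz x hx e he hs
      have h3 := hf e he _ hw (l.symm ▸ hx)
      obtain ⟨c, hc⟩ := lin h2 (ker_of hn he hw (l.symm ▸ hz x hx) h3)
      refine ⟨c, fun _ e' he' hs' => ?_⟩
      have q : df f e (e x) = ∑ i, c i • df (z i) e (e x) :=
        ContinuousLinearMap.ext fun v => (hc v).trans (sum_ap h1 c v).symm
      rw [chain he he' hs hs' h3.self_of_nhds, q, ContinuousLinearMap.finsetSum_comp]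
      exact Finset.sum_congr rfl fun i _ => by
        rw [chain (f := z i) he he' hs hs' (holN_i h1 i).self_of_nhds, ContinuousLinearMap.smul_comp]
    choose c hc using ex
    have ch : Chn O z f fun i x => c x i := fun e he w hw h => by
      have := hc _ h e he (e.map_target hw)
      rwa [e.right_inv hw] at this
    refine ⟨fun i x => c x i, fun i e he w hw h => ?_, ch⟩
    obtain ⟨h1, h2⟩ := rk_at he hw (hz _ h)
    choose u hu using fun a => h2 (Pi.single a 1)
    let A : E n → Matrix (Fin k) (Fin k) ℂ := fun y => Matrix.of fun a j =>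
      fderiv ℂ (rd M z e) y (u a) j
    have hA : ∀ a j, HolN (fun y => A y a j) w := fun a j => holN_i (hol_fd h1 (u a)) j
    have d := hol_det hA
    have d' := hol_det (A := fun y => (A y).updateCol i fun a => df f e y (u a)) fun a j => by
      simp only [Matrix.updateCol_apply]
      split_ifs
      · exact hol_fd (hf e he w hw h) (u a)
      · exact hA a j
    have a1 : (A w).det ≠ 0 := by
      have : A w = 1 := by
        ext a j
        simp [A, hu, Pi.single_apply, Matrix.one_apply, eq_comm]
      rw [this, Matrix.det_one]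
      exact one_ne_zero
    have q : ∀ᶠ y in 𝓝 w, (A y).det ≠ 0 ∧ c (e.symm y) i =
        ((A y).updateCol i fun a => df f e y (u a)).det * ((A y).det)⁻¹ := by
      filter_upwards [d.self_of_nhds.continuousAt.eventually_ne a1, h1.eventually_nhds,
        e.open_target.eventually_mem hw, (e.continuousAt_symm hw).eventually (hO.eventually_mem h)]
        with y a b t o
      have r : (fun a => df f e y (u a)) = A y *ᵥ c (e.symm y) := funext fun a => by
        rw [ch e he y t o, sum_ap b]
        exact Finset.sum_congr rfl fun j _ => mul_comm _ _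
      rw [← Matrix.cramer_apply, r, Matrix.cramer_eq_adjugate_mulVec, Matrix.mulVec_mulVec,
        Matrix.adjugate_mul, Matrix.smul_mulVec, Matrix.one_mulVec, Pi.smul_apply, smul_eq_mul,
        mul_comm (A y).det, mul_inv_cancel_right₀ a]
      exact ⟨a, rfl⟩
    filter_upwards [q.eventually_nhds, d, d'] with y a b b'
    exact (b'.fun_mul (b.fun_inv a.self_of_nhds.1)).congr_of_eventuallyEq (a.mono fun _ l => l.2)
  · obtain ⟨e, he, hs⟩ := M.cov y
    have l := e.left_inv hs
    obtain ⟨h1, h2⟩ := hz y hy e he hs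
    obtain ⟨v, hv⟩ := h2 (Pi.single i 1)
    have a := (h e he _ (e.map_source hs) (l.symm ▸ hy)).symm.trans
      (h' e he _ (e.map_source hs) (l.symm ▸ hy))
    have b := congrArg (· v) a
    simp only [sum_ap h1, hv, l] at b
    simpa [Pi.single_apply] using b

end Pool.Agent.Lib.KT
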