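import Pool.Agent.Lib.KT.Top
import Pool.Agent.Lib.K3E.B_CRK

/-! Row CRM: proportional tensors by the rule of Cramer. -/

open scoped Classical Topology Matrix
open Set Filter

noncomputable section

namespace Pool.Agent.Lib.KT

open Pool.Agent.Lib.SV (E)
open Pool.Agent.Lib.HS32 Pool.Agent.Lib.HLK
open Pool.Agent.Lib.RAA (kp kq)
open Pool.Agent.Lib.K3E (Tw)
open Pool.Agent.Lib.NV5.CRMb (mn)

namespace CRM

/-- The reindexing. -/
def cur (n r q : ℕ) : (Fin (r * q) → Fin n) ≃ (Fin r → Fin q → Fin n) :=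
  (Equiv.arrowCongr finProdFinEquiv.symm (Equiv.refl _)).trans (Equiv.curry _ _ _)

theorem kp_cur {n r q : ℕ} (J : Mat n) (K K' : Fin (r * q) → Fin n) :
    kp (r * q) J K K' = ∏ k, kp q J (cur n r q K k) (cur n r q K' k) := by
  simp only [kp, kq, Matrix.of_apply]
  rw [← finProdFinEquiv.prod_comp, Fintype.prod_prod_type]
  rfl

end CRM

open CRM in
theorem tCRM (hLAM : St_LAM) : St_CRM := fun n M O h => by
  obtain ⟨q, h⟩ : ∃ q, {a | ∃ s : M.Fam ((Fin q → Fin n) → ℂ),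
      Tw M (fun e e' x => kp q (M.J e e' x)) a s ∧
        M.All fun e z => s e z ≠ 0 → e.symm z ∈ O}.Infinite := by
    by_contra c
    refine h (((finite_Iic n).biUnion fun q _ => not_infinite.1 fun d => c ⟨q, d⟩).subset ?_)
    rintro a ⟨W, w1, w2⟩
    obtain ⟨q, hq, s, s1, s2⟩ := hLAM n M a W w1
    exact mem_biUnion hq ⟨s, s1, fun e he z hz k => w2 e he z hz (s2 e he z hz k)⟩
  choose! W hW hO using fun a (ha : a ∈ {a | ∃ s : M.Fam ((Fin q → Fin n) → ℂ),
    Tw M (fun e e' x => kp q (M.J e e' x)) a s ∧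
      M.All fun e z => s e z ≠ 0 → e.symm z ∈ O}) => ha
  obtain ⟨r, S, α, h1, h2, h3⟩ := NV5.CRMb.main
    (X := {p : M.Ch × E n // p.1 ∈ M.C ∧ p.2 ∈ p.1.target}) _ h (fun p a => W a p.1.1 p.1.2)
    (fun a ha => by
      obtain ⟨e, he, z, hz, k⟩ := (hW a ha).nz
      obtain ⟨j, hj⟩ := Function.ne_iff.1 k
      exact ⟨⟨(e, z), he, hz⟩, j, hj⟩) 0
  have hS : ∀ i, Nat.nth (· ∈ S) i ∈ S := Nat.nth_mem_of_infinite h1
  refine ⟨r * q, Nat.nth (· ∈ S),
    fun i e z K => mn (fun b => W b e z) (α (Nat.nth (· ∈ S) i)) (cur n r q K),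
    ⟨Nat.nth_strictMono h1, fun i => ?_,
      fun i j e he z hz I I' => h3 _ (hS i) _ (hS j) ⟨(e, z), he, hz⟩ _ _⟩, fun y hy => ?_⟩
  · obtain ⟨-, k1, k2, p, I, k3⟩ := h2 _ (hS i)
    refine ⟨fun e he z hz I => ?_, ⟨_, p.2.1, _, p.2.2, fun c => k3 ?_⟩,
      fun e he e' he' x hx hx' => funext fun I => ?_⟩
    · have : ∀ᶠ w in 𝓝 z, ∀ l j, DifferentiableAt ℂ (fun y => W (α _ l) e y j) w :=
        eventually_all.2 fun l => eventually_all.2 fun j => (hW _ (k1 l)).hol e he z hz j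
      filter_upwards [this] with w hw
      simp only [mn, Matrix.det_apply', Matrix.of_apply]
      exact DifferentiableAt.fun_sum fun q _ => (differentiableAt_const _).mul
        (HasFDerivAt.finsetProd fun l _ => (hw (q l) _).hasFDerivAt).differentiableAt
    · have := congrFun c ((cur n r q).symm I)
      simpa only [Equiv.apply_symm_apply, Pi.zero_apply] using this
    · refine (K3E.CRK.law (kp q (M.J e e' x)) (fun b => ((M.J e e' x).det ^ b)⁻¹) _
        (fun b => W b e' (e' x)) _ (fun l => (hW _ (k1 l)).cmp e he e' he' x hx hx') _).trans ?_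
      rw [Finset.prod_inv_distrib, Finset.prod_pow_eq_pow_sum, k2, ← (cur n r q).sum_comp]
      simp only [← kp_cur]
      rfl
  · obtain ⟨K, hK⟩ := Function.ne_iff.1 hy
    obtain ⟨c1, c2⟩ := (mTR n M).1 y
    rcases Nat.eq_zero_or_pos r with rfl | r0
    · exact absurd ((finite_singleton 0).subset fun s hs => (h2 s hs).2.2.1.symm) h1
    · rw [← (M.ch y).left_inv c2]
      refine hO _ ((h2 _ (hS 0)).2.1 ⟨0, r0⟩) _ c1 _ ((M.ch y).map_source c2) fun c => hK ?_
      exact Matrix.det_eq_zero_of_row_eq_zero ⟨0, r0⟩ fun j => congrFun c _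

end Pool.Agent.Lib.KT
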