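import Pool.Agent.Lib.KT.Blue

/-! Project kt, row DCO: the cost of a Wronskian. -/

open scoped Classical Topology ContDiff ComplexOrder Matrix ENNReal
open Set MeasureTheory Complex Metric Filter

noncomputable section

namespace Pool.Agent.Lib.KT

open Pool.Agent.Lib.SV (E nsq)
open Pool.Agent.Lib.HS32
open Pool.Agent.Lib.KH (HoK SmK OnK)
open Pool.Agent.Lib.SIE (Rk)

theorem DCO.mono {n : ℕ} {M : Mf n} {O O' : Set M.X} {p : M.Ch → E n → Prop} (h : O' ⊆ O)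
    (hp : OnK M O p) : OnK M O' p := fun e he z hz hx => hp e he z hz (h hx)

theorem tDCO (hCOE : St_COE) (hWRG : St_WRG) (hTEN : St_TEN) (hKIT : St_KIT) : St_DCO := by
  intro n M _ H A F _ _ ev b G k z D hH hF hG hI hR hD i x c u hu v hv
  obtain ⟨f, f1, rfl⟩ := (hG x c u).1 hu
  obtain ⟨f', f2, rfl⟩ := (hG x c v).1 hv
  obtain ⟨-, -, k3, -, k5⟩ := hKIT n M H hH
  obtain ⟨a, a1, a2⟩ := (hCOE n M b.O k _ f.1 b.B.isOpen_O hI.1 f1.1 (hR f)).1
  obtain ⟨a', a3, a4⟩ := (hCOE n M b.O k _ f'.1 b.B.isOpen_O hI.1 f2.1 (hR f')).1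
  have gm : b.Gm (2 * x) (2 * c + 1) fun y => f.1 y * a' i y - f'.1 y * a i y := by
    refine ⟨fun e he w hw hx => ?_, k3 _ _ fun e he w₀ hw => ?_⟩
    · filter_upwards [f1.1 e he w hw hx, f2.1 e he w hw hx, a1 i e he w hw hx, a3 i e he w hw hx]
        with y h1 h2 h3 h4 using (h1.mul h4).sub (h2.mul h3)
    obtain ⟨C, hC⟩ := hI.2 e he w₀ hw
    obtain ⟨C', hC'⟩ := (hWRG n M H hH).2 b x c f.1 f'.1 f1 f2 e he w₀ hw
    refine ⟨|C| * C', ?_⟩
    filter_upwards [hC, hC', e.open_target.mem_nhds hw] with w h1 h2 h3 hx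
    obtain ⟨p0, t0⟩ := (k5 b).1 _ hx
    have e1 := h1 hx fun j => f.1 (e.symm w) * a' j (e.symm w) - f'.1 (e.symm w) * a j (e.symm w)
    have e2 := h2 hx
    have e3 : ∑ j, (f.1 (e.symm w) * a' j (e.symm w) - f'.1 (e.symm w) * a j (e.symm w)) • df (z j).1 e w =
        f.1 (e.symm w) • df f'.1 e w - f'.1 (e.symm w) • df f.1 e w := by
      rw [a2 e he w h3 hx, a4 e he w h3 hx, Finset.smul_sum, Finset.smul_sum, ← Finset.sum_sub_distrib]
      refine Finset.sum_congr rfl fun j _ => ContinuousLinearMap.ext fun v => ?_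
      simp only [smul_apply, sub_apply, smul_eq_mul]
      ring
    rw [e3] at e1
    have e4 : normSq (f.1 (e.symm w) * a' i (e.symm w) - f'.1 (e.symm w) * a i (e.symm w)) ≤
        ‖fun j => f.1 (e.symm w) * a' j (e.symm w) - f'.1 (e.symm w) * a j (e.symm w)‖ ^ 2 := by
      rw [Complex.normSq_eq_norm_sq]
      exact pow_le_pow_left₀ (norm_nonneg _) (norm_le_pi_norm
        (fun j => f.1 (e.symm w) * a' j (e.symm w) - f'.1 (e.symm w) * a j (e.symm w)) i) 2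
    have e5 := ((mul_le_mul_of_nonneg_right e4 p0.le).trans e1).trans
      (mul_le_mul_of_nonneg_right (le_abs_self C) (sq_nonneg _))
    have e6 := mul_le_mul_of_nonneg_right e5
      (show 0 ≤ b.T (e.symm w) ^ (2 * x) * b.p (e.symm w) ^ (2 * c) by positivity)
    refine le_trans (le_of_eq ?_) (e6.trans ?_)
    · rw [pow_succ]
      ring
    · rw [mul_assoc]
      exact mul_le_mul_of_nonneg_left e2 (abs_nonneg C)
  obtain ⟨g, τ, g1, g2⟩ := hD f
  obtain ⟨g', τ', g3, g4⟩ := hD f'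
  refine (hG _ _ _).2 ⟨⟨_, (hF.mem _).2 ((hTEN n M H b _ _ _ hH).2 gm).1⟩, gm, ?_⟩
  rw [g1, g3, ← map_mul, ← map_mul, ← map_sub, ← sub_eq_zero, ← map_sub]
  refine (hF.ker _).2 ⟨(b.B.mul τ).mul τ', fun y hy => ?_⟩
  have o := ((b.B.mul τ).mul τ').isOpen_O
  rw [Tn.O_mul, Tn.O_mul] at hy o
  have s1 : b.B.O ∩ τ.O ∩ τ'.O ⊆ b.O := fun y h => h.1.1
  have u1 := (hCOE n M _ k _ f.1 o (fun y h => hI.1 y (s1 h)) (DCO.mono s1 f1.1) (hR f)).2 _ _
    (DCO.mono s1 a2) (DCO.mono (fun y h => h.1.2) g2) i y hy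
  have u2 := (hCOE n M _ k _ f'.1 o (fun y h => hI.1 y (s1 h)) (DCO.mono s1 f2.1) (hR f')).2 _ _
    (DCO.mono s1 a4) (DCO.mono (fun y h => h.2) g4) i y hy
  show f.1 y * a' i y - f'.1 y * a i y - (f.1 y * (g' i).1 y - f'.1 y * (g i).1 y) = 0
  rw [u1, u2, sub_self]

end Pool.Agent.Lib.KT
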