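import Pool.Agent.Lib.KT.Blue

/-! Project kt, row DRV: the dual derivations. -/

open scoped Classical Topology ContDiff ComplexOrder Matrix ENNReal
open Set MeasureTheory Complex Metric Filter

noncomputable section

namespace Pool.Agent.Lib.KT

open Pool.Agent.Lib.SV (E nsq)
open Pool.Agent.Lib.HS32
open Pool.Agent.Lib.KH (HoK SmK OnK Jo Pol)
open Pool.Agent.Lib.SIE (Rk Mr)

namespace DRV

variable {n k : ℕ} {M : Mf n} {H : M.Fam (Mat n)} {z : Fin k → M.X → ℂ} {ρ : Tn M}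

/-- The functions `g` are the coefficients of the differential of `f`. -/
def Rl (ρ : Tn M) (z : Fin k → M.X → ℂ) (f : M.X → ℂ) (g : Fin k → M.X → ℂ) : Prop :=
  ∃ τ : Tn M, τ.O ⊆ ρ.O ∧ HoK M τ.O f ∧ Chn τ.O z f g

theorem Rl.two [M.Cpt] {f f' : M.X → ℂ} {g g' : Fin k → M.X → ℂ} (h : Rl ρ z f g)
    (h' : Rl ρ z f' g') : ∃ τ : Tn M, τ.O ⊆ ρ.O ∧ HoK M τ.O f ∧ Chn τ.O z f g ∧
      HoK M τ.O f' ∧ Chn τ.O z f' g' := by
  obtain ⟨τ, h1, h2, h3⟩ := h
  obtain ⟨σ, -, h5, h6⟩ := h'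
  refine ⟨τ.mul σ, ?_⟩
  rw [Tn.O_mul]
  exact ⟨inter_subset_left.trans h1, fun e he w hw hx => h2 e he w hw hx.1,
    fun e he w hw hx => h3 e he w hw hx.1, fun e he w hw hx => h5 e he w hw hx.2,
    fun e he w hw hx => h6 e he w hw hx.2⟩

theorem Rl.lin [M.Cpt] {f f' : M.X → ℂ} {g g' : Fin k → M.X → ℂ} (h : Rl ρ z f g)
    (h' : Rl ρ z f' g') (c : ℂ) : Rl ρ z (c • f + f') fun i => c • g i + g' i := by
  obtain ⟨τ, h1, h2, h3, h4, h5⟩ := h.two h'
  refine ⟨τ, h1, fun e he w hw hx => ((h2 e he w hw hx).and (h4 e he w hw hx)).mono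
    fun _ h => (h.1.const_smul c).add h.2, fun e he w hw hx => ?_⟩
  have a := ((h2 e he w hw hx).self_of_nhds.hasFDerivAt.const_smul c).add
    (h4 e he w hw hx).self_of_nhds.hasFDerivAt
  refine a.fderiv.trans ?_
  rw [show fderiv ℂ (f ∘ e.symm) w = _ from h3 e he w hw hx,
    show fderiv ℂ (f' ∘ e.symm) w = _ from h5 e he w hw hx, Finset.smul_sum,
    ← Finset.sum_add_distrib]
  refine Finset.sum_congr rfl fun i _ => ?_
  rw [smul_smul, ← add_smul]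
  rfl

theorem Rl.mul [M.Cpt] {f f' : M.X → ℂ} {g g' : Fin k → M.X → ℂ} (h : Rl ρ z f g)
    (h' : Rl ρ z f' g') : Rl ρ z (f * f') fun i => f * g' i + f' * g i := by
  obtain ⟨τ, h1, h2, h3, h4, h5⟩ := h.two h'
  refine ⟨τ, h1, fun e he w hw hx => ((h2 e he w hw hx).and (h4 e he w hw hx)).mono
    fun _ h => h.1.mul h.2, fun e he w hw hx => ?_⟩
  have a := (h2 e he w hw hx).self_of_nhds.hasFDerivAt.mul
    (h4 e he w hw hx).self_of_nhds.hasFDerivAt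
  refine a.fderiv.trans ?_
  rw [show fderiv ℂ (f ∘ e.symm) w = _ from h3 e he w hw hx,
    show fderiv ℂ (f' ∘ e.symm) w = _ from h5 e he w hw hx, Finset.smul_sum, Finset.smul_sum,
    ← Finset.sum_add_distrib]
  refine Finset.sum_congr rfl fun i _ => ?_
  ext v
  simp only [_root_.add_apply, _root_.smul_apply, smul_eq_mul,
    Pi.add_apply, Pi.mul_apply, Function.comp_apply]
  ring

theorem Rl.crd (hI : Iv ρ.O (ρ.pn H) z) (j : Fin k) : Rl ρ z (z j) (Pi.single j 1) := by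
  refine ⟨ρ, Subset.rfl, fun e he w hw hx => ?_, fun e he w hw hx => ?_⟩
  · have h := (hI.1 _ hx e he (e.map_target hw)).1
    rw [e.right_inv hw] at h
    exact h.mono fun _ h => differentiableAt_pi.1 h j
  · beta_reduce
    rw [Finset.sum_eq_single j (fun i _ hi => by ext v; simp [hi]) (by simp)]
    simp

theorem Rl.zero [M.Cpt] (hH : M.Met H) (hI : Iv ρ.O (ρ.pn H) z) {f : M.X → ℂ}
    {g : Fin k → M.X → ℂ} (h : Rl ρ z f g) {σ : Tn M} (h0 : ∀ x ∈ σ.O, f x = 0) :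
    ∃ τ : Tn M, ∀ x ∈ τ.O, ∀ i, g i x = 0 := by
  obtain ⟨τ, h1, -, h3⟩ := h
  refine ⟨τ.mul σ, fun x hx i => ?_⟩
  rw [Tn.O_mul] at hx
  obtain ⟨c1, c2⟩ := (mTR n M).1 x
  have hw := (M.ch x).map_source c2
  have hl := (M.ch x).left_inv c2
  have h4 : f ∘ (M.ch x).symm =ᶠ[𝓝 (M.ch x x)] fun _ => 0 :=
    (((M.ch x).tendsto_symm c2).eventually (σ.isOpen_O.mem_nhds hx.2)).mono fun w h => h0 _ h
  have h5 := h3 _ c1 _ hw (hl.symm ▸ hx.1)
  obtain ⟨C, hC⟩ := hI.2 _ c1 _ hw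
  have h6 := hC.self_of_nhds (hl.symm ▸ h1 hx.1) fun i => g i ((M.ch x).symm (M.ch x x))
  beta_reduce at h5
  rw [← h5, df, h4.fderiv_eq, fderiv_fun_const, Pi.zero_apply, norm_zero, hl] at h6
  have h7 : 0 < ρ.pn H x := lt_of_le_of_ne ((ρ.pn_rep hH).2.2.1 x)
    (((ρ.pn_rep hH).2.2.2 x).2 (h1 hx.1)).symm
  have h8 : ‖fun i => g i x‖ ^ 2 ≤ 0 := le_of_mul_le_mul_right (by simpa using h6) h7
  exact congrFun (norm_eq_zero.1 (pow_eq_zero_iff two_ne_zero |>.1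
    (le_antisymm h8 (sq_nonneg _)))) i

theorem ex (hCOE : St_COE) (hWRG : St_WRG) (hKIT : St_KIT) [M.Cpt] (hH : M.Met H)
    (hI : Iv ρ.O (ρ.pn H) z) {f : M.X → ℂ} (hf : Mer H f) (hr : ∀ x, ¬Rk M (Fin.cons f z) x) :
    ∃ g, (∀ i, Mer H (g i)) ∧ Rl ρ z f g := by
  obtain ⟨τ, hτ⟩ := hf
  have hO : ((τ.mul τ).mul ρ).O = τ.O ∩ ρ.O := by rw [Tn.O_mul, Tn.O_mul, inter_self]
  have h1 : HoK M (τ.O ∩ ρ.O) f := fun e he w hw hx => hτ.1 e he w hw hx.1
  obtain ⟨g, h2, h3⟩ := (hCOE n M _ k z f (τ.isOpen_O.inter ρ.isOpen_O)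
    (fun x hx => hI.1 x hx.2) h1 hr).1
  refine ⟨g, fun i => ⟨(τ.mul τ).mul ρ, ?_⟩, (τ.mul τ).mul ρ, ?_⟩
  · rw [hO]
    refine ⟨h2 i, (hKIT n M H hH).2.2.1 _ _ fun e he w hw => ?_⟩
    obtain ⟨C, hC⟩ := hI.2 e he w hw
    obtain ⟨C', hC'⟩ := (hWRG n M H hH).1 τ f hτ e he w hw
    refine ⟨max C 0 * C', ?_⟩
    filter_upwards [hC, hC', e.open_target.mem_nhds hw] with u a1 a2 a3 hx
    have b1 := a1 hx.2 fun i => g i (e.symm u)
    have b2 := a2 hx.1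
    have b3 := h3 e he u a3 hx
    beta_reduce at b3
    rw [← b3] at b1
    have b4 : normSq (g i (e.symm u)) ≤ ‖fun i => g i (e.symm u)‖ ^ 2 := by
      rw [Complex.normSq_eq_norm_sq]
      exact pow_le_pow_left₀ (norm_nonneg _) (norm_le_pi_norm (fun i => g i (e.symm u)) i) 2
    have b5 := (ρ.pn_rep hH).2.2.1 (e.symm u)
    have b6 : normSq (g i (e.symm u)) * ρ.pn H (e.symm u) ≤ max C 0 * ‖df f e u‖ ^ 2 :=
      ((mul_le_mul_of_nonneg_right b4 b5).trans b1).trans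
        (mul_le_mul_of_nonneg_right (le_max_left _ _) (sq_nonneg _))
    rw [Tn.pn_mul _ _ hH, Tn.pn_mul _ _ hH]
    calc _ = normSq (g i (e.symm u)) * ρ.pn H (e.symm u) * τ.pn H (e.symm u) ^ 2 := by ring
      _ ≤ max C 0 * ‖df f e u‖ ^ 2 * τ.pn H (e.symm u) ^ 2 :=
        mul_le_mul_of_nonneg_right b6 (sq_nonneg _)
      _ ≤ _ := by
        rw [mul_assoc]
        exact mul_le_mul_of_nonneg_left b2 (le_max_right _ _)
  · rw [hO]
    exact ⟨inter_subset_right, h1, h3⟩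

end DRV

open DRV in
theorem tDRV (hCOE : St_COE) (hWRG : St_WRG) (hKIT : St_KIT) : St_DRV := by
  intro n M _ H A F _ _ ev k z ρ hH hF hI hr
  have h1 : ∀ f : A, ∃ g : Fin k → A, Rl ρ (fun i => (z i).1) f.1 fun i => (g i).1 := fun f => by
    obtain ⟨g, a, b⟩ := ex hCOE hWRG hKIT hH hI ((hF.mem _).1 f.2) (hr f)
    exact ⟨fun i => ⟨g i, (hF.mem _).2 (a i)⟩, b⟩
  choose gg hg using h1
  choose s hs using hF.sur
  have key : ∀ (f : A) (g : Fin k → A), (Rl ρ (fun i => (z i).1) f.1 fun i => (g i).1) →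
      ∀ i, ev (gg (s (ev f)) i) = ev (g i) := fun f g h i => by
    obtain ⟨σ, h0⟩ := (hF.ker ((-1 : ℂ) • f + s (ev f))).1 (by simp [hs])
    obtain ⟨τ, h2⟩ := (h.lin (hg (s (ev f))) (-1)).zero hH hI h0
    have h3 := (hF.ker ((-1 : ℂ) • g i + gg (s (ev f)) i)).2 ⟨τ, fun x hx => h2 x hx i⟩
    rw [map_add, map_smul, neg_one_smul, neg_add_eq_zero] at h3
    exact h3.symm
  have lin : ∀ i (c : ℂ) (u v : F),
      ev (gg (s (c • u + v)) i) = c • ev (gg (s u) i) + ev (gg (s v) i) := fun i c u v => by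
    have h2 := key (c • s u + s v) (fun i => c • gg (s u) i + gg (s v) i)
      ((hg (s u)).lin (hg (s v)) c) i
    rwa [map_add, map_add, map_smul, map_smul, hs, hs] at h2
  have z0 : ∀ i, ev (gg (s 0) i) = 0 := fun i => by simpa using lin i 1 0 0
  refine ⟨fun i => Derivation.mk'
    { toFun := fun u => ev (gg (s u) i)
      map_add' := fun u v => by simpa using lin i 1 u v
      map_smul' := fun c u => by simpa [z0] using lin i c u 0 } fun u v => ?_, fun i j => ?_,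
    fun f => ?_⟩
  · have h2 := key (s u * s v) (fun i => s u * gg (s v) i + s v * gg (s u) i)
      ((hg (s u)).mul (hg (s v))) i
    rw [map_add, map_mul, map_mul, map_mul, hs, hs] at h2
    exact h2
  · have h2 : (fun i => ((Pi.single j 1 : Fin k → A) i).1) = Pi.single j 1 := funext fun i => by
      rcases eq_or_ne i j with rfl | h
      · simp
      · simp [h]
    refine (key (z j) (Pi.single j 1) (h2 ▸ Rl.crd hI j) i).trans ?_
    rcases eq_or_ne i j with rfl | h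
    · simp
    · simp [h]
  · obtain ⟨τ, -, -, h⟩ := hg f
    exact ⟨gg f, τ, key f _ (hg f), h⟩

end Pool.Agent.Lib.KT
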