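import Pool.Agent.Lib.KT.Blue
import Pool.Agent.Lib.SV.Ext85

/-! Project kt: extension across a thin set. -/

open scoped Topology
open Set MeasureTheory Filter

noncomputable section

namespace Pool.Agent.Lib.KT

open Pool.Agent.Lib.SV.H85

theorem tEXL : St_EXL := by
  intro n U S f hU hS hSU hf h
  have cf := fun z (hz : z ∈ S) => hf.continuousOn.continuousAt (hS.mem_nhds hz)
  refine ⟨fun y => limUnder (𝓝[S] y) f, fun x hx => ?_, fun z hz => ?_⟩
  · obtain ⟨j, j1, j2, j3, V, hV, fin⟩ := h x hx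
    have j0 : ¬j =ᶠ[𝓝 x] 0 := not_eventually.2 j2
    obtain ⟨W, hW, oW, xW⟩ := mem_nhds_iff.1 (inter_mem hV (j1.and j3))
    obtain ⟨G, hG⟩ := ext_local volume (f := f) oW
      (fun y hy => (hW hy).2.1.differentiableWithinAt) (hf.mono fun y hy => (hW hy.1).2.2 hy.2)
      (ne_top_of_le_ne_top fin (lintegral_mono_set fun y hy => ⟨(hW hy.1).1, (hW hy.1).2.2 hy.2⟩))
      xW j0
    have nz : ∀ᶠ y in 𝓝 x, ∃ᶠ w in 𝓝 y, j w ≠ 0 :=
      (not_frequently.1 fun h0 => j0 (eventually_zero_of_frequently j1 h0)).mono fun y hy =>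
        not_eventually.1 hy
    have e : ∀ᶠ y in 𝓝 x, y ∈ S → G y = f y := by
      filter_upwards [hG.eventually_nhds, nz] with y h1 h2 hy
      exact tendsto_nhds_unique_of_frequently_eq h1.self_of_nhds.1.continuousAt (cf y hy)
        ((h2.and_eventually h1).mono fun w hw => hw.2.2 hw.1)
    refine (hG.self_of_nhds.1.congr_of_eventuallyEq ?_).differentiableWithinAt
    filter_upwards [hG, nz, j3.eventually_nhds, e.eventually_nhds] with y h1 h2 h3 h4
    have : (𝓝[S] y).NeBot := mem_closure_iff_nhdsWithin_neBot.1 (mem_closure_iff_frequently.2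
      ((h2.and_eventually h3).mono fun w hw => hw.2 hw.1))
    refine Tendsto.limUnder_eq ((h1.1.continuousAt.tendsto.mono_left nhdsWithin_le_nhds).congr' ?_)
    filter_upwards [eventually_nhdsWithin_of_eventually_nhds h4, self_mem_nhdsWithin] with w a b
    exact a b
  · have : (𝓝[S] z).NeBot := mem_closure_iff_nhdsWithin_neBot.1 (subset_closure hz)
    exact (cf z hz).continuousWithinAt.tendsto.limUnder_eq

end Pool.Agent.Lib.KT
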