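import Pool.Agent.Lib.KT.Blue
import Pool.Agent.Lib.SIE.Tn

/-! Project kt: square integrable tensors extend. -/

open scoped Classical Topology ContDiff ComplexOrder Matrix ENNReal
open Set MeasureTheory Complex Metric Filter

noncomputable section

namespace Pool.Agent.Lib.KT

open Pool.Agent.Lib.SV (E)
open Pool.Agent.Lib.HS32
open Pool.Agent.Lib.RAA (kp)
open Pool.Agent.Lib.DM (uv)
open Pool.Agent.Lib.KH (OnK Jo)

namespace EXT

variable {n : ℕ} {M : Mf n}

theorem low {H : M.Fam (Mat n)} (hH : M.Met H) : M.All fun e z =>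
    ∃ c > (0 : ℝ), ∀ᶠ w in 𝓝 z, c ≤ (H e w).det.re := fun e he z hz => by
  have h0 : 0 < (H e z).det.re := (Complex.pos_iff.1 (hH.pos e he z hz).det_pos).1
  have h1 : ContinuousAt (H e) z :=
    continuousAt_pi.2 fun i => continuousAt_pi.2 fun j => (hH.sm e he z hz i j).continuousAt
  have h2 : ContinuousAt (fun w => (H e w).det.re) z :=
    continuous_re.continuousAt.comp (continuous_id.matrix_det.continuousAt.comp h1)
  exact ⟨_, half_pos h0, (h2.eventually (lt_mem_nhds (half_lt_self h0))).mono fun _ h => h.le⟩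

/-- The law holds everywhere when it holds off the zeros of a tensor. -/
theorem law [M.Cpt] (ρ : Tn M) {N B : ℕ} {t : M.Fam ((Fin N → Fin n) → ℂ)}
    (hc : M.All fun e z => ContinuousAt (t e) z) (h : M.Ov fun e e' x => x ∈ ρ.O →
      (M.J e e' x).det ^ B • t e (e x) = kp N (M.J e e' x) *ᵥ t e' (e' x)) :
    M.Ov fun e e' x => (M.J e e' x).det ^ B • t e (e x) = kp N (M.J e e' x) *ᵥ t e' (e' x) := by
  intro e he e' he' x hx hx'
  have c := SIE.cont_J e he e' he' x hx hx'
  have d : ContinuousAt (fun y => (M.J e e' y).det) x :=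
    continuous_id.matrix_det.continuousAt.comp c
  have a0 : ContinuousAt (fun y => t e (e y)) x :=
    ContinuousAt.comp (f := e) (hc e he _ (e.map_source hx)) (e.continuousAt hx)
  have a : ContinuousAt (fun y => (M.J e e' y).det ^ B • t e (e y)) x := (d.pow B).smul a0
  have a' : ContinuousAt (fun y => t e' (e' y)) x :=
    ContinuousAt.comp (f := e') (hc e' he' _ (e'.map_source hx')) (e'.continuousAt hx')
  have b : ContinuousAt (fun y => kp N (M.J e e' y) *ᵥ t e' (e' y)) x := by
    refine continuousAt_pi.2 fun I => tendsto_finsetSum _ fun K _ => ?_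
    have q : ContinuousAt (fun y => ∏ p, M.J e e' y (I p) (K p)) x :=
      tendsto_finsetProd _ fun p _ => continuousAt_pi.1 (continuousAt_pi.1 c _) _
    exact q.mul (continuousAt_pi.1 a' K)
  refine tendsto_nhds_unique_of_frequently_eq a b ?_
  refine ((mem_closure_iff_frequently.1 (ρ.dense_O x)).and_eventually
    ((e.open_source.eventually_mem hx).and (e'.open_source.eventually_mem hx'))).mono ?_
  exact fun y hy => h e he e' he' y hy.2.1 hy.2.2 hy.1

end EXT

open EXT in
theorem tEXT (hEXL : St_EXL) (hKIT : St_KIT) : St_EXT := by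
  intro n M _ H ρ N B s hH hs hJ
  obtain ⟨k1, k2, -⟩ := hKIT n M H hH
  have key : ∀ (e : M.Ch) (I : Fin N → Fin n), ∃ g : E n → ℂ, e ∈ M.C →
      DifferentiableOn ℂ g e.target ∧ EqOn g (fun w => s e w I) (e.target ∩ e.symm ⁻¹' ρ.O) := by
    intro e I
    by_cases he : e ∈ M.C
    swap
    · exact ⟨0, fun h => (he h).elim⟩
    have hS : IsOpen (e.target ∩ e.symm ⁻¹' ρ.O) := e.isOpen_inter_preimage_symm ρ.isOpen_O
    obtain ⟨g, hg⟩ := hEXL n e.target _ (fun w => s e w I) e.open_target hS inter_subset_left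
      (fun w hw => (differentiableAt_pi.1 (hs.hol e he w hw.1 hw.2).self_of_nhds
        I).differentiableWithinAt) fun w₀ hw₀ => by
      obtain ⟨i, hi⟩ := ρ.freq e he w₀ hw₀
      refine ⟨fun w => ρ.s e w i, ρ.tw.hol e he w₀ hw₀ i, hi,
        (e.open_target.eventually_mem hw₀).mono fun w hw h =>
          ⟨hw, (ρ.mem_O e he w hw).2 fun h' => h (congrFun h' i)⟩, ?_⟩
      obtain ⟨C, C0, hC⟩ := k1 N B e he w₀ hw₀
      obtain ⟨c, c0, hc⟩ := low hH e he w₀ hw₀
      obtain ⟨V, hV, Vo, Vm⟩ := _root_.eventually_nhds_iff.1 (hC.and hc)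
      refine ⟨V, Vo.mem_nhds Vm, ne_top_of_le_ne_top
        (ENNReal.mul_ne_top (ENNReal.ofReal_ne_top (r := C / c)) hJ) ?_⟩
      have hm := (Vo.inter hS).measurableSet
      have h1 := ((mMU n M H hH).2.2.2.2.2.1 e he _ hm fun w hw => hw.2.1).2.1
        fun x => ENNReal.ofReal (nv H B s x)
      refine le_trans ?_ (mul_le_mul_right (h1.ge.trans (lintegral_mono_set
        (image_subset_iff.2 fun w hw => hw.2.2))) _)
      rw [← lintegral_const_mul' _ _ ENNReal.ofReal_ne_top]
      refine setLIntegral_mono' hm fun w hw => ?_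
      obtain ⟨h2, h3⟩ := hV w hw.1
      have h4 : ‖s e w I‖ ^ 2 ≤ C * uv N B (H e) (s e) w :=
        (pow_le_pow_left₀ (norm_nonneg _) (norm_le_pi_norm _ I) 2).trans (h2 (s e)).2
      have h5 : 0 ≤ uv N B (H e) (s e) w :=
        (mul_nonneg_iff_of_pos_left C0).1 ((sq_nonneg _).trans h4)
      rw [k2 _ N B s hs e he w hw.2.1 hw.2.2, ← ENNReal.ofReal_mul (c0.le.trans h3),
        ← ENNReal.ofReal_mul (div_pos C0 c0).le]
      refine ENNReal.ofReal_le_ofReal (h4.trans ?_)
      rw [← mul_assoc]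
      refine mul_le_mul_of_nonneg_right ?_ h5
      rw [div_mul_eq_mul_div, le_div_iff₀ c0]
      exact mul_le_mul_of_nonneg_left h3 C0.le
    exact ⟨g, fun _ => hg⟩
  choose g hg using key
  have hol : M.All fun e z => HolN (fun w I => g e I w) z := fun e he z hz =>
    (e.open_target.eventually_mem hz).mono fun w hw => differentiableAt_pi.2 fun I =>
      (hg e I he).1.differentiableAt (e.open_target.mem_nhds hw)
  have eq : OnK M ρ.O fun e z => (fun I => g e I z) = s e z := fun e he z hz h =>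
    funext fun I => (hg e I he).2 ⟨hz, h⟩
  refine ⟨fun e w I => g e I w, ⟨fun e he z hz _ => hol e he z hz, fun e he e' he' x hx hx' _ =>
    law ρ (t := fun e w I => g e I w) (fun e he z hz => (hol e he z hz).self_of_nhds.continuousAt)
      (fun e he e' he' x hx hx' h => ?_) e he e' he' x hx hx'⟩, eq⟩
  rw [eq e he _ (e.map_source hx) (by rwa [e.left_inv hx]),
    eq e' he' _ (e'.map_source hx') (by rwa [e'.left_inv hx'])]
  exact hs.law e he e' he' x hx hx' h

end Pool.Agent.Lib.KT
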