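import Pool.Agent.Lib.KT.Top
import Pool.Agent.Lib.KG56.Jac

/-! Project kt, row FIB: the weight of the fibration. -/

open scoped Classical Topology ContDiff ComplexOrder Matrix ENNReal
open Set MeasureTheory Complex Metric Filter

noncomputable section

namespace Pool.Agent.Lib.KT

open Pool.Agent.Lib.KC (ng)

theorem tFIB (hWED : St_WED) (hJQ : St_JQ) (hPDT : St_PDT) (hNEG : St_NEG) (hSCL : St_SCL) :
    St_FIB := by
  intro n M _ H b k w s z hH hs hz hr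
  have hM := hH.toMet
  have bd : ∀ g, b.Gm 0 1 g → Bd b.B.O (b.B.pn H) g := fun g h =>
    ⟨h.1, h.2.imp fun C hC y hy => by simpa using hC y hy⟩
  have hZ : ∀ i, Bd b.B.O (b.B.pn H) (Fin.append (fun i => s (some i)) z i) := fun i => by
    refine Fin.addCases (fun i => ?_) (fun i => ?_) i
    · rw [Fin.append_left]
      exact bd _ (hs _)
    · rw [Fin.append_right]
      exact bd _ (hz _)
  obtain ⟨ρ, -, iv⟩ := hWED n M H _ _ hM (fun i => ⟨_, hZ i⟩) hr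
  obtain ⟨-, -, r0, r1⟩ := ρ.pn_rep hM
  obtain ⟨-, -, p0, p1⟩ := b.B.pn_rep hM
  obtain ⟨C, c0, hC⟩ := hJQ n M H _ _ _ _ hM (fun y _ => r0 y) iv
  obtain ⟨⟨D, d0, hD⟩, -⟩ := hSCL n M H ρ hM
  obtain ⟨-, ae, ε, e0, fin⟩ := hNEG n M H (b.B.mul (ρ.pw (k + w + 1))) hM
  have pn : ∀ y, (b.B.mul (ρ.pw (k + w + 1))).pn H y = b.p y * ρ.pn H y ^ (k + w + 1) :=
    fun y => by rw [Tn.pn_mul _ _ hM, Tn.pn_pw _ hM]
  obtain ⟨δ, δ0, δ1, δ2⟩ : ∃ δ > (0 : ℝ), δ * (D * C) ≤ 1 ∧ δ * D ^ (k + w + 1) ≤ 1 := by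
    have a1 : 0 < D * C := mul_pos d0 c0
    have a2 : 0 < D ^ (k + w + 1) := pow_pos d0 _
    refine ⟨(D * C + D ^ (k + w + 1))⁻¹, by positivity, ?_, ?_⟩ <;>
      rw [inv_mul_le_iff₀ (by positivity)] <;> linarith
  refine ⟨ae.mono fun y hy => ?_, fun y => δ * (b.B.mul (ρ.pw (k + w + 1))).pn H y, ε,
    (continuous_const.mul (Tn.pn_rep _ hM).2.1.continuous).continuousOn, fun y _ => ?_, e0, ?_,
    KG56.push2 (hPDT n M H b.B _ _ hH hZ) fun y _ => ?_⟩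
  · rw [Tn.O_mul, (ρ.O_pw _).2] at hy
    refine KG56.sub_of_jq (H := H) (z := z) (fun i => (hs (some i)).1) hy.1 fun c => ?_
    have := hC y hy.2
    rw [c, mul_zero] at this
    exact this.not_gt (pow_pos ((r0 y).lt_of_ne' ((r1 y).2 hy.2)) _)
  · beta_reduce
    rw [pn]
    have a := pow_le_pow_left₀ (r0 y) (hD y) (k + w + 1)
    have a0 := pow_nonneg (r0 y) (k + w + 1)
    refine ⟨mul_nonneg δ0.le (mul_nonneg (p0 y) a0), ?_⟩
    rw [mul_left_comm]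
    exact mul_le_of_le_one_right (p0 y) ((mul_le_mul_of_nonneg_left a δ0.le).trans δ2)
  · refine ne_top_of_le_ne_top ?_ (setLIntegral_le_lintegral _ _)
    have t : ENNReal.ofReal δ ^ (-ε) ≠ ⊤ :=
      ENNReal.rpow_ne_top_of_ne_zero (ENNReal.ofReal_pos.2 δ0).ne' ENNReal.ofReal_ne_top
    simp only [ng, ENNReal.ofReal_mul δ0.le,
      ENNReal.mul_rpow_of_ne_top ENNReal.ofReal_ne_top ENNReal.ofReal_ne_top]
    rw [lintegral_const_mul' _ _ t]
    exact ENNReal.mul_ne_top t fin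
  · have j0 := KG56.jq_nonneg (z := Fin.append (fun i => s (some i)) z) hM y
    rw [pn, pow_succ]
    by_cases hy : y ∈ ρ.O
    · have a := mul_le_mul (hC y hy) (hD y) (r0 y) (mul_nonneg c0.le j0)
      have a' := mul_le_of_le_one_left (mul_nonneg (pow_nonneg (r0 y) (k + w)) (r0 y)) (b.le1 y)
      nlinarith [mul_le_mul_of_nonneg_left (a'.trans a) δ0.le, mul_le_of_le_one_left j0 δ1]
    · rwa [not_not.1 (mt (r1 y).1 hy), mul_zero, mul_zero, mul_zero]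

end Pool.Agent.Lib.KT
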