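import Pool.Agent.Lib.KT.Blue

/-! Project kt, row FLD: the field of quotients of tensors. -/

open scoped Classical Topology ContDiff ComplexOrder Matrix ENNReal
open Set MeasureTheory Complex Metric Filter

noncomputable section

namespace Pool.Agent.Lib.KT

open Pool.Agent.Lib.SV (E nsq)
open Pool.Agent.Lib.HS32
open Pool.Agent.Lib.RAA (kp)
open Pool.Agent.Lib.KH (HoK)

namespace FLD

variable {n : ℕ} {M : Mf n} [M.Cpt] {H : M.Fam (Mat n)} {f g : M.X → ℂ}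

theorem mer_const (c : ℂ) : Mer H fun _ : M.X => c :=
  ⟨Tn.one, fun _ _ _ _ _ => Eventually.of_forall fun _ => differentiableAt_const c, normSq c,
    fun x _ => by rw [Tn.pn_one, mul_one]⟩

theorem mer_mul (hH : M.Met H) (hf : Mer H f) (hg : Mer H g) : Mer H (f * g) := by
  obtain ⟨σ, h1, C, hC⟩ := hf
  obtain ⟨τ, h2, C', hC'⟩ := hg
  refine ⟨σ.mul τ, fun e he z hz hx => ?_, C * C', fun x hx => ?_⟩
  all_goals rw [Tn.O_mul] at hx
  · exact ((h1 e he z hz hx.1).and (h2 e he z hz hx.2)).mono fun _ h => h.1.mul h.2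
  · have a := mul_nonneg (normSq_nonneg (f x)) ((σ.pn_rep hH).2.2.1 x)
    rw [Tn.pn_mul _ _ hH, Pi.mul_apply, map_mul, mul_mul_mul_comm]
    exact mul_le_mul (hC x hx.1) (hC' x hx.2)
      (mul_nonneg (normSq_nonneg _) ((τ.pn_rep hH).2.2.1 x)) (a.trans (hC x hx.1))

theorem mer_add (hS : St_SCL) (hH : M.Met H) (hf : Mer H f) (hg : Mer H g) : Mer H (f + g) := by
  obtain ⟨σ, h1, C, hC⟩ := hf
  obtain ⟨τ, h2, C', hC'⟩ := hg
  obtain ⟨K, K0, hK⟩ := (hS n M H σ hH).1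
  obtain ⟨K', K0', hK'⟩ := (hS n M H τ hH).1
  refine ⟨σ.mul τ, fun e he z hz hx => ?_, 2 * (C * K') + 2 * (C' * K), fun x hx => ?_⟩
  all_goals rw [Tn.O_mul] at hx
  · exact ((h1 e he z hz hx.1).and (h2 e he z hz hx.2)).mono fun _ h => h.1.add h.2
  · have s0 := (σ.pn_rep hH).2.2.1 x
    have t0 := (τ.pn_rep hH).2.2.1 x
    have a := mul_le_mul (hC x hx.1) (hK' x) t0
      ((mul_nonneg (normSq_nonneg (f x)) s0).trans (hC x hx.1))
    have b := mul_le_mul (hC' x hx.2) (hK x) s0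
      ((mul_nonneg (normSq_nonneg (g x)) t0).trans (hC' x hx.2))
    have c : normSq (f x + g x) ≤ 2 * normSq (f x) + 2 * normSq (g x) := by
      have d := normSq_nonneg (f x - g x)
      rw [normSq_sub] at d
      rw [normSq_add]
      linarith
    have d := mul_le_mul_of_nonneg_right c (mul_nonneg s0 t0)
    rw [Tn.pn_mul _ _ hH, Pi.add_apply]
    linarith

/-- The inverse of a quotient that is not zero. -/
theorem mer_inv (hN : St_NUM) (hS : St_SCL) (hH : M.Met H) (hf : Mer H f)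
    (h0 : ∀ τ : Tn M, ∃ x ∈ τ.O, f x ≠ 0) : Mer H f⁻¹ ∧ ∃ ρ : Tn M, ∀ x ∈ ρ.O, f x ≠ 0 := by
  obtain ⟨τ, hτ⟩ := hf
  obtain ⟨-, t, ht, hq⟩ := hN n M H τ f hH hτ
  have ev : ∀ x ∈ τ.O, M.ev t x = f x • M.ev τ.s x := fun x hx => by
    obtain ⟨c1, c2⟩ := (mTR n M).1 x
    have := hq _ c1 _ ((M.ch x).map_source c2) (by rwa [(M.ch x).left_inv c2])
    beta_reduce at this
    rwa [(M.ch x).left_inv c2] at this
  let σ : Tn M := ⟨τ.N, τ.B, t, fun e he z hz i => (ht.hol e he z hz trivial).mono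
      fun _ h => differentiableAt_pi.1 h i, by
    obtain ⟨x, hx, h1⟩ := h0 τ
    obtain ⟨c1, c2⟩ := (mTR n M).1 x
    exact ⟨_, c1, _, (M.ch x).map_source c2, fun h => smul_ne_zero h1 hx ((ev x hx).symm.trans h)⟩,
    fun e he e' he' x hx hx' => by
      beta_reduce
      rw [← ht.law e he e' he' x hx hx' trivial, smul_smul,
        inv_mul_cancel₀ (pow_ne_zero _ ((mTR n M).2.1 e he e' he' x hx hx').2.1), one_smul]⟩
  have ne : ∀ x ∈ (σ.mul τ).O, f x ≠ 0 := fun x hx h => by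
    rw [Tn.O_mul] at hx
    exact hx.1 ((ev x hx.2).trans (by rw [h, zero_smul]))
  obtain ⟨K, K0, hK⟩ := (hS n M H τ hH).1
  refine ⟨⟨σ.mul τ, fun e he z hz hx => ?_, K * K, fun x hx => ?_⟩, _, ne⟩
  · have h1 := hτ.1 e he z hz ((Tn.O_mul σ τ).le hx).2
    exact (h1.and (h1.self_of_nhds.continuousAt.eventually_ne (ne _ hx))).mono
      fun _ h => h.1.inv h.2
  · have h1 : σ.pn H x = normSq (f x) * τ.pn H x := by
      show RAA.hq _ (M.ev t x) / _ = _ * (RAA.hq _ (M.ev τ.s x) / _)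
      rw [ev x ((Tn.O_mul σ τ).le hx).2, DM.NRM.hq_smul, mul_div_assoc]
    rw [Tn.pn_mul _ _ hH, h1, Pi.inv_apply, map_inv₀, mul_assoc,
      inv_mul_cancel_left₀ (normSq_pos.2 (ne x hx)).ne']
    exact mul_le_mul (hK x) (hK x) ((τ.pn_rep hH).2.2.1 x) K0.le

end FLD

open FLD in
theorem tFLD (hNUM : St_NUM) (hSCL : St_SCL) : St_FLD := by
  intro n M _ H hH
  let A : Subalgebra ℂ (M.X → ℂ) :=
    { carrier := {f | Mer H f}
      mul_mem' := mer_mul hH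
      add_mem' := mer_add hSCL hH
      algebraMap_mem' := fun c => mer_const c }
  let I : Ideal A :=
    { carrier := {f | ∃ τ : Tn M, ∀ x ∈ τ.O, f.1 x = 0}
      add_mem' := fun {f g} ⟨σ, h1⟩ ⟨τ, h2⟩ => ⟨σ.mul τ, fun x hx => by
        rw [Tn.O_mul] at hx
        exact (congrArg₂ (· + ·) (h1 x hx.1) (h2 x hx.2)).trans (add_zero 0)⟩
      zero_mem' := ⟨Tn.one, fun _ _ => rfl⟩
      smul_mem' := fun g f ⟨τ, h⟩ => ⟨τ, fun x hx =>
        (congrArg (g.1 x * ·) (h x hx)).trans (mul_zero _)⟩ }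
  have hI : I.IsMaximal := Ideal.isMaximal_iff.2 ⟨fun ⟨τ, h⟩ => by
    obtain ⟨x, hx⟩ := τ.dense_O.nonempty
    exact one_ne_zero (α := ℂ) (h x hx), fun J f hJ hf hfJ => by
    obtain ⟨h1, ρ, h2⟩ := mer_inv hNUM hSCL hH f.2 fun τ => by
      by_contra h
      exact hf ⟨τ, fun x hx => by_contra fun k => h ⟨x, hx, k⟩⟩
    have h3 : 1 - (⟨f.1⁻¹, h1⟩ : A) * f ∈ I :=
      ⟨ρ, fun x hx => sub_eq_zero.2 (inv_mul_cancel₀ (h2 x hx)).symm⟩
    simpa using J.add_mem (hJ h3) (J.mul_mem_left ⟨f.1⁻¹, h1⟩ hfJ)⟩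
  let := Ideal.Quotient.field I
  exact ⟨A, A ⧸ I, this, inferInstance, Ideal.Quotient.mkₐ ℂ I,
    fun _ => Iff.rfl, fun _ => Ideal.Quotient.eq_zero_iff_mem, Ideal.Quotient.mkₐ_surjective ℂ I⟩

end Pool.Agent.Lib.KT
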