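import Pool.Agent.Lib.KT.Top
import Pool.Agent.Lib.KH.B_MAX

/-! Project kt: a lower bound for the Jacobian. -/

open scoped Classical Topology ComplexOrder Matrix
open Set Complex Metric Filter

noncomputable section

namespace Pool.Agent.Lib.KT

open Pool.Agent.Lib.SV (E nsq nsq_nonneg)
open Pool.Agent.Lib.HS32 Pool.Agent.Lib.HS32.Mf
open Pool.Agent.Lib.KH (HoK)
open Pool.Agent.Lib.KG56 (jac gm jq)

namespace JQ

variable {n k : ℕ}

theorem dot (v : E n) : (star v ⬝ᵥ v).re = nsq v := by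
  simp only [dotProduct, nsq, re_sum, Pi.star_apply, star_def, ← normSq_eq_conj_mul_self, ofReal_re]

theorem alg {A : Matrix (Fin k) (Fin n) ℂ} {T : Mat n} (hT : T.PosDef) {c D p : ℝ}
    (hc : ((c : ℂ) • (1 : Mat n) - T).PosSemidef) (c0 : 0 < c) (D0 : 0 < D) (p0 : 0 ≤ p)
    (h : ∀ a : E k, nsq a * p ≤ D * nsq (Aᴴ *ᵥ a)) : p ^ k ≤ (c * D) ^ k * gm A T := by
  have h0 := mul_pos c0 D0
  have hB := (KG56.PU.gm_psd A hT).1
  have h1 := HS76.le_det_of_le (c := p / (c * D)) Matrix.PosDef.one hB (div_nonneg p0 h0.le)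
    (KH.MAX.psd (hB.sub (by simp [Matrix.IsHermitian])) fun a => by
      have h2 := (Complex.nonneg_iff.1 ((HS76.inv_le_of_le Matrix.PosDef.one hT
        hc).dotProduct_mulVec_nonneg (Aᴴ *ᵥ a))).1
      have h3 : star a ⬝ᵥ (A * T⁻¹ * Aᴴ) *ᵥ a = star (Aᴴ *ᵥ a) ⬝ᵥ T⁻¹ *ᵥ Aᴴ *ᵥ a := by
        rw [Matrix.star_mulVec, Matrix.conjTranspose_conjTranspose, ← Matrix.dotProduct_mulVec,
          Matrix.mulVec_mulVec, Matrix.mulVec_mulVec]
      simp only [nq, inv_one, Matrix.sub_mulVec, Matrix.smul_mulVec, Matrix.one_mulVec,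
        dotProduct_sub, dotProduct_smul, smul_eq_mul, sub_re, re_ofReal_mul, dot, h3,
        sub_nonneg] at h2 ⊢
      rw [div_mul_eq_mul_div, div_le_iff₀ h0]
      nlinarith [h a, mul_le_mul_of_nonneg_left h2 D0.le])
  rwa [Fintype.card_fin, Matrix.det_one, one_re, mul_one, div_pow, div_le_iff₀' (pow_pos h0 k)]
    at h1

theorem op (L : E n →L[ℂ] ℂ) : ‖L‖ ^ 2 ≤ n * nsq fun j => star (L (Pi.single j 1)) := by
  have h : ‖L‖ ≤ ∑ j, ‖L (Pi.single j 1)‖ :=
    L.opNorm_le_bound (Finset.sum_nonneg fun _ _ => norm_nonneg _) fun v => by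
      conv_lhs => rw [pi_eq_sum_univ' v]
      rw [map_sum, Finset.sum_mul]
      refine (norm_sum_le _ _).trans (Finset.sum_le_sum fun j _ => ?_)
      rw [map_smul, norm_smul, mul_comm]
      exact mul_le_mul_of_nonneg_left (norm_le_pi_norm v j) (norm_nonneg _)
  refine (pow_le_pow_left₀ (norm_nonneg _) h 2).trans (sq_sum_le_card_mul_sum_sq.trans_eq ?_)
  simp only [Finset.card_univ, Fintype.card_fin, nsq, Complex.normSq_eq_norm_sq, norm_star]

theorem sup (a : E k) : nsq a ≤ k * ‖star a‖ ^ 2 := by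
  rw [norm_star]
  refine (Finset.sum_le_card_nsmul _ _ (‖a‖ ^ 2) fun i _ => ?_).trans_eq (by simp)
  rw [Complex.normSq_eq_norm_sq]
  exact pow_le_pow_left₀ (norm_nonneg _) (norm_le_pi_norm a i) 2

end JQ

open JQ in
theorem tJQ : St_JQ := by
  intro n M _ H O p k z hH p0 hI
  have hz : ∀ i, HoK M O (z i) := fun i e he w hw ho => by
    have := (hI.1 _ ho e he (e.map_target hw)).1
    rw [e.right_inv hw] at this
    exact this.mono fun y hy => differentiableAt_pi.1 hy i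
  have j0 := KG56.jq_nonneg (z := z) hH
  refine Exists.imp (fun C h => ⟨h.1, fun y hy => h.2 y trivial hy⟩) (isCompact_univ.induction_on
    (p := fun s => ∃ C > (0 : ℝ), ∀ y ∈ s, y ∈ O → p y ^ k ≤ C * jq M H z y)
    ⟨1, one_pos, fun _ h => h.elim⟩ (fun s t h ⟨C, c, hC⟩ => ⟨C, c, fun y hy => hC y (h hy)⟩)
    (fun s t ⟨C, c, hC⟩ ⟨D, d, hD⟩ => ⟨C + D, add_pos c d, fun y hy ho => ?_⟩) fun x _ => ?_)
  · have := j0 y
    rcases hy with hy | hy
    · nlinarith [hC y hy ho]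
    · nlinarith [hD y hy ho]
  obtain ⟨C, hC⟩ := hI.2 _ (ch_mem x) _ (ch_tgt x)
  obtain ⟨r, r0, hr⟩ := nhds_basis_closedBall.mem_iff.1
    ((M.ch x).open_target.mem_nhds (ch_tgt x))
  obtain ⟨c, c1, hc⟩ := (mBD n M H hH).2.2.1 _ (ch_mem x) _ (isCompact_closedBall _ r) hr
  have D0 : (0 : ℝ) < k * |C| * n + 1 := by positivity
  refine ⟨_, mem_nhdsWithin_of_mem_nhds (inter_mem ((M.ch x).open_source.mem_nhds (mem_ch x))
    ((M.ch x).continuousAt (mem_ch x) (inter_mem hC (closedBall_mem_nhds _ r0)))),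
    (c * (k * |C| * n + 1)) ^ k, by positivity, fun y hy ho => ?_⟩
  obtain ⟨y1, y2, y3⟩ := hy
  have e := (M.ch x).left_inv y1
  rw [KG56.jq_rep hH hz (ch_mem x) y1 ho]
  refine alg (hH.pos _ (ch_mem x) _ (hr y3)) (by rw [Complex.coe_smul]; exact (hc _ y3).2.1)
    (by positivity) D0 (p0 y ho) fun a => ?_
  have h1 := y2 (by rwa [e]) (star a)
  have h2 := op (∑ i, star a i • df (z i) (M.ch x) (M.ch x y))
  have h3 : (fun j => star ((∑ i, star a i • df (z i) (M.ch x) (M.ch x y)) (Pi.single j 1))) =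
      (jac M z (M.ch x) (M.ch x y))ᴴ *ᵥ a := funext fun j => by
    simp only [sum_apply, smul_apply, smul_eq_mul, star_sum,
      star_mul', Pi.star_apply, star_star, Matrix.mulVec, dotProduct, Matrix.conjTranspose_apply,
      jac, Matrix.of_apply, fun i => (mHOL n _ _).2.1
        (hz i _ (ch_mem x) _ (hr y3) (by rwa [e])).self_of_nhds, mul_comm]
  rw [e] at h1
  rw [h3] at h2
  have h4 := mul_le_mul_of_nonneg_left (h1.trans ((mul_le_mul_of_nonneg_right (le_abs_self C)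
    (sq_nonneg _)).trans (mul_le_mul_of_nonneg_left h2 (abs_nonneg C)))) (Nat.cast_nonneg k)
  nlinarith [mul_le_mul_of_nonneg_right (sup a) (p0 y ho),
    nsq_nonneg ((jac M z (M.ch x) (M.ch x y))ᴴ *ᵥ a)]

end Pool.Agent.Lib.KT
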