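import Pool.Agent.Lib.KT.Blue

/-! Project kt, row KIT: norms in a chart and local bounds. -/

open scoped Classical Topology ContDiff ComplexOrder Matrix ENNReal
open Set MeasureTheory Complex Metric Filter

noncomputable section

namespace Pool.Agent.Lib.KT

open Pool.Agent.Lib.SV (E)
open Pool.Agent.Lib.HS32
open Pool.Agent.Lib.RAA (hq kp kq st_KQ)
open Pool.Agent.Lib.DM (uv)
open Pool.Agent.Lib.KH (HoK OnK)

namespace KIT

/-- A positive quadratic function is comparable with the squared norm, locally uniformly. -/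
theorem quad {Y V : Type} [TopologicalSpace Y] [NormedAddCommGroup V] [NormedSpace ℝ V]
    [ProperSpace V] {q : Y → V → ℝ} {y : Y} (hc : ∀ v, ContinuousAt (fun p : Y × V => q p.1 p.2) (y, v))
    (hs : ∀ w (r : ℝ) v, q w (r • v) = r ^ 2 * q w v) (hp : ∀ v ≠ 0, 0 < q y v) :
    ∃ C > (0 : ℝ), ∀ᶠ w in 𝓝 y, ∀ v, q w v ≤ C * ‖v‖ ^ 2 ∧ ‖v‖ ^ 2 ≤ C * q w v := by
  have hK := isCompact_sphere (0 : V) 1
  have c : ContinuousOn (q y) (sphere 0 1) := fun v _ =>
    ((hc v).comp (f := fun v => (y, v)) (by fun_prop)).continuousWithinAt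
  obtain ⟨a, a0, ha⟩ := hK.exists_forall_le' c fun v hv => hp v (ne_zero_of_mem_unit_sphere ⟨v, hv⟩)
  obtain ⟨b, hb⟩ := hK.exists_bound_of_continuousOn c
  refine ⟨|b| + 1 + 2 / a, by positivity, ?_⟩
  filter_upwards [hK.eventually_forall_of_forall_eventually
    (P := fun w v => a / 2 < q w v ∧ q w v < |b| + 1) fun v hv =>
      ((hc v).eventually (lt_mem_nhds (by linarith [ha v hv]))).and ((hc v).eventually
        (gt_mem_nhds (by linarith [(le_abs_self _).trans (hb v hv), le_abs_self b])))] with w h v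
  rcases eq_or_ne v 0 with rfl | v0
  · have := hs w 0 0
    rw [smul_zero] at this
    simp [this.trans (by ring : (0 : ℝ) ^ 2 * q w 0 = 0)]
  · have n0 := norm_pos_iff.2 v0
    obtain ⟨h1, h2⟩ := h (‖v‖⁻¹ • v) (mem_sphere_zero_iff_norm.2 (norm_smul_inv_norm v0))
    have e : q w v = ‖v‖ ^ 2 * q w (‖v‖⁻¹ • v) := by
      rw [← hs, smul_inv_smul₀ n0.ne']
    have k : 1 ≤ 2 / a * q w (‖v‖⁻¹ • v) := by
      rw [div_mul_eq_mul_div, le_div_iff₀ a0]
      linarith
    have t : 0 < 2 / a := by positivity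
    have u := abs_nonneg b
    have s := sq_nonneg ‖v‖
    rw [e]
    exact ⟨by nlinarith [mul_le_mul_of_nonneg_left h2.le s],
      by nlinarith [mul_le_mul_of_nonneg_left k s, mul_nonneg s (by linarith : 0 ≤ q w (‖v‖⁻¹ • v))]⟩

variable {n : ℕ} {M : Mf n}

theorem cq (N : ℕ) : Continuous fun p : Mat n × ((Fin N → Fin n) → ℂ) => hq (kp N p.1) p.2 :=
  continuous_re.comp (continuous_snd.star.dotProduct (Continuous.matrix_mulVec
    (continuous_matrix fun f g => by
      simp only [kp, kq, Matrix.of_apply]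
      exact continuous_finsetProd _ fun a _ => continuous_fst.matrix_elem (f a) (g a))
    continuous_snd))

theorem cM {T : E n → Mat n} {z : E n} (h : SmM T z) : ContinuousAt T z :=
  continuousAt_pi.2 fun i => continuousAt_pi.2 fun j => (h i j).continuousAt

theorem cdet {T : E n → Mat n} {z : E n} (h : SmM T z) : ContinuousAt (fun w => (T w).det.re) z :=
  (continuous_re.comp continuous_id.matrix_det).continuousAt.comp (cM h)

theorem cont {F : Type} [TopologicalSpace F] {f : M.X → F} {x : M.X}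
    (h : ContinuousAt (f ∘ (M.ch x).symm) (M.ch x x)) : ContinuousAt f x :=
  (h.comp ((M.ch x).continuousAt (Mf.mem_ch x))).congr
    (((M.ch x).eventually_left_inverse (Mf.mem_ch x)).mono fun _ hy => congrArg f hy)

theorem con {O : Set M.X} {f : M.X → ℂ} (h : HoK M O f) : ContinuousOn f O := fun x hx =>
  (cont (Mf.AllOn.ch h x (by rwa [Mf.ch_symm])).self_of_nhds.continuousAt).continuousWithinAt

end KIT

open KIT

theorem tKIT : St_KIT := by
  intro n M _ H hH
  have dp : M.All fun e z => 0 < (H e z).det.re := fun e he z hz =>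
    (Complex.lt_def.1 (hH.pos e he z hz).det_pos).1
  refine ⟨fun N B e he z hz => ?_, fun O N B s hs e he z hz h => ?_, fun O φ h => ?_,
    fun O f g τ hO hf hg h => EqOn.of_subset_closure h (con hf) (con hg) inter_subset_left
      (τ.dense_O.open_subset_closure_inter hO), fun b => ?_⟩
  · obtain ⟨C, C0, hC⟩ := quad (y := z)
      (q := fun w (v : (Fin N → Fin n) → ℂ) => hq (kp N (H e w)) v / (H e w).det.re ^ B)
      (fun v => ((cq N).continuousAt.comp (((cM (hH.sm e he z hz)).comp_of_eq continuousAt_fst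
        rfl).prodMk continuousAt_snd)).div (((cdet (hH.sm e he z hz)).comp_of_eq continuousAt_fst
          rfl).pow B) (pow_pos (dp e he z hz) B).ne')
      (fun w r v => by
        rw [← Complex.coe_smul, DM.NRM.hq_smul, normSq_ofReal, mul_div_assoc, sq])
      fun v hv => div_pos (Complex.lt_def.1 ((((st_KQ N (Fin n) (Fin n) (Fin n)).2.2.2.2.1 _).2
        fun _ => hH.pos e he z hz).dotProduct_mulVec_pos hv)).1 (pow_pos (dp e he z hz) B)
    exact ⟨C, C0, hC.mono fun w hw s => hw (s w)⟩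
  · have hx := e.map_target hz
    have k := DM.NRM.uv_eq N B _ _ _ _ _ _ _
      ((mTR n M).2.1 e he _ (Mf.ch_mem _) _ hx (Mf.mem_ch _)).2.1
      (hH.cmp e he _ (Mf.ch_mem _) _ hx (Mf.mem_ch _))
      (hs.law e he _ (Mf.ch_mem _) _ hx (Mf.mem_ch _) h)
    rw [e.right_inv hz] at k
    exact k
  · refine (isCompact_univ.induction_on (p := fun s => ∃ C, ∀ y ∈ s, y ∈ O → φ y ≤ C)
      ⟨0, fun _ h => h.elim⟩ (fun s t st ⟨C, k⟩ => ⟨C, fun y hy => k y (st hy)⟩)
      (fun s t ⟨C, k⟩ ⟨C', k'⟩ => ⟨max C C', fun y hy ho => hy.elim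
        (fun a => le_max_of_le_left (k y a ho)) fun a => le_max_of_le_right (k' y a ho)⟩)
      fun x _ => ?_).imp fun C k y => k y (mem_univ y)
    obtain ⟨C, k⟩ := Mf.AllOn.ch h x
    refine ⟨_, mem_nhdsWithin_of_mem_nhds ((((M.ch x).continuousAt (Mf.mem_ch x)).eventually k).and
      ((M.ch x).eventually_left_inverse (Mf.mem_ch x))), C, fun y hy ho => ?_⟩
    have := hy.1
    beta_reduce at this
    rw [hy.2] at this
    exact this ho
  · have rep : OnK M b.O fun e z =>
        b.T (e.symm z) = normSq (b.ψ e z) / (H e z).det.re ^ b.d := fun e he z hz h => by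
      have hx := e.map_target hz
      have j := ((mTR n M).2.1 e he _ (Mf.ch_mem _) _ hx (Mf.mem_ch _)).2.1
      have c := hH.cmp e he _ (Mf.ch_mem _) _ hx (Mf.mem_ch _)
      have l := b.law e he _ (Mf.ch_mem _) _ hx (Mf.mem_ch _) h
      beta_reduce at c l
      rw [e.right_inv hz] at c l
      show normSq (b.ψ _ _) / (H _ _).det.re ^ b.d = _
      rw [← l, c, DM.NRM.det_conj, mul_pow, map_mul, map_pow,
        mul_div_mul_left _ _ (pow_ne_zero _ (normSq_pos.2 j).ne')]
    have hol := fun y (hy : y ∈ b.O) => Mf.AllOn.ch b.hol y (by rwa [Mf.ch_symm])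
    refine ⟨fun y hy => ⟨((b.B.pn_rep hH).2.2.1 y).lt_of_ne' (((b.B.pn_rep hH).2.2.2 y).2 hy),
      div_pos (normSq_pos.2 (hol y hy).2) (pow_pos (Mf.AllOn.ch dp y) _)⟩,
      fun y hy => (cont ?_).continuousWithinAt, rep⟩
    refine ((continuous_normSq.continuousAt.comp (hol y hy).1.self_of_nhds.continuousAt).div
      ((cdet (Mf.AllOn.ch hH.sm y)).pow b.d) (pow_pos (Mf.AllOn.ch dp y) _).ne').congr ?_
    filter_upwards [(M.ch y).open_target.mem_nhds (Mf.ch_tgt y),
      ((M.ch y).tendsto_symm (Mf.mem_ch y)).eventually (b.B.isOpen_O.mem_nhds hy)] with w h1 h2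
    exact (rep _ (Mf.ch_mem y) w h1 h2).symm

end Pool.Agent.Lib.KT
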