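import Pool.Agent.Lib.KT.Top
import Pool.Agent.Lib.HLK.B_FK1
import Pool.Agent.Lib.HLK.B_FK2

/-! Project kt, row LAM: a multivector gives a tensor. -/

open scoped Classical Topology Matrix
open Set Filter

set_option linter.unusedVariables false

noncomputable section

namespace Pool.Agent.Lib.KT

open Pool.Agent.Lib.SV (E nsq)
open Pool.Agent.Lib.HS32 Pool.Agent.Lib.HLK
open Pool.Agent.Lib.RAA (kp kq)
open Pool.Agent.Lib.K3E (Tw)

namespace LAM

variable {n : ℕ} (A : Fs n)

/-- The matrix that puts the rows `I` at the places of `A`. -/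
def P (I : Fin A.card → Fin n) : Mat n := Matrix.of fun i j =>
  ∑ a, if A.orderEmbOfFin rfl a = i ∧ I a = j then 1 else 0

theorem la (I : Fin A.card → Fin n) (g : Mat n) (B : Fs n) : La (P A I * g) A B =
    if h : B.card = A.card then (g.submatrix I (B.orderEmbOfFin h)).det else 0 := by
  simp only [La, Matrix.of_apply]
  split_ifs with h
  · refine congrArg Matrix.det (Matrix.ext fun a b => ?_)
    simp [P, Matrix.mul_apply, ite_and]
  · rfl

theorem row (I : Fin A.card → Fin n) (g : Mat n) (B : Fs n) :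
    La (P A I * g) A B = ∑ J : Fin A.card → Fin n, (∏ a, g (I a) (J a)) * La (P A J) A B := by
  have h1 : ∀ J, La (P A J) A B = _ := fun J => by rw [← mul_one (P A J), la]
  simp only [h1, la]
  split_ifs with h
  · have e2 := (Matrix.detRowAlternating (n := Fin A.card) (R := ℂ)).toMultilinearMap.map_sum
      fun a j => g (I a) j • fun b => (1 : Mat n) j (B.orderEmbOfFin h b)
    simp only [MultilinearMap.map_smul_univ, smul_eq_mul] at e2
    refine Eq.trans ?_ e2
    exact congrArg Matrix.det (Matrix.ext fun a b => by simp [Matrix.one_apply])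
  · simp

theorem law (g : Mat n) (w : Fs n → ℂ) : (fun I => (La (P A I) *ᵥ La g *ᵥ w) A) =
    kp A.card g *ᵥ fun I => (La (P A I) *ᵥ w) A := by
  funext I
  rw [Matrix.mulVec_mulVec, ← ((st_FK2 st_FK1 n).2 _).2.2.1]
  simp only [Matrix.mulVec, dotProduct, row A I g, kp, kq, Matrix.of_apply, Finset.sum_mul,
    Finset.mul_sum, mul_assoc]
  exact Finset.sum_comm

theorem self (w : Fs n → ℂ) : (La (P A (A.orderEmbOfFin rfl)) *ᵥ w) A = w A := by
  have h : ∀ B, La (P A (A.orderEmbOfFin rfl)) A B = (1 : Mx (Fs n)) A B := fun B => by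
    rw [← mul_one (P A _), la, ← (st_FK2 st_FK1 n).1]
    rfl
  simp only [Matrix.mulVec, dotProduct, h]
  simp [Matrix.one_apply]

end LAM

theorem tLAM : St_LAM := by
  intro n M a W hW
  obtain ⟨e₀, he₀, z₀, hz₀, k⟩ := hW.nz
  obtain ⟨A, hA⟩ := Function.ne_iff.1 k
  refine ⟨A.card, by simpa using A.card_le_univ, fun e z I => (La (LAM.P A I) *ᵥ W e z) A,
    ⟨fun e he z hz I => ?_, ⟨e₀, he₀, z₀, hz₀, fun c => hA ?_⟩,
      fun e he e' he' x hx hx' => ?_⟩, fun e he z hz h c => h ?_⟩
  · have : ∀ᶠ w in 𝓝 z, ∀ j, DifferentiableAt ℂ (fun y => W e y j) w :=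
      eventually_all.2 fun j => hW.hol e he z hz j
    filter_upwards [this] with w hw
    simp only [Matrix.mulVec, dotProduct]
    exact DifferentiableAt.fun_sum fun B _ => (hw B).const_mul _
  · exact (LAM.self A (W e₀ z₀)).symm.trans (congrFun c _)
  · beta_reduce
    rw [← LAM.law]
    funext I
    simp only [hW.cmp e he e' he' x hx hx', Matrix.mulVec_smul, Pi.smul_apply]
  · funext I
    simp [c]

end Pool.Agent.Lib.KT
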