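import Pool.Agent.Lib.KT.Blue

/-! Project kt, row LT: the curvature of the form. -/

open scoped Classical Topology ContDiff
open Set Complex Filter

noncomputable section

namespace Pool.Agent.Lib.KT

open Pool.Agent.Lib.SV (E)
open Pool.Agent.Lib.HS32
open Pool.Agent.Lib.KH (OnK)

theorem tLT (hK : St_KIT) : St_LT := by
  intro n M _ H b hH
  have k := ((hK n M H hH).2.2.2.2 b).2.2
  have key : OnK M b.O fun e z =>
      ContDiffAt ℝ ∞ (fun w => Real.log (normSq (b.ψ e w))) z ∧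
      hess (fun w => (Real.log (normSq (b.ψ e w)) : ℝ)) z = 0 ∧
      ContDiffAt ℝ ∞ (fun w => Real.log (H e w).det.re) z ∧
      ∀ᶠ w in 𝓝 z, Real.log (b.T (e.symm w)) =
        Real.log (normSq (b.ψ e w)) - b.d * Real.log (H e w).det.re := fun e he z hz ho => by
    obtain ⟨h1, h2⟩ := b.hol e he z hz ho
    obtain ⟨a1, a2, -⟩ := ((mHOL n _ z).2.2 h1).2.2.2 h2
    refine ⟨a1, a2, (reCLM.contDiff.contDiffAt.comp z (hH.sm e he z hz).det).log
      (Mf.pd_det_re (hH.pos e he z hz)).ne', ?_⟩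
    filter_upwards [e.open_target.mem_nhds hz,
      (e.continuousAt_symm hz).eventually (b.B.isOpen_O.mem_nhds ho)] with w w1 w2
    rw [k e he w w1 w2, Real.log_div (normSq_pos.2 (b.hol e he w w1 w2).2).ne'
      (pow_pos (Mf.pd_det_re (hH.pos e he w w1)) _).ne', Real.log_pow]
  refine ⟨fun e he z hz ho => ?_, fun e he z hz ho => ?_⟩
  all_goals obtain ⟨a1, a2, a3, a4⟩ := key e he z hz ho
  · exact (a1.sub (contDiffAt_const.mul a3)).congr_of_eventuallyEq a4
  · have e1 : M.lc (fun y => Real.log (b.T y)) e =ᶠ[𝓝 z]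
        fun w => ((Real.log (normSq (b.ψ e w)) : ℝ) : ℂ) - (b.d : ℂ) * ld (H e) w :=
      a4.mono fun w hw => by simp only [Mf.lc, hw, ld, ofReal_sub, ofReal_mul, ofReal_natCast]
    have c3 : ContDiffAt ℝ ∞ (ld (H e)) z := cd_ofReal a3
    rw [Mf.hs, hess_congr e1, hess_sub (cd_ofReal a1) (contDiffAt_const.mul c3), a2,
      hess_const_mul _ c3, Mf.ric]
    ext i j
    simp

end Pool.Agent.Lib.KT
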