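import Pool.Agent.Lib.KT.Blue

/-! Project kt: the minors of a matrix of covectors. -/

open scoped Classical Matrix
open Matrix Finset

noncomputable section

namespace Pool.Agent.Lib.KT

open Pool.Agent.Lib.SV (E)
open Pool.Agent.Lib.HS32
open Pool.Agent.Lib.RAA (kp kq)

namespace MIN

variable {k m : ℕ}

/-- The matrix with the rows `a` and `y`. -/
def mx (a : Fin k → E (k + m) →L[ℂ] ℂ) (y : Fin m → E (k + m)) : Mat (k + m) :=
  Matrix.of (Fin.append (fun i j => a i (Pi.single j 1)) y)

/-- The minors. -/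
def dl (a : Fin k → E (k + m) →L[ℂ] ℂ) (L : Fin m → Fin (k + m)) : ℂ :=
  (mx a fun p => Pi.single (L p) 1).det

theorem det_mx (a : Fin k → E (k + m) →L[ℂ] ℂ) (y : Fin m → E (k + m)) :
    (mx a y).det = ∑ σ : Equiv.Perm (Fin (k + m)), ((Equiv.Perm.sign σ : ℤ) : ℂ) *
      ((∏ i, a i (Pi.single (σ (Fin.castAdd m i)) 1)) * ∏ p, y p (σ (Fin.natAdd k p))) := by
  rw [← det_transpose, det_apply']
  simp only [transpose_apply, mx, of_apply, Fin.prod_univ_add, Fin.append_left, Fin.append_right]

theorem expand (a : Fin k → E (k + m) →L[ℂ] ℂ) (y : Fin m → E (k + m)) :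
    (mx a y).det = ∑ K : Fin m → Fin (k + m), (∏ p, y p (K p)) * dl a K := by
  simp only [dl, det_mx, mul_sum]
  rw [sum_comm]
  refine sum_congr rfl fun σ _ => ?_
  have : ∏ p, y p (σ (Fin.natAdd k p)) = ∑ K : Fin m → Fin (k + m),
      ∏ p, y p (K p) * (Pi.single (K p) 1 : E (k + m)) (σ (Fin.natAdd k p)) := by
    rw [← Fintype.piFinset_univ, ← prod_univ_sum (fun _ => univ) fun p K =>
      y p K * (Pi.single K 1 : E (k + m)) (σ (Fin.natAdd k p))]
    simp [Pi.single_apply]
  rw [this, mul_sum, mul_sum]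
  refine sum_congr rfl fun K _ => ?_
  rw [prod_mul_distrib]
  ring

theorem app (a : E (k + m) →L[ℂ] ℂ) (v : E (k + m)) : ∑ j, a (Pi.single j 1) * v j = a v := by
  conv_rhs => rw [pi_eq_sum_univ' v, map_sum]
  simp [mul_comm]

theorem mv (a : Fin k → E (k + m) →L[ℂ] ℂ) (y : Fin m → E (k + m)) (v : E (k + m)) :
    (∀ i, (mx a y *ᵥ v) (Fin.castAdd m i) = a i v) ∧
      ∀ p, (mx a y *ᵥ v) (Fin.natAdd k p) = y p ⬝ᵥ v :=
  ⟨fun i => by simp only [mulVec, dotProduct, mx, of_apply, row, Fin.append_left, app],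
    fun p => by simp only [mulVec, mx, row, of_apply, Fin.append_right]⟩

theorem bound (a : Fin k → E (k + m) →L[ℂ] ℂ) (L : Fin m → Fin (k + m)) :
    ‖dl a L‖ ≤ (k + m).factorial * ∏ i, ‖a i‖ := by
  rw [dl, det_mx]
  refine (norm_sum_le_of_le _ (n := fun _ => ∏ i, ‖a i‖) fun σ _ => ?_).trans_eq
    (by simp [Fintype.card_perm])
  have s : ‖((Equiv.Perm.sign σ : ℤ) : ℂ)‖ = 1 := by
    rcases Int.units_eq_one_or (Equiv.Perm.sign σ) with h | h <;> simp [h]
  rw [norm_mul, s, one_mul, norm_mul, norm_prod, norm_prod]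
  refine (mul_le_of_le_one_right (prod_nonneg fun _ _ => norm_nonneg _)
    (prod_le_one (fun _ _ => norm_nonneg _) fun p _ => ?_)).trans
    (prod_le_prod (fun _ _ => norm_nonneg _) fun i _ => ?_)
  · exact (norm_le_pi_norm _ _).trans_eq (by rw [Pi.norm_single, norm_one])
  · exact ((a i).le_opNorm _).trans_eq (by rw [Pi.norm_single, norm_one, mul_one])

theorem upd (a : Fin k → E (k + m) →L[ℂ] ℂ) (c : Fin k → ℂ) (i : Fin k)
    (L : Fin m → Fin (k + m)) : c i * dl a L = dl (Function.update a i (∑ j, c j • a j)) L := by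
  have := det_updateRow_sum (mx a fun p => Pi.single (L p) 1) (Fin.castAdd m i)
    (Fin.append c (0 : Fin m → ℂ))
  rw [Fin.append_left, smul_eq_mul] at this
  refine this.symm.trans (congrArg det (Matrix.ext fun r j => ?_))
  rw [updateRow_apply]
  refine Fin.addCases (fun r => ?_) (fun r => ?_) r
  · by_cases h : r = i
    · simp [h, mx, Fin.sum_univ_add]
    · simp [h, mx]
  · have h : Fin.natAdd k r ≠ Fin.castAdd m i := fun h => by
      have := congrArg Fin.val h
      have := i.2
      simp only [Fin.val_natAdd, Fin.val_castAdd] at *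
      omega
    rw [if_neg h]
    simp [mx]

end MIN

open MIN in
theorem tMIN : St_MIN := by
  refine fun k m => ⟨dl, fun L => ?_, fun a c => funext fun L => ?_, fun a a' J h => funext fun L => ?_,
    fun a => ⟨fun h c => ?_, fun h h0 => ?_⟩, (k + m).factorial, fun a c => ?_⟩
  · simp only [dl, det_mx]
    fun_prop
  · simp only [dl, det_mx, Pi.smul_apply, smul_eq_mul, ContinuousLinearMap.smul_apply,
      prod_mul_distrib, mul_sum]
    exact sum_congr rfl fun σ _ => by ring
  · rw [Pi.smul_apply, smul_eq_mul, mul_comm, dl, ← det_mul]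
    refine Eq.trans (congrArg det (Matrix.ext fun r j => ?_)) (expand a' fun p => J (L p))
    refine Fin.addCases (fun r => ?_) (fun r => ?_) r
    · simp only [mx, mul_apply, of_apply, Fin.append_left, h, app, mulVec_single_one]
      rfl
    · simp [mx, mul_apply, Pi.single_apply]
  · obtain ⟨L, hL⟩ := Function.ne_iff.1 h
    obtain ⟨v, hv⟩ := mulVec_surjective_iff_isUnit.2 ((isUnit_iff_isUnit_det _).2 (Ne.isUnit hL))
      (Fin.append c 0)
    exact ⟨v, funext fun i => ((mv a _ v).1 i).symm.trans (by rw [hv, Fin.append_left])⟩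
  · let T := (ContinuousLinearMap.pi a).toLinearMap
    have e := T.finrank_range_add_finrank_ker
    rw [LinearMap.range_eq_top.2 h, finrank_top] at e
    simp only [Module.finrank_fintype_fun_eq_card, Fintype.card_fin, add_right_inj] at e
    obtain ⟨q, hq⟩ := (LinearMap.ker T).subtype.exists_leftInverse_of_injective
      (Submodule.ker_subtype _)
    let φ := (Module.finBasisOfFinrankEq ℂ _ e).equivFun
    obtain ⟨v, v0, hv⟩ := exists_mulVec_eq_zero_iff.2 (show (mx a fun p j =>
      φ (q (Pi.single j 1)) p).det = 0 by simp [expand, h0])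
    have h1 : v ∈ LinearMap.ker T := funext fun i => ((mv a _ v).1 i).symm.trans (congrFun hv _)
    have h2 : φ (q v) = 0 := funext fun p => by
      refine Eq.trans ?_ (((mv a _ v).2 p).symm.trans (congrFun hv _))
      conv_lhs => rw [pi_eq_sum_univ' v, map_sum, map_sum]
      simp [dotProduct, mul_comm]
    exact v0 (congrArg Subtype.val ((LinearMap.congr_fun hq ⟨v, h1⟩).symm.trans
      (φ.map_eq_zero_iff.1 h2)))
  · rw [mul_comm, ← norm_norm (dl a), ← norm_smul]
    refine (pi_norm_le_iff_of_nonneg (by positivity)).2 fun i => ?_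
    rw [Pi.smul_apply, norm_smul, norm_norm, mul_comm, ← norm_smul]
    refine (pi_norm_le_iff_of_nonneg (by positivity)).2 fun L => ?_
    rw [Pi.smul_apply, smul_eq_mul, upd, mul_assoc]
    refine (bound _ L).trans (mul_le_mul_of_nonneg_left ?_ (Nat.cast_nonneg _))
    rw [← mul_prod_erase _ _ (mem_univ i), Function.update_self, mul_comm]
    refine mul_le_mul_of_nonneg_right ?_ (norm_nonneg _)
    refine (prod_le_prod (fun _ _ => norm_nonneg _) (g := fun _ => 1 + ‖a‖) fun j hj => ?_).trans ?_
    · rw [Function.update_of_ne (ne_of_mem_erase hj)]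
      exact (norm_le_pi_norm a j).trans (le_add_of_nonneg_left zero_le_one)
    · rw [prod_const]
      exact pow_le_pow_right₀ (le_add_of_nonneg_right (norm_nonneg _))
        ((card_le_univ _).trans_eq (Fintype.card_fin k))

end Pool.Agent.Lib.KT
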