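import Pool.Agent.Lib.KT.Blue

/-! The elements of the field that are holomorphic on the open set, as functions. -/

open scoped Classical Topology ContDiff ComplexOrder Matrix ENNReal
open Set MeasureTheory Complex Metric Filter

noncomputable section

namespace Pool.Agent.Lib.KT

open Pool.Agent.Lib.SV (E nsq)
open Pool.Agent.Lib.HS32
open Pool.Agent.Lib.KH (HoK SmK OnK Jo Pol)

namespace MOD

variable {n : ℕ} {M : Mf n} {H : M.Fam (Mat n)}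

theorem bd_congr {O : Set M.X} (hO : IsOpen O) {w : M.X → ℝ} {f g : M.X → ℂ}
    (h : ∀ y ∈ O, f y = g y) (hf : Bd O w f) : Bd O w g := by
  obtain ⟨h1, C, h2⟩ := hf
  refine ⟨fun e he z hz hz' => ?_, C, fun y hy => h y hy ▸ h2 y hy⟩
  have h3 : ∀ᶠ u in 𝓝 z, (g ∘ e.symm) u = (f ∘ e.symm) u :=
    ((e.continuousAt_symm hz).eventually (hO.mem_nhds hz')).mono fun u hu => (h _ hu).symm
  exact ((h1 e he z hz hz').and h3.eventually_nhds).mono fun u hu =>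
    hu.1.congr_of_eventuallyEq hu.2

theorem ho_mul {O : Set M.X} {f g : M.X → ℂ} (hf : HoK M O f) (hg : HoK M O g) :
    HoK M O (f * g) := fun e he z hz hz' =>
  ((hf e he z hz hz').and (hg e he z hz hz')).mono fun _ hu => hu.1.mul hu.2

theorem ho_add {O : Set M.X} {f g : M.X → ℂ} (hf : HoK M O f) (hg : HoK M O g) :
    HoK M O (f + g) := fun e he z hz hz' =>
  ((hf e he z hz hz').and (hg e he z hz hz')).mono fun _ hu => hu.1.add hu.2

theorem ho_const (O : Set M.X) (c : ℂ) : HoK M O (algebraMap ℂ (M.X → ℂ) c) :=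
  fun _ _ _ _ _ => Eventually.of_forall fun _ => differentiableAt_const c

variable (b : Ba M H)

theorem gm_mul {c c' : ℕ} {f g : M.X → ℂ} (hf : b.Gm 0 c f) (hg : b.Gm 0 c' g)
    (hp : ∀ y ∈ b.O, 0 < b.p y) : b.Gm 0 (c + c') (f * g) := by
  obtain ⟨h1, C, h2⟩ := hf
  obtain ⟨k1, D, k2⟩ := hg
  refine ⟨ho_mul h1 k1, C * D, fun y hy => ?_⟩
  have a1 := h2 y hy
  have a2 := k2 y hy
  have a3 := hp y hy
  simp only [pow_zero, one_mul] at a1 a2 ⊢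
  have a4 : 0 ≤ normSq (f y) * b.p y ^ c := mul_nonneg (normSq_nonneg _) (by positivity)
  have a5 : 0 ≤ normSq (g y) * b.p y ^ c' := mul_nonneg (normSq_nonneg _) (by positivity)
  rw [Pi.mul_apply, map_mul, pow_add, mul_mul_mul_comm]
  exact mul_le_mul a1 a2 a5 (a4.trans a1)

theorem gm_add {c c' : ℕ} {f g : M.X → ℂ} (hf : b.Gm 0 c f) (hg : b.Gm 0 c' g)
    (hp : ∀ y ∈ b.O, 0 < b.p y) : b.Gm 0 (c + c') (f + g) := by
  obtain ⟨h1, C, h2⟩ := hf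
  obtain ⟨k1, D, k2⟩ := hg
  refine ⟨ho_add h1 k1, 2 * C + 2 * D, fun y hy => ?_⟩
  have a1 := h2 y hy
  have a2 := k2 y hy
  have a3 := hp y hy
  have a6 : b.p y ≤ 1 := b.le1 y
  simp only [pow_zero, one_mul] at a1 a2 ⊢
  have a4 : b.p y ^ (c + c') ≤ b.p y ^ c := pow_le_pow_of_le_one a3.le a6 (by omega)
  have a5 : b.p y ^ (c + c') ≤ b.p y ^ c' := pow_le_pow_of_le_one a3.le a6 (by omega)
  have a7 : normSq (f y + g y) ≤ 2 * normSq (f y) + 2 * normSq (g y) := by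
    simp only [normSq_apply, add_re, add_im]
    nlinarith [sq_nonneg ((f y).re - (g y).re), sq_nonneg ((f y).im - (g y).im)]
  have a8 := mul_le_mul_of_nonneg_left a4 (normSq_nonneg (f y))
  have a9 := mul_le_mul_of_nonneg_left a5 (normSq_nonneg (g y))
  have a10 := mul_le_mul_of_nonneg_right a7 (pow_pos a3 (c + c')).le
  rw [Pi.add_apply]
  linarith

theorem gm_const (c : ℂ) : b.Gm 0 0 (algebraMap ℂ (M.X → ℂ) c) :=
  ⟨ho_const _ c, normSq c, fun y _ => by simp⟩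

end MOD

open MOD in
theorem tMOD (hTEN : St_TEN) (hNEG : St_NEG) (hKIT : St_KIT) : St_MOD := by
  intro n M _ H A F _ _ ev b G hH hF hG hq
  obtain ⟨-, -, -, k4, k5⟩ := hKIT n M H hH
  have hp : ∀ y ∈ b.O, 0 < b.p y := fun y hy => ((k5 b).1 y hy).1
  have hO : IsOpen b.O := b.B.isOpen_O
  obtain ⟨y0, hy0⟩ : b.O.Nonempty := b.B.dense_O.nonempty
  have u1 : ∀ f g : A, HoK M b.O f.1 → HoK M b.O g.1 → ev f = ev g → ∀ y ∈ b.O, f.1 y = g.1 y :=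
    fun f g hf hg h => by
      obtain ⟨τ, hτ⟩ := (hF.ker (f - g)).1 (by rw [map_sub, h, sub_self])
      exact k4 _ _ _ τ hO hf hg fun y hy => sub_eq_zero.1 (hτ y hy.2)
  have u2 : ∀ f g : A, (∀ y ∈ b.O, f.1 y = g.1 y) → ev f = ev g := fun f g h => by
    rw [← sub_eq_zero, ← map_sub]
    exact (hF.ker _).2 ⟨b.B, fun y hy => sub_eq_zero.2 (h y hy)⟩
  let R : Subalgebra ℂ F :=
    { carrier := {u | ∃ f : A, (∃ c, b.Gm 0 c f.1) ∧ ev f = u}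
      mul_mem' := by
        rintro _ _ ⟨f, ⟨c, hf⟩, rfl⟩ ⟨g, ⟨c', hg⟩, rfl⟩
        exact ⟨f * g, ⟨_, gm_mul b hf hg hp⟩, map_mul _ _ _⟩
      add_mem' := by
        rintro _ _ ⟨f, ⟨c, hf⟩, rfl⟩ ⟨g, ⟨c', hg⟩, rfl⟩
        exact ⟨f + g, ⟨_, gm_add b hf hg hp⟩, map_add _ _ _⟩
      algebraMap_mem' := fun c => ⟨algebraMap ℂ A c, ⟨0, gm_const b c⟩, ev.commutes c⟩ }
  have hR : ∀ u : R, ∃ f : A, (∃ c, b.Gm 0 c f.1) ∧ ev f = u := fun u => u.2
  choose r r1 r2 using hR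
  have r3 : ∀ u, HoK M b.O (r u).1 := fun u => (r1 u).choose_spec.1
  let pt : M.X → M.X := fun y => if y ∈ b.O then y else y0
  have p1 : ∀ y, pt y ∈ b.O := fun y => by
    by_cases h : y ∈ b.O
    · simp only [pt, if_pos h, h]
    · simp only [pt, if_neg h, hy0]
  have p2 : ∀ y ∈ b.O, pt y = y := fun y h => if_pos h
  have c1 : ∀ c : ℂ, (fun y => (r (algebraMap ℂ R c)).1 (pt y)) = algebraMap ℂ (M.X → ℂ) c :=
    fun c => funext fun y => u1 _ (algebraMap ℂ A c) (r3 _) (ho_const _ c)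
      ((r2 _).trans (ev.commutes c).symm) _ (p1 y)
  let fn : R →ₐ[ℂ] (M.X → ℂ) :=
    { toFun := fun u y => (r u).1 (pt y)
      map_one' := by simpa using c1 1
      map_mul' := fun u v => funext fun y => u1 _ (r u * r v) (r3 _) (ho_mul (r3 u) (r3 v))
        (by rw [map_mul, r2, r2, r2]; rfl) _ (p1 y)
      map_zero' := by simpa using c1 0
      map_add' := fun u v => funext fun y => u1 _ (r u + r v) (r3 _) (ho_add (r3 u) (r3 v))
        (by rw [map_add, r2, r2, r2]; rfl) _ (p1 y)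
      commutes' := c1 }
  have f1 : ∀ u, ∀ y ∈ b.O, fn u y = (r u).1 y := fun u y hy => congrArg (r u).1 (p2 y hy)
  have f2 : ∀ u : R, (∀ y ∈ b.O, (r u).1 y = 0) → u = 0 := fun u h =>
    Subtype.ext ((r2 u).symm.trans ((hF.ker _).2 ⟨b.B, h⟩))
  have f3 : ∀ x c (g : A), b.Gm x c g.1 → ∃ h : ev g ∈ R, ∀ y ∈ b.O, fn ⟨ev g, h⟩ y = g.1 y :=
    fun x c g hg => ⟨⟨g, ⟨_, ((hTEN n M H b x c _ hH).2 hg).2.1⟩, rfl⟩, fun y hy =>
      (f1 _ y hy).trans (u1 _ _ (r3 _) hg.1 (r2 _) y hy)⟩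
  have f4 : ∀ c, ∀ u ∈ G 0 c, u ∈ R := fun c u hu => by
    obtain ⟨g, g1, g2⟩ := (hG 0 c u).1 hu
    exact ⟨g, ⟨c, g1⟩, g2⟩
  refine ⟨R, fn, fun f => ?_, fun f hf => ?_, fun f h => f2 f fun y hy => (f1 f y hy).symm.trans
    (h y hy), fun x c f => ⟨fun h => ?_, ?_⟩, fun x c u hu => ?_, fun f => ?_⟩
  · obtain ⟨a, q, q1, q2, q3⟩ := hq f
    exact ⟨q, f4 a q q1, q2, f4 a _ q3⟩
  · obtain ⟨c, hc⟩ := r1 f
    obtain ⟨σ, s1, -⟩ := ((hTEN n M H b 0 c _ hH).2 hc).2.2 (by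
      by_contra h
      push Not at h
      exact hf (f2 f h))
    filter_upwards [(hNEG n M H b.B hH).2.1, (hNEG n M H σ hH).2.1] with y h1 h2
    rw [f1 f y h1]
    exact (s1.le ⟨h1, h2⟩).2
  · obtain ⟨g, g1, rfl⟩ := (hG x c f).1 h
    obtain ⟨h1, h2⟩ := f3 x c g g1
    exact ⟨h1, bd_congr hO (fun y hy => (h2 y hy).symm) g1⟩
  · rintro ⟨h1, h2⟩
    exact (hG x c f).2 ⟨r ⟨f, h1⟩, bd_congr hO (f1 _) h2, r2 _⟩
  · obtain ⟨h1, h2⟩ := f3 x c ⟨u, (hF.mem u).2 ((hTEN n M H b x c _ hH).2 hu).1⟩ hu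
    exact ⟨_, h2⟩
  · obtain ⟨c, hc⟩ := r1 f
    have h1 : b.Gm 0 c (fn f) := bd_congr hO (fun y hy => (f1 f y hy).symm) hc
    exact ⟨(hF.mem _).2 ((hTEN n M H b 0 c _ hH).2 h1).1, (u2 _ _ (f1 f)).trans (r2 f)⟩

end Pool.Agent.Lib.KT
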