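import Pool.Agent.Lib.KT.Blue
import Pool.Agent.Lib.GH76.Pshp

/-! Project kt, row NEG: a negative power of the norm is integrable. -/

open scoped Classical Topology ContDiff ComplexOrder Matrix ENNReal
open Set MeasureTheory Complex Metric Filter

noncomputable section

namespace Pool.Agent.Lib.KT

open Pool.Agent.Lib.SV (E nsq)
open Pool.Agent.Lib.HS32 Pool.Agent.Lib.HS32.Mf
open Pool.Agent.Lib.KH (HoK SmK OnK Jo Pol)

namespace NEG

theorem pol {n : ℕ} {M : Mf n} [M.Cpt] {H : M.Fam (Mat n)} {σ : M.X → ℝ} (hH : M.Met H)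
    (h : Pol M H σ) {x₀ : M.X} (h0 : σ x₀ ≠ 0) :
    ∃ ε > (0 : ℝ), ∫⁻ y, ENNReal.ofReal (σ y) ^ (-ε) ∂M.mu H ≠ ⊤ := by
  obtain ⟨B, hB⟩ := h.cur
  obtain ⟨γ, A, γ0, A0, hA⟩ := GH76.skoda M B hH
  have int : ∀ {f : M.X → ℝ}, Continuous f → Integrable f (M.mu H) := fun hf =>
    (mMU n M H hH).2.2.2.2.1 ℝ _ hf
  refine ⟨γ, γ0, ne_top_of_le_ne_top (ENNReal.ofReal_ne_top
    (r := Real.exp (-(γ * Real.log (σ x₀))) * A)) ?_⟩
  have d0 : ∀ k : ℕ, 0 < 1 / (k + 1 : ℝ) := fun _ => Nat.one_div_pos_of_nat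
  have p0 : ∀ (k : ℕ) x, 0 < σ x + 1 / (k + 1 : ℝ) := fun k x =>
    add_pos_of_nonneg_of_pos (h.nn x) (d0 k)
  have ls : ∀ k : ℕ, M.Sm fun x => Real.log (σ x + 1 / (k + 1 : ℝ)) := fun k e he z hz =>
    ((h.sm e he z hz).add contDiffAt_const).log (p0 k _).ne'
  have c : ∀ k : ℕ, Continuous fun x => Real.exp (-(γ * Real.log (σ x + 1 / (k + 1 : ℝ)))) :=
    fun k => Real.continuous_exp.comp (continuous_const.mul (ls k).continuous).neg
  refine le_trans (lintegral_mono fun x => ?_)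
    ((lintegral_liminf_le fun k => (c k).measurable.ennreal_ofReal).trans
      (liminf_le_of_frequently_le' (Frequently.of_forall (f := atTop) fun k => ?_)))
  · have t := (tendsto_const_nhds (x := σ x)).add
      (tendsto_one_div_add_atTop_nhds_zero_nat (𝕜 := ℝ))
    rw [add_zero] at t
    refine ((((ENNReal.continuous_rpow_const (y := -γ)).tendsto _).comp
      (ENNReal.tendsto_ofReal t)).congr fun k => ?_).liminf_eq.ge
    rw [Function.comp_apply, ENNReal.ofReal_rpow_of_pos (p0 k x), Real.rpow_def_of_pos (p0 k x)]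
    exact congrArg (fun t => ENNReal.ofReal (Real.exp t)) (by ring)
  · have s := ls k
    obtain ⟨y, hy⟩ := s.exists_max
    have d1 : 1 / (k + 1 : ℝ) ≤ 1 :=
      (div_le_one (by positivity)).2 (le_add_of_nonneg_left k.cast_nonneg)
    have k1 := hA _ (s.add (sm_const (-Real.log (σ y + 1 / (k + 1 : ℝ)))))
      ((hB _ ⟨d0 k, d1⟩).congr (fun _ _ _ _ => rfl) fun e he z hz => by
        have k0 := (mLAP n M _ _ s (sm_const (-Real.log (σ y + 1 / (k + 1 : ℝ))))).1
          (-Real.log (σ y + 1 / (k + 1 : ℝ))) e he z hz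
        simp only [Pi.add_apply]
        rw [k0.2.1, k0.1, add_zero])
      (fun x => by linarith [hy x]) ⟨y, add_neg_cancel _⟩
    rw [← ofReal_integral_eq_lintegral_ofReal (int (c k)) (.of_forall fun _ =>
      (Real.exp_pos _).le)]
    refine ENNReal.ofReal_le_ofReal (le_trans ?_ (mul_le_mul_of_nonneg_left k1 (Real.exp_pos _).le))
    rw [← integral_const_mul]
    refine integral_mono (int (c k)) (int (continuous_const.mul (Real.continuous_exp.comp
      (continuous_const.mul (s.continuous.add continuous_const).neg)))) fun x => ?_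
    have k2 := (Real.log_le_log ((h.nn _).lt_of_ne' h0) (le_add_of_nonneg_right (d0 k).le)).trans
      (hy x₀)
    beta_reduce
    rw [← Real.exp_add, Real.exp_le_exp]
    nlinarith

end NEG

theorem tNEG (hP : St_POL) : St_NEG := by
  intro n M _ H τ hH
  obtain ⟨-, r2, r3, r4⟩ := τ.pn_rep hH
  obtain ⟨C, hC⟩ := hP n M H τ.N τ.B hH
  obtain ⟨-, -, c3⟩ := hC Unit (fun _ => τ.s) fun _ =>
    ⟨fun e he z hz _ => τ.holN e he z hz, fun e he e' he' x hx hx' _ => τ.law e he e' he' x hx hx'⟩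
  have hp : Pol M H (τ.pn H) := ⟨r2, r3, C, fun d hd => by
    have h := c3 d hd
    simp only [Finset.univ_unique, Finset.sum_singleton] at h
    exact h⟩
  obtain ⟨x₀, h₀⟩ := τ.dense_O.nonempty
  obtain ⟨ε, ε0, hε⟩ := NEG.pol hH hp ((r4 x₀).2 h₀)
  refine ⟨hp, (ae_lt_top (r2.continuous.measurable.ennreal_ofReal.pow_const _) hε).mono
    fun y hy => (r4 y).1 fun h => ?_, ε, ε0, hε⟩
  rw [h, ENNReal.ofReal_zero, ENNReal.zero_rpow_of_neg (neg_neg_of_pos ε0)] at hy
  exact lt_irrefl _ hy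

end Pool.Agent.Lib.KT
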