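import Pool.Agent.Lib.KT.Blue
import Pool.Agent.Lib.SIE.Tn

/-! Project kt: the multiples of a tensor. -/

open scoped Classical Topology ComplexOrder Matrix ENNReal
open Set MeasureTheory Complex Filter

noncomputable section

namespace Pool.Agent.Lib.KT

open Pool.Agent.Lib.HS32
open Pool.Agent.Lib.KH (Jo)

theorem tNUM (hEXT : St_EXT) : St_NUM := by
  intro n M _ H τ f hH ⟨hf, C, hC⟩
  have l : Lt τ.O τ.N τ.B fun e z => f (e.symm z) • τ.s e z :=
    ⟨fun e he z hz ho => ((hf e he z hz ho).and (τ.holN e he z hz)).mono fun _ h => h.1.smul h.2,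
      fun e he e' he' x hx hx' _ => by
        rw [e.left_inv hx, e'.left_inv hx', smul_comm, τ.law e he e' he' x hx hx',
          Matrix.mulVec_smul]⟩
  have := (mMU n M H hH).2.1
  obtain ⟨t, h1, h2⟩ := hEXT n M H τ _ _ _ hH l (ne_top_of_le_ne_top
    (b := ∫⁻ _ in τ.O, ENNReal.ofReal C ∂M.mu H) (by
      rw [setLIntegral_const]
      exact ENNReal.mul_ne_top ENNReal.ofReal_ne_top (measure_ne_top _ _))
    (setLIntegral_mono' τ.isOpen_O.measurableSet fun x hx => ENNReal.ofReal_le_ofReal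
      (le_trans (le_of_eq (by
        simp only [nv, Tn.pn, Mf.ev, DM.uv, DM.NRM.hq_smul, (M.ch x).left_inv ((mTR n M).1 x).2,
          mul_div_assoc])) (hC x hx))))
  exact ⟨SIE.tn_mr τ (c := t) fun e he z hz => ⟨h1.hol e he z hz trivial,
    fun h => h2 e he z hz ((τ.mem_O e he z hz).2 h)⟩, t, h1, h2⟩

end Pool.Agent.Lib.KT
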