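import Pool.Agent.Lib.KT.Top

/-! Project kt, row PDT: the data of the direct image for a denominator. -/

open scoped Classical Topology Matrix
open Set Complex Filter

noncomputable section

namespace Pool.Agent.Lib.KT

open Pool.Agent.Lib.HS32

theorem tPDT (hNEG : St_NEG) (hNUM : St_NUM) (hPOL : St_POL) (_ : St_KIT) : St_PDT := by
  intro n M _ H τ k z hH hz
  refine ⟨hH, (hNEG n M H τ hH.toMet).1, (τ.pn_rep hH.toMet).2.2.2, τ.dense_O, fun i => (hz i).1,
    fun i y => ?_⟩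
  obtain ⟨-, t, h1, h2⟩ := hNUM n M H τ _ hH.toMet (hz i)
  obtain ⟨C, hC⟩ := hPOL n M H τ.N τ.B hH.toMet
  refine ⟨_, (hC Unit (fun _ e w => t e w - y • τ.s e w) fun _ => ⟨fun e he w hw _ =>
    ((h1.hol e he w hw trivial).and (τ.holN e he w hw)).mono fun _ h =>
      h.1.sub (h.2.const_smul y), fun e he e' he' x hx hx' _ => ?_⟩).1, fun x hx => ?_⟩
  · rw [smul_sub, smul_comm, h1.law e he e' he' x hx hx' trivial, τ.law e he e' he' x hx hx',
      Matrix.mulVec_sub, Matrix.mulVec_smul]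
  · have a := h2 _ (Mf.ch_mem x) _ (Mf.ch_tgt x) (by rwa [Mf.ch_symm])
    simp only [Finset.univ_unique, Finset.sum_singleton, nv, Tn.pn, Mf.ev, DM.uv, a, Mf.ch_symm,
      ← sub_smul, DM.NRM.hq_smul, mul_div_assoc, mul_comm]

end Pool.Agent.Lib.KT
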