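import Pool.Agent.Lib.KT.Blue
import Pool.Agent.Lib.KB47.Loc

/-! Project kt, row POL: logarithms of sums of norms. -/

open scoped Classical Topology ContDiff ComplexOrder Matrix
open Set Complex Filter

noncomputable section

namespace Pool.Agent.Lib.KT

open Pool.Agent.Lib.SV (E)
open Pool.Agent.Lib.HS32
open Pool.Agent.Lib.DM (uv)
open Pool.Agent.Lib.KH.MAX (lw dw sum_rule mul_rule)
open Pool.Agent.Lib.KB47 (lw_add dw_add lw_const log_rule lw_congr)

namespace POL

variable {n : ℕ} {V : E n → ℝ} {z v : E n} {q : ℝ}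

/-- The Levi form dominates the gradient, up to `q`. -/
def Q (q : ℝ) (V : E n → ℝ) (z v : E n) : Prop :=
  0 ≤ V z ∧ 0 ≤ lw V z v + q * V z ∧ normSq (dw V z v) ≤ V z * (lw V z v + q * V z)

theorem q_pos (hV : ContDiffAt ℝ ∞ V z) (h0 : 0 < V z)
    (h : 0 ≤ q + lw (fun w => Real.log (V w)) z v) : Q q V z v := by
  have a := (log_rule hV h0 v).2
  have b := mul_nonneg (pow_pos h0 2).le h
  have c : normSq (dw V z v) ≤ V z * (lw V z v + q * V z) := by nlinarith
  exact ⟨h0.le, nonneg_of_mul_nonneg_right ((normSq_nonneg _).trans c) h0, c⟩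

theorem q_zero (hV : ContDiffAt ℝ ∞ V z) (h0 : V z = 0) (h : ∀ᶠ w in 𝓝 z, 0 ≤ V w) :
    Q q V z v := by
  have c : ContDiffAt ℝ ∞ (fun w => -1 * V w) z := contDiffAt_const.mul hV
  obtain ⟨a, b⟩ := mMAXE n _ z c (h.mono fun w hw => by simp only [h0]; linarith)
  have a1 : 0 ≤ lw V z v := by
    have t : 0 ≤ nq (-hess (fun w => ((-1 * V w : ℝ) : ℂ)) z) v := a.re_dotProduct_nonneg v
    have e := mul_rule (-1) hV v
    have e' : nq (-hess (fun w => ((-1 * V w : ℝ) : ℂ)) z) v = -lw (fun w => -1 * V w) z v := by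
      simp only [lw, nq, Matrix.neg_mulVec, dotProduct_neg, neg_re]
    linarith
  have b1 : dw V z v = 0 := Finset.sum_eq_zero fun j _ => by
    have t := (b j).1
    simp only [ofReal_mul] at t
    rw [dz_const_mul _ (cd_diff (cd_ofReal hV))] at t
    rw [(mul_eq_zero.1 t).resolve_left (by simp), zero_mul]
  refine ⟨h0.ge, ?_, ?_⟩ <;> simp [h0, a1, b1]

theorem q_sum {ι : Type} [Fintype ι] {V : ι → E n → ℝ} (hV : ∀ i, ContDiffAt ℝ ∞ (V i) z)
    (h : ∀ i, Q q (V i) z v) : Q q (fun w => ∑ i, V i w) z v := by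
  obtain ⟨s1, s2⟩ := sum_rule Finset.univ hV v
  have e : lw (fun w => ∑ i, V i w) z v + q * ∑ i, V i z = ∑ i, (lw (V i) z v + q * V i z) := by
    rw [s1, Finset.mul_sum, Finset.sum_add_distrib]
  refine ⟨Finset.sum_nonneg fun i _ => (h i).1, e ▸ Finset.sum_nonneg fun i _ => (h i).2.1, ?_⟩
  beta_reduce
  rw [e, s2, normSq_eq_norm_sq]
  refine (pow_le_pow_left₀ (norm_nonneg _) (norm_sum_le _ _) 2).trans ?_
  exact Finset.sum_sq_le_sum_mul_sum_of_sq_le_mul _ (fun i _ => (h i).1) (fun i _ => (h i).2.1)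
    fun i _ => normSq_eq_norm_sq _ ▸ (h i).2.2

theorem q_log (hV : ContDiffAt ℝ ∞ V z) (h : Q q V z v) (q0 : 0 ≤ q) {d : ℝ} (d0 : 0 < d) :
    0 ≤ q + lw (fun w => Real.log (V w + d)) z v := by
  obtain ⟨a, b, c⟩ := h
  have p : 0 < V z + d := by positivity
  have k := (log_rule (hV.add contDiffAt_const) p v).2
  rw [lw_add hV contDiffAt_const, lw_const, dw_add hV contDiffAt_const] at k
  have e : dw (fun _ : E n => d) z v = 0 := by simp [dw]
  rw [e, add_zero, add_zero] at k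
  refine le_of_mul_le_mul_left ?_ (pow_pos p 2)
  rw [mul_zero, mul_add, k]
  nlinarith [mul_nonneg d0.le b, mul_nonneg q0 (mul_nonneg d0.le p.le)]

end POL

open POL in
theorem tPOL : St_POL := by
  intro n M _ H N B hH
  obtain ⟨hc, hC⟩ := DM.dCRV n N B
  obtain ⟨C, C0, hC⟩ := hC M H hH
  refine ⟨C, fun ι _ s hs => ?_⟩
  have hol : ∀ i, M.All fun e z => HolN (s i e) z := fun i e he z hz => (hs i).hol e he z hz trivial
  have inv : ∀ i, M.Inv fun e => uv N B (H e) (s i e) := fun i e he e' he' x hx hx' =>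
    DM.NRM.uv_eq _ _ _ _ _ _ _ _ _ ((mTR n M).2.1 e he e' he' x hx hx').2.1
      (hH.cmp e he e' he' x hx hx') ((hs i).law e he e' he' x hx hx' trivial)
  have k : ∀ i, M.All fun e z => _ := fun i e he z hz => hc (H e) (s i e) z
    ((hH.sm.ev he hz).and (hH.pos.ev he hz)) (hol i e he z hz)
  have r : M.Rep (fun y => ∑ i, nv H B (s i) y) fun e w => ∑ i, uv N B (H e) (s i e) w :=
    fun e he z hz => Finset.sum_congr rfl fun i _ => (inv i).rep e he z hz
  have c : M.All fun e z => ContDiffAt ℝ ∞ (fun w => ∑ i, uv N B (H e) (s i e) w) z :=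
    fun e he z hz => ContDiffAt.sum fun i _ => (k i e he z hz).1
  refine ⟨r.sm c, fun i y => ((k i).ch y).2.1, fun d hd e he z hz => ?_⟩
  have p0 : 0 < ∑ i, uv N B (H e) (s i e) z + d :=
    add_pos_of_nonneg_of_pos (Finset.sum_nonneg fun i _ => (k i e he z hz).2.1) hd.1
  have e1 : M.hs (fun y => Real.log (∑ i, nv H B (s i) y + d)) e z =
      hess (fun w => ((Real.log (∑ i, uv N B (H e) (s i e) w + d) : ℝ) : ℂ)) z :=
    hess_congr ((r.ev he hz).mono fun w hw => congrArg (fun t : ℝ => ((Real.log (t + d) : ℝ) : ℂ)) hw)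
  have hp := hH.pos e he z hz
  show (C • H e z + M.hs _ e z - 0).PosSemidef
  rw [sub_zero, e1]
  refine RAA.A4.psd_of ((Mf.herm_rsmul hp.1 C).add
    (hess_herm (((c e he z hz).add contDiffAt_const).log p0.ne'))) fun v => ?_
  have q0 : 0 ≤ C * nq (H e z) v := mul_nonneg C0.le (hp.posSemidef.re_dotProduct_nonneg v)
  rw [RAA.A4.nq_add, RAA.A4.nq_smul]
  refine q_log (c e he z hz) (q_sum (fun i => (k i e he z hz).1) fun i => ?_) q0 hd.1
  by_cases h0 : s i e z = 0
  · exact q_zero (k i e he z hz).1 ((k i e he z hz).2.2.1.2 h0)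
      (((k i).ev he hz).mono fun w hw => hw.2.1)
  · refine q_pos (k i e he z hz).1 ((k i e he z hz).2.1.lt_of_ne'
      fun h => h0 ((k i e he z hz).2.2.1.1 h)) ?_
    have t : 0 ≤ nq _ v := (hC e he z hz (s i e) (hol i e he z hz) h0).re_dotProduct_nonneg v
    rwa [RAA.A4.nq_add, RAA.A4.nq_smul] at t

end Pool.Agent.Lib.KT
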