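import Pool.Agent.Lib.KT.Blue

/-! Project kt, row PSI: the first base. -/

open scoped Classical Topology ContDiff ComplexOrder Matrix ENNReal
open Set MeasureTheory Complex Metric Filter

noncomputable section

namespace Pool.Agent.Lib.KT

open Pool.Agent.Lib.SV (E nsq)
open Pool.Agent.Lib.HS32
open Pool.Agent.Lib.KH (HoK OnK)

namespace PSI

variable {n : ℕ} {M : Mf n} {O : Set M.X}

theorem at_ch {p : M.Ch → E n → Prop} (h : OnK M O p) {y : M.X} (hy : y ∈ O) :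
    p (M.ch y) (M.ch y y) :=
  h _ (Mf.ch_mem y) _ (Mf.ch_tgt y) (by rwa [Mf.ch_symm])

theorem tq_nn {H : M.Fam (Mat n)} (hH : M.Met H) (d : ℕ) (ψ : M.Fam ℂ) (y : M.X) :
    0 ≤ Tq H d ψ y :=
  div_nonneg (normSq_nonneg _) (pow_nonneg (Mf.pd_det_re (hH.ev_pos y)).le _)

theorem quo_hol (hO : IsOpen O) {χ ψ : M.Fam ℂ} {j d : ℕ}
    (h1 : OnK M O fun e z => HolN (χ e) z) (h2 : OnK M O fun e z => HolN (ψ e) z ∧ ψ e z ≠ 0)
    (l1 : M.Ov fun e e' x => x ∈ O → (M.J e e' x).det ^ j * χ e (e x) = χ e' (e' x))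
    (l2 : M.Ov fun e e' x => x ∈ O → (M.J e e' x).det ^ d * ψ e (e x) = ψ e' (e' x)) :
    HoK M O fun y => M.ev χ y ^ d / M.ev ψ y ^ j := fun e he z hz k => by
  have e1 : ∀ᶠ w in 𝓝 z, w ∈ e.target ∧ e.symm w ∈ O :=
    (e.open_target.eventually_mem hz).and ((e.continuousAt_symm hz).eventually_mem (hO.mem_nhds k))
  have e2 : ∀ w, w ∈ e.target ∧ e.symm w ∈ O →
      M.ev χ (e.symm w) ^ d / M.ev ψ (e.symm w) ^ j = χ e w ^ d / ψ e w ^ j := fun w hw => by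
    have hx := e.map_target hw.1
    have a1 := l1 e he _ (Mf.ch_mem _) _ hx (Mf.mem_ch _) hw.2
    have a2 := l2 e he _ (Mf.ch_mem _) _ hx (Mf.mem_ch _) hw.2
    have a3 := ((mTR n M).2.1 e he _ (Mf.ch_mem _) _ hx (Mf.mem_ch _)).2.1
    rw [e.right_inv hw.1] at a1 a2
    rw [Mf.ev, Mf.ev, ← a1, ← a2, mul_pow, mul_pow, ← pow_mul, ← pow_mul, mul_comm d j,
      mul_div_mul_left _ _ (pow_ne_zero _ a3)]
  filter_upwards [e1.eventually_nhds] with w hw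
  have hw0 := hw.self_of_nhds
  have b1 := (h1 e he w hw0.1 hw0.2).self_of_nhds
  have b2 := h2 e he w hw0.1 hw0.2
  refine ((b1.fun_pow d).fun_mul ((b2.1.self_of_nhds.fun_pow j).fun_inv
    (pow_ne_zero _ b2.2))).congr_of_eventuallyEq ?_
  exact hw.mono fun v hv => (e2 v hv).trans (div_eq_mul_inv _ _)

theorem quo_norm {H : M.Fam (Mat n)} {χ ψ : M.Fam ℂ} {j d : ℕ} {y : M.X}
    (h : M.ev ψ y ≠ 0) :
    normSq (M.ev χ y ^ d / M.ev ψ y ^ j) * Tq H d ψ y ^ j = Tq H j χ y ^ d := by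
  have h' : normSq (M.ev ψ y) ^ j ≠ 0 := pow_ne_zero _ (normSq_pos.2 h).ne'
  change _ * (normSq (M.ev ψ y) / (M.ev H y).det.re ^ d) ^ j =
    (normSq (M.ev χ y) / (M.ev H y).det.re ^ j) ^ d
  rw [map_div₀, map_pow, map_pow, div_pow, div_pow, ← pow_mul, ← pow_mul, mul_comm d j,
    div_mul_div_cancel₀ h']

end PSI

theorem tPSI (hQUO : St_QUO) (hSCL : St_SCL) : St_PSI := by
  intro n M _ H N a s hH hP
  have ha : ∀ i, a 0 + (a i - a 0) = a i := fun i => Nat.add_sub_cancel' (hP.mono.monotone i.zero_le)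
  have hj : ∀ i, i ≤ a i - a 0 := fun i => by
    have := hP.mono.add_le_nat i 0
    rw [add_zero] at this
    omega
  obtain ⟨τ, hτ⟩ : ∃ τ : ℕ → Tn M, τ = fun i => Tn.mk N (a i) (s i) (hP.tw i) := ⟨_, rfl⟩
  have q : ∀ i, ∃ χ : M.Fam ℂ,
      (OnK M (τ 0).O fun e z => HolN (χ e) z ∧ (χ e z = 0 → e.symm z ∉ (τ i).O)) ∧
      (M.Ov fun e e' x => x ∈ (τ 0).O →
        (M.J e e' x).det ^ (a i - a 0) * χ e (e x) = χ e' (e' x)) ∧
      ∀ y ∈ (τ 0).O, (τ i).pn H y = Tq H (a i - a 0) χ y * (τ 0).pn H y := fun i => by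
    obtain ⟨χ, c1, c2, c3⟩ := hQUO n M H N (a 0) (a i - a 0) (s 0) (s i) (hP.tw 0) hH
      ((ha i).symm ▸ hP.tw i) (hP.pro 0 i)
    rw [ha i] at c3
    subst hτ
    refine ⟨χ, fun e he z hz k => ⟨(c1 e he z hz k).1, fun h0 hm => ?_⟩, c2, c3⟩
    refine (Tn.mem_O _ e he z hz).1 hm ?_
    exact (c1 e he z hz k).2.trans (by rw [h0, zero_smul])
  choose χ c1 c2 c3 using q
  have bd : ∀ i, ∃ C > (0 : ℝ), ∀ y, (τ i).pn H y ≤ C := fun i => (hSCL n M H (τ i) hH).1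
  choose C hC hC' using bd
  have nn : ∀ i y, 0 ≤ (τ i).pn H y := fun i => ((τ i).pn_rep hH).2.2.1
  obtain ⟨σ, ε, hε, s1, s2, s3, s4⟩ :=
    (hSCL n M H (((τ 0).mul (τ 1)).mul ((τ (N + 1)).pw (2 * N + 1))) hH).2.2
  rw [Tn.O_mul, Tn.O_mul] at s3
  have o0 : σ.O ⊆ (τ 0).O := fun y hy => (s3 ▸ hy).1.1
  have o1 : σ.O ⊆ (τ 1).O := fun y hy => (s3 ▸ hy).1.2
  have pσ : ∀ y, σ.pn H y =
      ε * ((τ 0).pn H y * (τ 1).pn H y * (τ (N + 1)).pn H y ^ (2 * N + 1)) := fun y => by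
    rw [(s4 y).1, Tn.pn_mul _ _ hH, Tn.pn_mul _ _ hH, Tn.pn_pw _ hH]
  have hψ : OnK M σ.O fun e z => HolN (χ 1 e) z ∧ χ 1 e z ≠ 0 := fun e he z hz k =>
    ⟨(c1 1 e he z hz (o0 k)).1, fun h => (c1 1 e he z hz (o0 k)).2 h (o1 k)⟩
  have hq : ∀ y, (τ (N + 1)).pn H y ^ (2 * N + 1) ≤ C (N + 1) ^ (2 * N + 1) := fun y =>
    pow_le_pow_left₀ (nn _ y) (hC' _ y) _
  refine ⟨⟨a 1 - a 0, χ 1, σ, a 1 - a 0, hj 1, hψ,
    fun e he e' he' x hx hx' k => c2 1 e he e' he' x hx hx' (o0 k), ?_, fun y => (s4 y).2,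
    ⟨ε * (C 0 * C 0 * C (N + 1) ^ (2 * N + 1)), fun y hy => ?_⟩, fun J => ⟨a J - a 0, hj J,
      fun y => M.ev (χ J) y ^ (a 1 - a 0) / M.ev (χ 1) y ^ (a J - a 0),
      ⟨PSI.quo_hol σ.isOpen_O (fun e he z hz k => (c1 J e he z hz (o0 k)).1) hψ
        (fun e he e' he' x hx hx' k => c2 J e he e' he' x hx hx' (o0 k))
        (fun e he e' he' x hx hx' k => c2 1 e he e' he' x hx hx' (o0 k)),
        (ε * (C J * C 1 * C (N + 1) ^ (2 * N + 1))) ^ (a 1 - a 0), fun y hy => ?_⟩, ?_⟩⟩,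
    fun y hy => ?_⟩
  · have k := (hSCL n M H (τ (N + 1)) hH).2.1 (2 * N + 1)
    have b1 := hj (N + 1)
    rw [s1, s2]
    change (τ 0).N + (τ 1).N + ((τ (N + 1)).pw (2 * N + 1)).N <
      (τ 0).B + (τ 1).B + ((τ (N + 1)).pw (2 * N + 1)).B
    rw [k.1, k.2, hτ]
    change N + N + (2 * N + 1) * N < a 0 + a 1 + (2 * N + 1) * a (N + 1)
    have b2 : (2 * N + 1) * (N + 1) ≤ (2 * N + 1) * a (N + 1) := Nat.mul_le_mul_left _ (by omega)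
    nlinarith
  · have t0 := PSI.tq_nn hH (a 1 - a 0) (χ 1) y
    have b1 : (τ 0).pn H y * (τ 0).pn H y * (τ (N + 1)).pn H y ^ (2 * N + 1) ≤
        C 0 * C 0 * C (N + 1) ^ (2 * N + 1) :=
      mul_le_mul (mul_le_mul (hC' 0 y) (hC' 0 y) (nn 0 y) (hC 0).le) (hq y)
        (pow_nonneg (nn _ y) _) (mul_pos (hC 0) (hC 0)).le
    have b2 := mul_le_mul_of_nonneg_right (mul_le_mul_of_nonneg_left b1 hε.le) t0
    rw [pσ, c3 1 y (o0 hy)]
    exact le_of_eq_of_le (by ring) b2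
  · have t0 := PSI.tq_nn hH (a J - a 0) (χ J) y
    have b1 : (τ J).pn H y * (τ 1).pn H y * (τ (N + 1)).pn H y ^ (2 * N + 1) ≤
        C J * C 1 * C (N + 1) ^ (2 * N + 1) :=
      mul_le_mul (mul_le_mul (hC' J y) (hC' 1 y) (nn 1 y) (hC J).le) (hq y)
        (pow_nonneg (nn _ y) _) (mul_pos (hC J) (hC 1)).le
    have b2 : Tq H (a J - a 0) (χ J) y * σ.pn H y ≤ ε * (C J * C 1 * C (N + 1) ^ (2 * N + 1)) := by
      refine le_of_eq_of_le ?_ (mul_le_mul_of_nonneg_left b1 hε.le)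
      rw [pσ, c3 J y (o0 hy)]
      ring
    rw [← mul_assoc, PSI.quo_norm (PSI.at_ch hψ hy).2, ← mul_pow]
    exact pow_le_pow_left₀ (mul_nonneg t0 ((σ.pn_rep hH).2.2.1 y)) b2 _
  · obtain ⟨y, h1, h2⟩ := (τ J).dense_O.inter_open_nonempty _ σ.isOpen_O σ.dense_O.nonempty
    refine ⟨y, h1, div_ne_zero (pow_ne_zero _ fun h => ?_) (pow_ne_zero _ (PSI.at_ch hψ h1).2)⟩
    exact (PSI.at_ch (c1 J) (o0 h1)).2 h (by rwa [Mf.ch_symm])
  · have h := o0 hy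
    rw [hτ] at h
    exact h

end Pool.Agent.Lib.KT
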