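import Pool.Agent.Lib.KT.Blue

/-! Project kt, row QUO: the quotient of two proportional tensors. -/

open scoped Classical Topology ContDiff ComplexOrder Matrix ENNReal
open Set MeasureTheory Complex Metric Filter

set_option linter.unusedVariables false

noncomputable section

namespace Pool.Agent.Lib.KT

open Pool.Agent.Lib.SV (E nsq)
open Pool.Agent.Lib.HS32
open Pool.Agent.Lib.RAA (kp)
open Pool.Agent.Lib.DM (uv)
open Pool.Agent.Lib.KH (OnK)

namespace QUO

variable {ι : Type}

/-- The quotient of two vectors. -/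
def qu (s t : ι → ℂ) : ℂ := if h : ∃ I, s I ≠ 0 then t h.choose / s h.choose else 0

theorem qu_eq {s t : ι → ℂ} (h : ∀ I I', s I * t I' = s I' * t I) {I : ι} (hI : s I ≠ 0) :
    qu s t = t I / s I := by
  have e : ∃ I, s I ≠ 0 := ⟨I, hI⟩
  rw [qu, dif_pos e, div_eq_div_iff e.choose_spec hI, mul_comm, h, mul_comm]

theorem qu_smul {s t : ι → ℂ} (h : ∀ I I', s I * t I' = s I' * t I) (h0 : s ≠ 0) :
    t = qu s t • s := funext fun I' => by
  obtain ⟨I, hI⟩ := Function.ne_iff.1 h0
  rw [qu_eq h hI, Pi.smul_apply, smul_eq_mul, div_mul_eq_mul_div, eq_div_iff hI, mul_comm, h,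
    mul_comm]

end QUO

theorem tQUO : St_QUO := by
  intro n M _ H N a j s t hs hH ht h
  have k : OnK M (Tn.mk N a s hs).O fun e z => t e z = QUO.qu (s e z) (t e z) • s e z :=
    fun e he z hz hx => QUO.qu_smul (h e he z hz) (((Tn.mk N a s hs).mem_O e he z hz).1 hx)
  refine ⟨fun e z => QUO.qu (s e z) (t e z), fun e he z hz hx => ⟨?_, k e he z hz hx⟩,
    fun e he e' he' x hx hx' h0 => ?_, fun y hy => ?_⟩
  · obtain ⟨I, hI⟩ := Function.ne_iff.1 (((Tn.mk N a s hs).mem_O e he z hz).1 hx)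
    have h1 := hs.hol e he z hz I
    have h2 := h1.self_of_nhds.continuousAt.eventually_ne hI
    filter_upwards [h1, ht.hol e he z hz I, h2, (h2.and (h.ev he hz)).eventually_nhds]
      with w a1 a2 a3 a4
    exact ((a2.mul (a1.inv a3)).congr_of_eventuallyEq
      (a4.mono fun v hv => (QUO.qu_eq hv.2 hv.1).trans (div_eq_mul_inv _ _)))
  · have m : ∀ e ∈ M.C, x ∈ e.source → e.symm (e x) ∈ (Tn.mk N a s hs).O :=
      fun e _ hx => by rwa [e.left_inv hx]
    have l1 := (Tn.mk N a s hs).law e he e' he' x hx hx'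
    have l2 := (Tn.mk N (a + j) t ht).law e he e' he' x hx hx'
    have k1 := k e he _ (e.map_source hx) (m e he hx)
    have k2 := k e' he' _ (e'.map_source hx') (m e' he' hx')
    have s0 := ((Tn.mk N a s hs).mem_O e he _ (e.map_source hx)).1 (m e he hx)
    dsimp only at l1 l2 k1 k2 s0 ⊢
    rw [k1, k2, Matrix.mulVec_smul, ← l1, smul_smul, smul_smul, pow_add] at l2
    refine mul_left_cancel₀ (pow_ne_zero a ((mTR n M).2.1 e he e' he' x hx hx').2.1) ?_
    rw [← mul_assoc, smul_left_injective ℂ s0 l2, mul_comm]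
  · have k1 := k _ (Mf.ch_mem y) _ (Mf.ch_tgt y) (by rwa [Mf.ch_symm])
    simp only [nv, Tq, Mf.ev, uv]
    rw [div_mul_div_comm, ← DM.NRM.hq_smul, ← k1, ← pow_add, add_comm]

end Pool.Agent.Lib.KT
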