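import Pool.Agent.Lib.KT.Top

/-! Project kt, row RAT: generators of the field, read on functions. -/

open Set

noncomputable section

namespace Pool.Agent.Lib.KT

open MvPolynomial (aeval eval)

theorem tRAT : St_RAT := by
  intro n M H A F _ _ ev b G R fn τ h m htop c g hg
  obtain ⟨f, hf⟩ := m.sur 0 c g hg
  have val : ∀ (P : MvPolynomial τ ℂ) y, fn (aeval h P) y = eval (fun i => fn (h i) y) P :=
    fun P y => (MvPolynomial.comp_aeval_apply h ((Pi.evalAlgHom ℂ _ y).comp fn) P).trans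
      (congrFun (MvPolynomial.aeval_eq_eval _) P)
  have key : ∀ P Q : MvPolynomial τ ℂ, aeval h Q ≠ 0 → aeval h Q * f = aeval h P →
      (∃ y ∈ b.O, eval (fun i => fn (h i) y) Q ≠ 0) ∧ ∀ y ∈ b.O,
        eval (fun i => fn (h i) y) Q * g y = eval (fun i => fn (h i) y) P := fun P Q h0 e => by
    refine ⟨by_contra fun k => h0 (m.inj _ fun y hy => by_contra fun k' =>
      k ⟨y, hy, by rwa [← val]⟩), fun y hy => ?_⟩
    rw [← val, ← val, ← hf y hy, ← e, map_mul, Pi.mul_apply]
  obtain ⟨P, Q, e⟩ := (IntermediateField.mem_adjoin_range_iff ℂ (fun i => (h i : F)) f).1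
    (htop ▸ IntermediateField.mem_top)
  have co : ∀ P : MvPolynomial τ ℂ, ((aeval h P : R) : F) = aeval (fun i => (h i : F)) P :=
    fun P => MvPolynomial.comp_aeval_apply h R.val P
  by_cases h0 : aeval (fun i => (h i : F)) Q = 0
  · rw [h0, div_zero] at e
    exact ⟨0, 1, key 0 1 (by rw [map_one]; exact one_ne_zero)
      (by rw [map_one, map_zero, one_mul]; exact Subtype.ext e)⟩
  · refine ⟨P, Q, key P Q (fun k => h0 (by rw [← co, k]; rfl)) (Subtype.ext ?_)⟩
    rw [MulMemClass.coe_mul, co, co, e, mul_div_cancel₀ _ h0]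

end Pool.Agent.Lib.KT
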