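import Pool.Agent.Lib.KT.Blue

/-! Project kt, row RIE: bounded holomorphic functions extend across the zeros of a tensor. -/

open scoped Classical Topology ContDiff ComplexOrder Matrix ENNReal
open Set MeasureTheory Complex Metric Filter

noncomputable section

namespace Pool.Agent.Lib.KT

open Pool.Agent.Lib.SV (E nsq)
open Pool.Agent.Lib.HS32
open Pool.Agent.Lib.KH (HoK SmK OnK)

namespace RIE

variable {n : ℕ} {M : Mf n}

theorem opn (e : M.Ch) {O : Set M.X} (hO : IsOpen O) : IsOpen (e.target ∩ e.symm ⁻¹' O) :=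
  e.continuousOn_symm.isOpen_inter_preimage e.open_target hO

theorem chart (hEXL : St_EXL) [M.Cpt] {O : Set M.X} (ρ : Tn M) {w : M.X → ℝ} {f : M.X → ℂ}
    (hO : IsOpen O) (hw : ContinuousOn w O) (h0 : ∀ y ∈ O, 0 < w y) (hf : Bd (O ∩ ρ.O) w f)
    (e : M.Ch) (he : e ∈ M.C) : ∃ g, DifferentiableOn ℂ g (e.target ∩ e.symm ⁻¹' O) ∧
      EqOn g (f ∘ e.symm) (e.target ∩ e.symm ⁻¹' (O ∩ ρ.O)) := by
  obtain ⟨h1, C, hC⟩ := hf
  refine hEXL n _ _ _ (opn e hO) (opn e (hO.inter ρ.isOpen_O)) (fun z hz => ⟨hz.1, hz.2.1⟩)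
    (fun z hz => (h1 e he z hz.1 hz.2).self_of_nhds.differentiableWithinAt) fun z hz => ?_
  obtain ⟨i, hi⟩ := ρ.freq e he z hz.1
  have hU := (opn e hO).mem_nhds hz
  refine ⟨fun v => ρ.s e v i, ρ.tw.hol e he z hz.1 i, hi, ?_, ?_⟩
  · filter_upwards [hU] with v hv hj
    exact ⟨hv.1, hv.2, (ρ.mem_O e he v hv.1).2 fun h => hj (congrFun h i)⟩
  · have hp := h0 _ hz.2
    have hc : ContinuousAt (fun v => w (e.symm v)) z :=
      (hw.continuousAt (hO.mem_nhds hz.2)).comp (e.continuousAt_symm hz.1)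
    have hl : ∀ᶠ v in 𝓝 z, w (e.symm z) / 2 < w (e.symm v) :=
      hc.eventually (lt_mem_nhds (half_lt_self hp))
    obtain ⟨V, hV, hV1, hV2⟩ := _root_.mem_nhds_iff.1 (inter_mem hl (ball_mem_nhds z one_pos))
    refine ⟨V, hV1.mem_nhds hV2, ne_top_of_le_ne_top ?_
      (setLIntegral_mono' (g := fun _ => ENNReal.ofReal (C / (w (e.symm z) / 2))) ?_ ?_)⟩
    · rw [setLIntegral_const]
      exact ENNReal.mul_ne_top ENNReal.ofReal_ne_top (ne_top_of_le_ne_top measure_ball_lt_top.ne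
        (measure_mono fun v hv => (hV hv.1).2))
    · exact (hV1.inter (opn e (hO.inter ρ.isOpen_O))).measurableSet
    · intro v hv
      refine ENNReal.ofReal_le_ofReal ((le_div_iff₀ (half_pos hp)).2 (le_trans ?_ (hC _ hv.2.2)))
      rw [Complex.normSq_eq_norm_sq]
      exact mul_le_mul_of_nonneg_left (le_of_lt (hV hv.1).1) (sq_nonneg _)

end RIE

theorem tRIE (hEXL : St_EXL) : St_RIE := by
  intro n M _ O ρ w f hO hw h0 hf
  choose! G hG1 hG2 using RIE.chart hEXL ρ hO hw h0 hf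
  have hfr : ∀ x, ∃ᶠ y in 𝓝 x, y ∈ ρ.O := fun x => mem_closure_iff_frequently.1 (ρ.dense_O x)
  have hm : ∀ (e : M.Ch) (S : Set M.X), ∀ x ∈ e.source, x ∈ S → e x ∈ e.target ∩ e.symm ⁻¹' S :=
    fun e S x hx hS => ⟨e.map_source hx, by rwa [mem_preimage, e.left_inv hx]⟩
  have hc : ∀ e ∈ M.C, ∀ x ∈ e.source, x ∈ O → ContinuousAt (fun y => G e (e y)) x :=
    fun e he x hx hx' => ((hG1 e he).differentiableAt ((RIE.opn e hO).mem_nhds
      (hm e O x hx hx'))).continuousAt.comp (e.continuousAt hx)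
  have hq : ∀ e ∈ M.C, ∀ x ∈ e.source, x ∈ O → ∀ᶠ y in 𝓝 x, y ∈ ρ.O →
      y ∈ O ∧ G e (e y) = f y := fun e he x hx hx' => by
    filter_upwards [e.open_source.mem_nhds hx, hO.mem_nhds hx'] with y h1 h2 h3
    exact ⟨h2, (hG2 e he (hm e _ y h1 ⟨h2, h3⟩)).trans (congrArg f (e.left_inv h1))⟩
  have hr : ∀ e ∈ M.C, ∀ z ∈ e.target ∩ e.symm ⁻¹' O, M.ev G (e.symm z) = G e z := by
    intro e he z hz
    obtain ⟨c1, c2⟩ := (mTR n M).1 (e.symm z)
    have hx := e.map_target hz.1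
    have := tendsto_nhds_unique_of_frequently_eq (hc _ c1 _ c2 hz.2) (hc e he _ hx hz.2)
      (((hfr _).and_eventually ((hq _ c1 _ c2 hz.2).and (hq e he _ hx hz.2))).mono
        fun y hy => (hy.2.1 hy.1).2.trans (hy.2.2 hy.1).2.symm)
    exact this.trans (congrArg (G e) (e.right_inv hz.1))
  obtain ⟨-, C, hC⟩ := hf
  refine ⟨M.ev G, ⟨fun e he z hz hz' => ?_, C, fun x hx => ?_⟩, fun y hy => ?_⟩
  · filter_upwards [(RIE.opn e hO).mem_nhds ⟨hz, hz'⟩] with v hv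
    have hV := (RIE.opn e hO).mem_nhds hv
    exact ((hG1 e he).differentiableAt hV).congr_of_eventuallyEq
      (eventually_of_mem hV fun u hu => hr e he u hu)
  · obtain ⟨c1, c2⟩ := (mTR n M).1 x
    refine isClosed_Iic.mem_of_frequently_of_tendsto
      (((hfr x).and_eventually (hq _ c1 x c2 hx)).mono fun y hy => ?_)
      ((continuous_normSq.continuousAt.comp (hc _ c1 x c2 hx)).mul
        (hw.continuousAt (hO.mem_nhds hx)))
    show normSq (G _ _) * w y ≤ C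
    rw [(hy.2 hy.1).2]
    exact hC y ⟨(hy.2 hy.1).1, hy.1⟩
  · obtain ⟨c1, c2⟩ := (mTR n M).1 y
    exact ((hq _ c1 y c2 hy.1).self_of_nhds hy.2).2

end Pool.Agent.Lib.KT
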