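import Pool.Agent.Lib.KT.Blue
import Pool.Agent.Lib.SIE.Main

/-! Project kt, rows RK: algebraic independence is independence of the differentials. -/

open scoped Classical Topology
open Set Filter

noncomputable section

namespace Pool.Agent.Lib.KT

open Pool.Agent.Lib.SV (E)
open Pool.Agent.Lib.HS32 Pool.Agent.Lib.SIE
open Pool.Agent.Lib.KH (HoK)

namespace RK

variable {n k : ℕ} {M : Mf n} {H : M.Fam (Mat n)} {A : Subalgebra ℂ (M.X → ℂ)} {F : Type}
  [Field F] [Algebra ℂ F] {ev : A →ₐ[ℂ] F}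

theorem cont {O : Set M.X} {f : M.X → ℂ} (h : HoK M O f) {x : M.X} (hx : x ∈ O) :
    ContinuousAt f x := by
  obtain ⟨e, he, hs⟩ := M.cov x
  have := (h e he _ (e.map_source hs) (by rwa [e.left_inv hs])).self_of_nhds.continuousAt.comp
    (e.continuousAt hs)
  exact this.congr ((e.open_source.eventually_mem hs).mono fun y hy => by
    simp only [Function.comp, e.left_inv hy])

/-- The value at a point. -/
def pt (A : Subalgebra ℂ (M.X → ℂ)) (x : M.X) : A →ₐ[ℂ] ℂ := (Pi.evalAlgHom ℂ _ x).comp A.val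

theorem pt_aeval {ι : Type} (z : ι → A) (x : M.X) (Q : MvPolynomial ι ℂ) :
    (MvPolynomial.aeval z Q).1 x = MvPolynomial.eval (fun i => (z i).1 x) Q :=
  (MvPolynomial.comp_aeval_apply z (pt A x) Q).trans
    (congrFun (MvPolynomial.aeval_eq_eval fun i => (z i).1 x) Q)

variable [M.Cpt]

theorem com (hF : Fm H A ev) (z : Fin k → A) :
    ∃ τ : Tn M, ∀ x ∈ τ.O, ∀ i, ContinuousAt (z i).1 x := by
  induction k with
  | zero => exact ⟨Tn.one, fun _ _ i => i.elim0⟩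
  | succ k ih =>
    obtain ⟨τ, h⟩ := ih fun i => z i.succ
    obtain ⟨σ, s⟩ := (hF.mem _).1 (z 0).2
    exact ⟨σ.mul τ, fun x hx => Fin.cases (cont s.1 (Tn.O_mul σ τ ▸ hx).1)
      (h x (Tn.O_mul σ τ ▸ hx).2)⟩

theorem ind (hF : Fm H A ev) {z : Fin k → A} {x : M.X} (h : Rk M (fun i => (z i).1) x) :
    AlgebraicIndependent ℂ fun i => ev (z i) := algebraicIndependent_iff.2 fun Q hQ => by
  obtain ⟨τ, hτ⟩ := (hF.ker _).1 ((MvPolynomial.comp_aeval_apply z ev Q).trans hQ)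
  exact SIE.ind h ((mem_closure_iff_frequently.1 (τ.dense_O x)).mono fun y hy =>
    (τ.isOpen_O.eventually_mem hy).mono fun u hu => (pt_aeval z u Q).symm.trans (hτ u hu))

theorem rel (hF : Fm H A ev) (z : Fin k → A) (f : A) {P : Polynomial (MvPolynomial (Fin k) ℂ)}
    (h : ∀ x, (∀ j, ContinuousAt (z j).1 x) → ContinuousAt f.1 x →
      P.eval₂ (MvPolynomial.eval fun j => (z j).1 x) (f.1 x) = 0) :
    P.eval₂ (MvPolynomial.aeval fun i => ev (z i) : _ →ₐ[ℂ] F).toRingHom (ev f) = 0 := by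
  obtain ⟨τ, hτ⟩ := com hF (Fin.cons f z)
  have k1 := (hF.ker (P.eval₂ (MvPolynomial.aeval z : _ →ₐ[ℂ] A).toRingHom f)).2 ⟨τ, fun x hx => by
    refine (P.hom_eval₂ _ (pt A x).toRingHom f).trans (Eq.trans ?_
      (h x (fun j => hτ x hx j.succ) (hτ x hx 0)))
    exact congrArg (P.eval₂ · _) (RingHom.ext fun Q => pt_aeval z x Q)⟩
  refine Eq.trans ?_ ((P.hom_eval₂ _ ev.toRingHom f).symm.trans k1)
  exact congrArg (P.eval₂ · _) (RingHom.ext fun Q => (MvPolynomial.comp_aeval_apply z ev Q).symm)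

theorem mr (hNUM : St_NUM) (hH : M.Met H) (hF : Fm H A ev) (f : A) : Mr M f.1 := by
  obtain ⟨τ, h⟩ := (hF.mem _).1 f.2
  exact (hNUM n M H τ _ hH h).1

theorem rk (hNUM : St_NUM) (hH : M.Met H) (hF : Fm H A ev) {z : Fin k → A}
    (h : AlgebraicIndependent ℂ fun i => ev (z i)) : ∃ x, Rk M (fun i => (z i).1) x := by
  induction k with
  | zero => exact ⟨Classical.arbitrary _, fun e _ _ =>
      ⟨Eventually.of_forall fun _ => differentiableAt_pi.2 fun j => j.elim0,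
        fun y => ⟨0, Subsingleton.elim _ _⟩⟩⟩
  | succ k ih =>
    obtain ⟨N, hN⟩ := SIE.main (fun j => mr hNUM hH hF (z j.succ))
      (ih (h.comp _ (Fin.succ_injective k)))
    by_contra l
    obtain ⟨P, P0, -, P1⟩ := hN _ (mr hNUM hH hF (z 0)) fun x hx => l ⟨x, by
      rwa [← Fin.cons_self_tail fun i => (z i).1]⟩
    obtain ⟨Q, rfl⟩ := (MvPolynomial.finSuccEquiv ℂ k).surjective P
    obtain ⟨τ, hτ⟩ := com hF z
    refine P0 ((map_eq_zero_iff _ (AlgEquiv.injective _)).2 (algebraicIndependent_iff.1 h Q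
      ((MvPolynomial.comp_aeval_apply z ev Q).symm.trans ((hF.ker _).2 ⟨τ, fun x hx => ?_⟩))))
    rw [pt_aeval, ← Fin.cons_self_tail fun i => (z i).1 x, MvPolynomial.eval_eq_eval_mv_eval',
      Polynomial.eval_map]
    exact P1 x (fun j => hτ x hx _) (hτ x hx 0)

end RK

open RK in
theorem tRK (hNUM : St_NUM) : St_RK := by
  intro n M _ H A F _ _ ev k z hH hF
  refine ⟨⟨rk hNUM hH hF, fun ⟨_, h⟩ => ind hF h⟩, fun hb f => ?_⟩
  have mx : ∀ x, ¬Rk M (Fin.cons f.1 fun i => (z i).1) x := fun x hx => by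
    have := (ind hF (z := Fin.cons f z) (x := x) (by
      rwa [show (fun i => (Fin.cons (α := fun _ => A) f z i).1) = Fin.cons f.1 fun i => (z i).1 from
        funext fun i => Fin.cases rfl (fun _ => rfl) i])).cardinalMk_le_trdeg
    rw [← hb.cardinalMk_eq_trdeg, Cardinal.mk_fin, Cardinal.mk_fin, Nat.cast_le] at this
    omega
  obtain ⟨N, hN⟩ := SIE.main (fun j => mr hNUM hH hF (z j)) (rk hNUM hH hF hb.1)
  obtain ⟨P, P0, -, P1⟩ := hN _ (mr hNUM hH hF f) mx
  exact ⟨mx, fun O _ h1 h2 => ⟨P, P0, fun x hx => P1 x (fun j => cont (h2 j) hx) (cont h1 hx)⟩⟩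

end Pool.Agent.Lib.KT
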