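import Pool.Agent.Lib.KT.Blue

/-! Project kt: small multiples of a tensor. -/

open scoped Classical Topology ContDiff ComplexOrder Matrix ENNReal
open Set MeasureTheory Complex Metric Filter

noncomputable section

namespace Pool.Agent.Lib.KT

open Pool.Agent.Lib.SV (E)
open Pool.Agent.Lib.HS32
open Pool.Agent.Lib.RAA (hq kp)

namespace SCL

variable {n : ℕ} {M : Mf n}

/-- A multiple. -/
def sc (τ : Tn M) (r : ℂ) (hr : r ≠ 0) : Tn M where
  N := τ.N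
  B := τ.B
  s e z := r • τ.s e z
  tw := ⟨fun e he z hz K => (τ.tw.hol e he z hz K).mono fun _ h => h.const_mul r, by
    obtain ⟨e, he, z, hz, h⟩ := τ.tw.nz
    exact ⟨e, he, z, hz, smul_ne_zero hr h⟩,
    fun e he e' he' x hx hx' => by
      beta_reduce
      rw [τ.tw.cmp e he e' he' x hx hx', Matrix.mulVec_smul, smul_comm]⟩

theorem pn_sc (τ : Tn M) (r : ℝ) (hr : (r : ℂ) ≠ 0) (H : M.Fam (Mat n)) (y : M.X) :
    (sc τ r hr).pn H y = r ^ 2 * τ.pn H y := by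
  show hq (kp τ.N (M.ev H y)) ((r : ℂ) • M.ev τ.s y) / _ =
    r ^ 2 * (hq (kp τ.N (M.ev H y)) (M.ev τ.s y) / _)
  rw [← mul_div_assoc]
  refine congrArg (· / _) ?_
  simp only [hq, star_smul, Matrix.mulVec_smul, smul_dotProduct, dotProduct_smul, smul_eq_mul,
    RCLike.star_def, conj_ofReal, re_ofReal_mul]
  ring

end SCL

theorem tSCL : St_SCL := by
  intro n M _ H τ hH
  obtain ⟨C, C0, hC⟩ : ∃ C > (0 : ℝ), ∀ y, τ.pn H y ≤ C := by
    obtain ⟨C, C0, hC⟩ := (τ.pn_rep hH).2.1.exists_bound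
    exact ⟨C, C0, fun y => (le_abs_self _).trans (hC y)⟩
  refine ⟨⟨C, C0, hC⟩, fun k => ?_, ?_⟩
  · induction k with
    | zero => exact ⟨(zero_mul _).symm, (zero_mul _).symm⟩
    | succ k ih => exact ⟨(congrArg (· + τ.N) ih.1).trans (Nat.succ_mul _ _).symm,
        (congrArg (· + τ.B) ih.2).trans (Nat.succ_mul _ _).symm⟩
  have r0 : ((√C⁻¹ : ℝ) : ℂ) ≠ 0 := ofReal_ne_zero.2 (Real.sqrt_pos.2 (inv_pos.2 C0)).ne'
  refine ⟨SCL.sc τ _ r0, C⁻¹, inv_pos.2 C0, rfl, rfl, Set.ext fun y => smul_ne_zero_iff.trans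
    (and_iff_right r0), fun y => ?_⟩
  rw [SCL.pn_sc, Real.sq_sqrt (inv_pos.2 C0).le]
  exact ⟨rfl, (inv_mul_le_one₀ C0).2 (hC y)⟩

end Pool.Agent.Lib.KT
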