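import Pool.Agent.Lib.KT.B_RK
import Pool.Agent.Lib.SG45.Alg

/-! Project kt, row SIW: the field is finitely generated. -/

open scoped Classical Topology
open Set Filter

noncomputable section

namespace Pool.Agent.Lib.KT

open Pool.Agent.Lib.HS32 Pool.Agent.Lib.SIE MvPolynomial

theorem tSIW (hNUM : St_NUM) : St_SIW := by
  intro n M _ H A F _ _ ev hH hF
  obtain ⟨k, N, z, -, z1, z2, z3⟩ := SIE.fam (S := A) fun f hf => RK.mr hNUM hH hF ⟨f, hf⟩
  lift z to Fin k → A using z1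
  obtain ⟨x, hx⟩ := z2.nonempty
  have hi := RK.ind hF hx
  have al : ∀ u : F, ∃ p : Polynomial (MvPolynomial (Fin k) ℂ), p ≠ 0 ∧ p.natDegree ≤ N ∧
      p.eval₂ (aeval fun i => ev (z i) : _ →ₐ[ℂ] F).toRingHom u = 0 := fun u => by
    obtain ⟨f, rfl⟩ := hF.sur u
    obtain ⟨P, P0, P1, P2⟩ := (z3 f f.2).2
    exact ⟨P, P0, P1, RK.rel hF z f P2⟩
  obtain ⟨th, m, _, _, _, -, -, -, -, -, -, h⟩ := SG45.alg hi al
  obtain ⟨θ, rfl⟩ := hF.sur th
  have gen : ∀ f : F, ∃ P Q : MvPolynomial (Option (Fin k)) ℂ,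
      aeval (fun o => ev (o.elim θ z)) Q ≠ 0 ∧
        aeval (fun o => ev (o.elim θ z)) Q * f = aeval (fun o => ev (o.elim θ z)) P := fun f => by
    obtain ⟨q, r, q0, -, e⟩ := h f
    have a : ∀ q : MvPolynomial (Fin k) ℂ, aeval (fun o => ev (Option.elim o θ z))
        (rename some q) = aeval (fun i => ev (z i)) q := fun q => aeval_rename _ _ _
    refine ⟨r.eval₂ (rename some : _ →ₐ[ℂ] _).toRingHom (X none), rename some q, ?_, ?_⟩
    · rw [a]
      exact fun l => q0 (algebraicIndependent_iff.1 hi q l)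
    · rw [a, e]
      refine Eq.trans ?_ (r.hom_eval₂ _ (aeval fun o => ev (Option.elim o θ z) :
        _ →ₐ[ℂ] F).toRingHom _).symm
      exact congrArg₂ r.eval₂ (RingHom.ext fun q => (a q).symm)
        (aeval_X (fun o => ev (Option.elim o θ z)) none).symm
  refine ⟨(Algebra.essFiniteType_iff _ _).2 ⟨Finset.univ.image fun o => ev (Option.elim o θ z),
    fun f => ?_⟩, k, z, θ, hi.isTranscendenceBasis_iff_isAlgebraic.2 ⟨fun u => ?_⟩, gen⟩
  · obtain ⟨P, Q, h1, h2⟩ := gen f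
    rw [Finset.coe_image, Finset.coe_univ, image_univ, Algebra.adjoin_range_eq_range_aeval]
    exact ⟨_, ⟨Q, rfl⟩, h1.isUnit, P, h2.symm.trans (mul_comm _ _)⟩
  · obtain ⟨p, p0, -, p1⟩ := al u
    refine ⟨p.map hi.aevalEquiv.toRingEquiv.toRingHom, (Polynomial.map_ne_zero_iff
      hi.aevalEquiv.injective).2 p0, ?_⟩
    rw [Polynomial.aeval_def, Polynomial.eval₂_map]
    exact (congrArg (p.eval₂ · u) (RingHom.ext fun q => hi.algebraMap_aevalEquiv q)).trans p1

end Pool.Agent.Lib.KT
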