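import Pool.Agent.Lib.KT.Top
import Pool.Agent.Lib.KC.Blue

/-! Row ST1: the first stage. -/

open Set

namespace Pool.Agent.Lib.KT

open Pool.Agent.Lib.HS32

theorem tST1 (hFLD : St_FLD) (hSIW : St_SIW) (hRK : St_RK) (hREF : St_REF) (hWED : St_WED)
    (hBS : St_BS) (hAIC : St_AIC) (hSYS : St_SYS) (hDRV : St_DRV) (hDCO : St_DCO) (hTEN : St_TEN)
    (hGEN : KC.St_GEN) (hDER : KBE.St_DER) : St_ST1 := by
  intro n M _ H b₀ hK
  have hH := hK.toMet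
  obtain ⟨A, F, _, _, ev, hF⟩ := hFLD n M H hH
  obtain ⟨s1, k, z, θ, s2, s3⟩ := hSIW n M H A F ev hH hF
  obtain ⟨r1, r2⟩ := hRK n M H A F ev k z hH hF
  obtain ⟨τ, hτ⟩ := (hF.mem _).1 θ.2
  obtain ⟨b₁, m₁, a1, -, a3, -⟩ := hREF n M H b₀ τ hH
  obtain ⟨ρ, w1, w2⟩ := hWED n M H k _ hH (fun i => (hF.mem _).1 (z i).2) (r1.1 s2.1)
  obtain ⟨b, m, c1, c2, c3, c4⟩ := hREF n M H b₁ ρ hH
  have iv := c4 k _ w2
  have mx := fun f => (r2 s2 f).1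
  have ok := hBS n M H b hK
  have hz := fun i => c3 _ (w1 i)
  obtain ⟨G, g1, g2, g3⟩ := hSYS n M H A F ev b hH hF
  have sy := g2 _ (hGEN n M (b.bs ok) k b.c _ hz (hAIC n M H b ok k _ iv.1 fun c g hg =>
    (r2 s2 ⟨g, (hF.mem g).2 ((hTEN n M H b 0 c g hH).2 hg).1⟩).2 _ ok.opn hg.1 fun i => (hz i).1))
  have fr := g3 _ (fun o : Option (Fin k) => o.elim θ z)
    (fun o => by cases o; exacts [c2 _ _ _ (a3 _ hτ), hz _]) s3
  obtain ⟨D, d1, d2⟩ := hDRV n M H A F ev k z ρ hH hF w2 mx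
  exact ⟨A, F, _, _, ev, b, G, _, hF, s1, (c1.2.2.2.1.le.trans inter_subset_left).trans
    (a1.2.2.2.1.le.trans inter_subset_left), g1, sy, fr,
    hDER F G _ k _ D 1 sy fr s2 d1 (hDCO n M H A F ev b G k z D hH hF g1 iv mx d2)⟩

end Pool.Agent.Lib.KT
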