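import Pool.Agent.Lib.KT.Blue

/-! Project kt, row SYS. -/

open scoped Classical Topology ContDiff ComplexOrder Matrix ENNReal
open Set MeasureTheory Complex Metric Filter

set_option linter.unusedVariables false

noncomputable section

namespace Pool.Agent.Lib.KT

open Pool.Agent.Lib.HS32
open Pool.Agent.Lib.KH (HoK)

namespace SYS

variable {n : ℕ} {M : Mf n} {O : Set M.X} {w w' : M.X → ℝ} {f g : M.X → ℂ}

theorem hok_const (c : ℂ) : HoK M O fun _ => c := fun _ _ _ _ _ =>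
  Eventually.of_forall fun _ => differentiableAt_const c

theorem bd_const (c : ℂ) (h : ∀ y ∈ O, w y ≤ 1) : Bd O w fun _ => c :=
  ⟨hok_const c, normSq c, fun y hy => mul_le_of_le_one_right (normSq_nonneg c) (h y hy)⟩

theorem bd_zero : Bd O w 0 := ⟨hok_const 0, 0, fun y _ => by simp⟩

theorem bd_mono (h : Bd O w f) (hw : ∀ y ∈ O, w' y ≤ w y) : Bd O w' f :=
  ⟨h.1, h.2.imp fun _ hC y hy =>
    (mul_le_mul_of_nonneg_left (hw y hy) (normSq_nonneg _)).trans (hC y hy)⟩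

theorem bd_add (h : Bd O w f) (h' : Bd O w g) (hw : ∀ y ∈ O, 0 ≤ w y) : Bd O w (f + g) := by
  obtain ⟨C, hC⟩ := h.2
  obtain ⟨C', hC'⟩ := h'.2
  refine ⟨fun e he z hz ho => ((h.1 e he z hz ho).and (h'.1 e he z hz ho)).mono
    fun _ k => k.1.add k.2, 2 * (C + C'), fun y hy => ?_⟩
  have a : normSq (f y + g y) ≤ 2 * (normSq (f y) + normSq (g y)) := by
    simp only [normSq_apply, add_re, add_im]
    nlinarith [sq_nonneg ((f y).re - (g y).re), sq_nonneg ((f y).im - (g y).im)]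
  have b := mul_le_mul_of_nonneg_right a (hw y hy)
  rw [Pi.add_apply]
  linarith [hC y hy, hC' y hy]

theorem bd_mul (h : Bd O w f) (h' : Bd O w' g) (hw : ∀ y ∈ O, 0 ≤ w y) (hw' : ∀ y ∈ O, 0 ≤ w' y) :
    Bd O (fun y => w y * w' y) (f * g) := by
  obtain ⟨C, hC⟩ := h.2
  obtain ⟨C', hC'⟩ := h'.2
  refine ⟨fun e he z hz ho => ((h.1 e he z hz ho).and (h'.1 e he z hz ho)).mono
    fun _ k => k.1.mul k.2, C * C', fun y hy => ?_⟩
  have a := mul_nonneg (normSq_nonneg (f y)) (hw y hy)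
  rw [Pi.mul_apply, map_mul, mul_mul_mul_comm]
  exact mul_le_mul (hC y hy) (hC' y hy) (mul_nonneg (normSq_nonneg _) (hw' y hy))
    (a.trans (hC y hy))

theorem bd_smul (c : ℂ) (h : Bd O w f) (hw : ∀ y ∈ O, 0 ≤ w y) : Bd O w (c • f) :=
  bd_mono (bd_mul (bd_const (w := fun _ => 1) c fun _ _ => le_rfl) h (fun _ _ => zero_le_one) hw)
    fun _ _ => (one_mul _).ge

end SYS

open SYS in
theorem tSYS (hTEN : St_TEN) (hKIT : St_KIT) : St_SYS := by
  intro n M _ H A F _ _ ev b hH hF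
  obtain ⟨-, -, -, k4, k5⟩ := hKIT n M H hH
  have pos := (k5 b).1
  have nn : ∀ x c : ℕ, ∀ y ∈ b.O, 0 ≤ b.T y ^ x * b.p y ^ c := fun x c y hy =>
    mul_nonneg (pow_nonneg (pos y hy).2.le _) (pow_nonneg (pos y hy).1.le _)
  let G : ℕ → ℕ → Submodule ℂ F := fun x c =>
    { carrier := {u | ∃ f : A, b.Gm x c f.1 ∧ ev f = u}
      zero_mem' := ⟨0, bd_zero, map_zero ev⟩
      add_mem' := fun ⟨f, h, e⟩ ⟨g, h', e'⟩ =>
        ⟨f + g, bd_add h h' (nn x c), by rw [map_add, e, e']⟩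
      smul_mem' := fun a _ ⟨f, h, e⟩ => ⟨a • f, bd_smul a h (nn x c), by rw [map_smul, e]⟩ }
  have mul : ∀ x c x' c', ∀ u ∈ G x c, ∀ v ∈ G x' c', u * v ∈ G (x + x') (c + c') :=
    fun x c x' c' u ⟨f, h, e⟩ v ⟨g, h', e'⟩ =>
      ⟨f * g, bd_mono (bd_mul h h' (nn x c) (nn x' c')) fun y _ => le_of_eq (by ring),
        by rw [map_mul, e, e']⟩
  have mono : ∀ x c c', c ≤ c' → G x c ≤ G x c' := fun x c c' hc u ⟨f, h, e⟩ =>
    ⟨f, bd_mono h fun y hy => mul_le_mul_of_nonneg_left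
      (pow_le_pow_of_le_one (pos y hy).1.le (b.le1 y) hc) (pow_nonneg (pos y hy).2.le _), e⟩
  refine ⟨G, fun _ _ _ => Iff.rfl, fun c0 hg => ⟨mul, mono, fun x => ?_⟩, fun τ h hh hf f => ?_⟩
  · obtain ⟨g, h1, y, hy, h2⟩ := hg x
    have hA := (hF.mem g).2 ((hTEN n M H b x c0 g hH).2 h1).1
    refine ⟨ev ⟨g, hA⟩, ⟨⟨g, hA⟩, h1, rfl⟩, fun e => h2 ?_⟩
    obtain ⟨σ, hσ⟩ := (hF.ker _).1 e
    exact k4 b.O g (fun _ => 0) σ b.B.isOpen_O h1.1 (hok_const 0) (fun x hx => hσ x hx.2) y hy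
  have pol : ∀ P : MvPolynomial τ ℂ,
      ∃ a, MvPolynomial.aeval (fun i => ev (h i)) P ∈ G 0 a := fun P => by
    induction P using MvPolynomial.induction_on with
    | C a =>
      exact ⟨0, algebraMap ℂ A a, bd_const a fun y _ => by simp, by
        rw [MvPolynomial.algHom_C, AlgHom.commutes]⟩
    | add p q hp hq =>
      obtain ⟨a, ha⟩ := hp
      obtain ⟨a', ha'⟩ := hq
      rw [map_add]
      exact ⟨a + a', add_mem (mono _ _ _ (Nat.le_add_right _ _) ha)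
        (mono _ _ _ (Nat.le_add_left _ _) ha')⟩
    | mul_X p i hp =>
      obtain ⟨a, ha⟩ := hp
      rw [map_mul, MvPolynomial.aeval_X]
      exact ⟨a + 1, mul 0 a 0 1 _ ha _ ⟨h i, hh i, rfl⟩⟩
  obtain ⟨P, Q, h0, e⟩ := hf f
  obtain ⟨a, ha⟩ := pol P
  obtain ⟨a', ha'⟩ := pol Q
  exact ⟨a + a', _, mono _ _ _ (Nat.le_add_left _ _) ha', h0,
    e ▸ mono _ _ _ (Nat.le_add_right _ _) ha⟩

end Pool.Agent.Lib.KT
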