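import Pool.Agent.Lib.KT.Blue

/-! Elements of the system are tensors. -/

open scoped Classical Topology ContDiff ComplexOrder Matrix ENNReal
open Set MeasureTheory Complex Metric Filter

set_option linter.unusedVariables false

noncomputable section

namespace Pool.Agent.Lib.KT

open Pool.Agent.Lib.SV (E nsq)
open Pool.Agent.Lib.HS32
open Pool.Agent.Lib.RAA (hq kp)
open Pool.Agent.Lib.DM (uv)
open Pool.Agent.Lib.K3E (Tw)
open Pool.Agent.Lib.KH (HoK SmK OnK Jo Pol)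

namespace TEN

variable {n : ℕ} {M : Mf n} {H : M.Fam (Mat n)} {N B : ℕ} {u : M.Fam ((Fin N → Fin n) → ℂ)}

theorem nv_zero {y : M.X} (h : M.ev u y = 0) : nv H B u y = 0 := by
  show hq (kp N (M.ev H y)) (M.ev u y) / _ = 0
  rw [h]
  simp [hq]

/-- A global tensor that is not zero. -/
theorem tw (h : Lt univ N B u) {y : M.X} (hy : M.ev u y ≠ 0) :
    Tw M (fun e e' x => kp N (M.J e e' x)) B u :=
  ⟨fun e he z hz i => (h.hol e he z hz (mem_univ _)).mono fun w k => differentiableAt_pi.1 k i,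
    ⟨_, ((mTR n M).1 y).1, _, (M.ch y).map_source ((mTR n M).1 y).2, hy⟩,
    fun e he e' he' x hx hx' => by
      beta_reduce
      rw [← h.law e he e' he' x hx hx' (mem_univ _), smul_smul,
        inv_mul_cancel₀ (pow_ne_zero _ ((mTR n M).2.1 e he e' he' x hx hx').2.1), one_smul]⟩

theorem bd [M.Cpt] (hH : M.Met H) (h : Lt univ N B u) : ∃ C, ∀ y, nv H B u y ≤ C := by
  by_cases k : ∃ y, M.ev u y ≠ 0
  · obtain ⟨y, hy⟩ := k
    obtain ⟨C, hC⟩ := (isCompact_range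
      ((Tn.mk N B u (tw h hy)).pn_rep hH).2.1.continuous).bddAbove
    exact ⟨C, fun x => hC ⟨x, rfl⟩⟩
  · exact ⟨0, fun x => (nv_zero (not_not.1 fun c => k ⟨x, c⟩)).le⟩

theorem ext [M.Cpt] (hEXT : St_EXT) (hTT : St_TT) (b : Ba M H) (x c : ℕ) (g : M.X → ℂ)
    (hH : M.Met H) (hg : HoK M b.O g)
    (hJ : Jo M H b.O (fun y => normSq (g y) * (b.T y ^ x * b.p y ^ c)) ≠ ⊤) :
    ∃ (N B : ℕ) (u : M.Fam ((Fin N → Fin n) → ℂ)), Lt univ N B u ∧
      ∀ y ∈ b.O, nv H B u y = normSq (g y) * (b.T y ^ x * b.p y ^ c) := by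
  obtain ⟨N, B, t, ht⟩ := hTT n M H b x c hH
  obtain ⟨h1, h2⟩ := ht g hg
  obtain ⟨u, h3, h4⟩ := hEXT n M H b.B N B _ hH h1 (by
    rwa [Jo, setLIntegral_congr_fun b.B.isOpen_O.measurableSet
      fun y hy => congrArg ENNReal.ofReal (h2 y hy)])
  refine ⟨N, B, u, h3, fun y hy => Eq.trans ?_ (h2 y hy)⟩
  obtain ⟨c1, c2⟩ := (mTR n M).1 y
  have k := h4 _ c1 _ ((M.ch y).map_source c2) (by rwa [(M.ch y).left_inv c2])
  exact congrArg (fun v => hq (kp N (M.ev H y)) v / (M.ev H y).det.re ^ B) k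

end TEN

theorem tTEN (hKIT : St_KIT) (hEXT : St_EXT) (hTT : St_TT) : St_TEN := by
  intro n M _ H b x c g hH
  have hp := ((hKIT n M H hH).2.2.2.2 b).1
  refine ⟨fun hg hJ => ?_, fun ⟨hg, C, hC⟩ => ?_⟩
  · obtain ⟨N, B, u, h1, h2⟩ := TEN.ext hEXT hTT b x c g hH hg hJ
    obtain ⟨C, hC⟩ := TEN.bd hH h1
    exact ⟨hg, C, fun y hy => (h2 y hy).ge.trans (hC y)⟩
  obtain ⟨D, hD⟩ := b.low
  have k : ∀ y ∈ b.O, normSq (g y) * b.p y ^ (x + c) ≤ D ^ x * C := fun y hy => by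
    obtain ⟨p0, T0⟩ := hp y hy
    have D0 : 0 ≤ D := ((mul_pos_iff_of_pos_right T0).1 (p0.trans_le (hD y hy))).le
    calc normSq (g y) * b.p y ^ (x + c) = b.p y ^ x * (normSq (g y) * b.p y ^ c) := by ring
      _ ≤ (D * b.T y) ^ x * (normSq (g y) * b.p y ^ c) :=
        mul_le_mul_of_nonneg_right (pow_le_pow_left₀ p0.le (hD y hy) x)
          (mul_nonneg (normSq_nonneg _) (pow_pos p0 c).le)
      _ = D ^ x * (normSq (g y) * (b.T y ^ x * b.p y ^ c)) := by ring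
      _ ≤ D ^ x * C := mul_le_mul_of_nonneg_left (hC y hy) (pow_nonneg D0 x)
  refine ⟨⟨b.B.pw (x + c + 1), ?_⟩, ⟨hg, D ^ x * C, fun y hy => ?_⟩, fun ⟨y₀, h0, g0⟩ => ?_⟩
  · rw [(b.B.O_pw (x + c)).2]
    refine ⟨hg, D ^ x * C, fun y hy => le_trans ?_ (k y hy)⟩
    rw [b.B.pn_pw hH, pow_succ]
    exact mul_le_mul_of_nonneg_left (mul_le_of_le_one_right (pow_pos (hp y hy).1 _).le (b.le1 y))
      (normSq_nonneg _)
  · beta_reduce
    rw [pow_zero, one_mul]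
    exact k y hy
  · have := (mMU n M H hH).2.1
    obtain ⟨N, B, u, h1, h2⟩ := TEN.ext hEXT hTT b x c g hH hg (ne_top_of_le_ne_top
      (ENNReal.mul_ne_top ENNReal.ofReal_ne_top (measure_ne_top (M.mu H) b.O))
      ((setLIntegral_mono' b.B.isOpen_O.measurableSet
        fun y hy => ENNReal.ofReal_le_ofReal (hC y hy)).trans (setLIntegral_const _ _).le))
    have w : ∀ y ∈ b.O, nv H B u y ≠ 0 ↔ g y ≠ 0 := fun y hy => by
      rw [h2 y hy, mul_ne_zero_iff, and_iff_left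
        (mul_pos (pow_pos (hp y hy).2 x) (pow_pos (hp y hy).1 c)).ne', Ne, normSq_eq_zero]
    have t := TEN.tw h1 (y := y₀) fun z => (w y₀ h0).2 g0 (TEN.nv_zero z)
    refine ⟨Tn.mk N B u t, Set.ext fun y => and_congr_right fun hy => ?_, h2⟩
    exact (((Tn.mk N B u t).pn_rep hH).2.2.2 y).symm.trans (w y hy)

end Pool.Agent.Lib.KT
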