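import Pool.Agent.Lib.KT.Blue

/-! Project kt, row TT: the tensor of a level and a cost. -/

open scoped Classical Topology Matrix
open Set Complex Filter

set_option linter.unusedVariables false

noncomputable section

namespace Pool.Agent.Lib.KT

open Pool.Agent.Lib.HS32
open Pool.Agent.Lib.RAA (hq kp)

theorem tTT : St_TT := by
  intro n M _ H b x c hH
  refine ⟨(b.B.pw c).N, (b.B.pw c).B + b.d * x, fun e z => b.ψ e z ^ x • (b.B.pw c).s e z,
    fun g hg => ⟨⟨fun e he z hz h => ?_, fun e he e' he' y hy hy' h => ?_⟩, fun y hy => ?_⟩⟩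
  · exact ((hg e he z hz h).and ((b.hol e he z hz h).1.and ((b.B.pw c).holN e he z hz))).mono
      fun w hw => hw.1.smul ((hw.2.1.pow x).smul hw.2.2)
  · have a1 := b.law e he e' he' y hy hy' h
    have a2 := (b.B.pw c).law e he e' he' y hy hy'
    beta_reduce at a1 a2 ⊢
    rw [e.left_inv hy, e'.left_inv hy', Matrix.mulVec_smul, Matrix.mulVec_smul, ← a2, ← a1,
      smul_smul, smul_smul, smul_smul, smul_smul, pow_add, pow_mul, mul_pow]
    congr 1
    ring
  · have a1 := (M.ch y).left_inv ((mTR n M).1 y).2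
    rw [← b.B.pn_pw hH c y]
    show hq (kp _ (M.ev H y)) (g ((M.ch y).symm (M.ch y y)) • M.ev b.ψ y ^ x • M.ev (b.B.pw c).s y) /
      (M.ev H y).det.re ^ ((b.B.pw c).B + b.d * x) = normSq (g y) *
        ((normSq (M.ev b.ψ y) / (M.ev H y).det.re ^ b.d) ^ x *
          (hq (kp _ (M.ev H y)) (M.ev (b.B.pw c).s y) / (M.ev H y).det.re ^ (b.B.pw c).B))
    rw [a1, DM.NRM.hq_smul, DM.NRM.hq_smul, map_pow, pow_add, pow_mul, div_pow]
    ring

end Pool.Agent.Lib.KT
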