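import Pool.Agent.Lib.KT.Blue
import Pool.Agent.Lib.SIE.Main

/-! Project kt: the inverse of an algebraic function is bounded on a tube. -/

open scoped Classical Topology
open Set Complex Metric Filter

noncomputable section

namespace Pool.Agent.Lib.KT

open Pool.Agent.Lib.HS32

namespace TUB

theorem cont {k : ℕ} (Q : Polynomial (MvPolynomial (Fin k) ℂ)) :
    Continuous fun p : (Fin k → ℂ) × ℂ => Q.eval₂ (MvPolynomial.eval p.1) p.2 := by
  simp only [Polynomial.eval₂_eq_sum_range]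
  exact continuous_finsetSum _ fun i _ =>
    ((MvPolynomial.continuous_eval _).comp continuous_fst).mul (continuous_snd.pow i)

end TUB

theorem tTUB (hTEN : St_TEN) : St_TUB := by
  intro n M _ H b k x c z γ hH hz hγ hne ⟨P, hP0, hP⟩
  obtain ⟨σ, hσ, -⟩ := ((hTEN n M H b x c γ hH).2 hγ).2.2 hne
  obtain ⟨Q, hQ, hd⟩ := Polynomial.exists_eq_pow_rootMultiplicity_mul_and_not_dvd P hP0 0
  rw [map_zero, sub_zero] at hQ hd
  rw [Polynomial.X_dvd_iff] at hd
  have hc : ∀ y ∈ b.O, ContinuousAt (fun y => ((fun j => z j y), γ y)) y := fun y hy => by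
    obtain ⟨e, he, hs⟩ := M.cov y
    have h1 := (hz y hy e he hs).1.self_of_nhds.continuousAt
    have h2 := (hγ.1 e he _ (e.map_source hs) (by rwa [e.left_inv hs])).self_of_nhds.continuousAt
    exact (e.symm.continuousAt_iff_continuousAt_comp_right hs).2 (h1.prodMk h2)
  have hrel : ∀ y ∈ b.O, Q.eval₂ (MvPolynomial.eval fun j => z j y) (γ y) = 0 := fun y hy => by
    by_contra h0
    have h1 := ((TUB.cont Q).continuousAt.comp (hc y hy)).eventually_ne h0
    obtain ⟨u, u1, u2, u3⟩ := σ.dense_O.inter_nhds_nonempty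
      (inter_mem (b.B.isOpen_O.mem_nhds hy) h1)
    have h2 := hP u u2
    rw [hQ, Polynomial.eval₂_mul, Polynomial.eval₂_X_pow] at h2
    exact u3 ((mul_eq_zero.1 h2).resolve_left (pow_ne_zero _ (hσ.le ⟨u2, u1⟩).2))
  obtain ⟨y₀, h0, h1⟩ : ∃ y₀ ∈ b.O, MvPolynomial.eval (fun j => z j y₀) (Q.coeff 0) ≠ 0 := by
    by_contra h
    push Not at h
    obtain ⟨y, hy, -⟩ := hne
    exact hd (SIE.ind (hz y hy) (eventually_eventually_nhds.2
      (mem_of_superset (b.B.isOpen_O.mem_nhds hy) h)).frequently)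
  have h2 := ((TUB.cont Q).continuousAt (x := ((fun j => z j y₀), 0))).eventually_ne
    (y := 0) (by rwa [Polynomial.eval₂_at_zero])
  obtain ⟨ε, hε, h3⟩ := Metric.eventually_nhds_iff.1 h2
  refine ⟨y₀, h0, ε / 2, half_pos hε, (ε ^ 2)⁻¹, fun y hy hρ => ?_⟩
  have h4 : ε ≤ ‖γ y‖ := not_lt.1 fun h => h3 (y := ((fun j => z j y), γ y))
    (by
      rw [Prod.dist_eq, max_lt_iff, dist_eq_norm, dist_zero_right]
      exact ⟨hρ.trans_lt (half_lt_self hε), h⟩) (hrel y hy)
  rw [normSq_eq_norm_sq, ← div_eq_inv_mul, one_le_div (pow_pos hε 2)]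
  exact pow_le_pow_left₀ hε.le h4 2

end Pool.Agent.Lib.KT
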