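import Pool.Agent.Lib.KT.Blue
import Pool.Agent.Lib.KV93.Row

/-! The removal of the last poles. -/

open scoped Classical Topology ComplexOrder Matrix ENNReal
open Set MeasureTheory Complex Metric Filter

noncomputable section

namespace Pool.Agent.Lib.KT

open Pool.Agent.Lib.SV (E)
open Pool.Agent.Lib.HS32 Pool.Agent.Lib.KV93
open Pool.Agent.Lib.KH (HoK Jo)
open MvPolynomial (eval)

theorem tVAL (hTEN : St_TEN) (hKIT : St_KIT) : St_VAL := by
  intro n M _ H b ι _ h hH hh rat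
  obtain ⟨-, -, -, -, kit⟩ := hKIT n M H hH
  obtain ⟨pos, -, hT⟩ := kit b
  set N := fun y => 1 + ∑ i, normSq (h i y)
  have hN : ∀ x ∈ b.O, N x = 1 + ∑ i, normSq (h i x) := fun _ _ => rfl
  have N1 : ∀ x ∈ b.O, 1 ≤ N x := fun x _ =>
    le_add_of_nonneg_right (Finset.sum_nonneg fun i _ => normSq_nonneg (h i x))
  have N0 := fun x hx => zero_le_one.trans (N1 x hx)
  choose K hK using fun i => (hh i).2
  have pN : ∀ x ∈ b.O, b.p x * N x ≤ 1 + ∑ i, K i := fun x hx => by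
    rw [hN x hx, mul_add, mul_one, Finset.mul_sum]
    exact add_le_add (b.le1 x) (Finset.sum_le_sum fun i _ => by simpa [mul_comm] using hK i x hx)
  have gm : ∀ {f m}, Gr b.O N f m → b.Gm 0 m f := fun {f m} a => by
    obtain ⟨C, c0, hC⟩ := a.mono N1 le_rfl
    refine ⟨a.1, C * (1 + ∑ i, K i) ^ m, fun x hx => ?_⟩
    have p0 := (pos x hx).1.le
    have := N0 x hx
    beta_reduce
    rw [pow_zero, one_mul]
    refine (mul_le_mul_of_nonneg_right (hC x hx) (pow_nonneg p0 _)).trans ?_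
    rw [mul_assoc, ← mul_pow, mul_comm (N x)]
    gcongr
    exact pN x hx
  have op : ∀ {f : M.X → ℂ} {x c : ℕ}, b.Gm x c f → (∃ y ∈ b.O, f y ≠ 0) →
      ∃ U, IsOpen U ∧ Dense U ∧ ∀ y ∈ b.O, y ∈ U → f y ≠ 0 := fun hf h0 => by
    obtain ⟨σ, e, -⟩ := ((hTEN n M H b _ _ _ hH).2 hf).2.2 h0
    exact ⟨σ.O, σ.isOpen_O, σ.dense_O, fun y hy k => (e.le ⟨hy, k⟩).2⟩
  have nz : ∀ {f f' : M.X → ℂ} {x c x' c' : ℕ}, b.Gm x c f → (∃ y ∈ b.O, f y ≠ 0) → b.Gm x' c' f' →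
      (∃ y ∈ b.O, f' y ≠ 0) → ∃ y ∈ b.O, (f * f') y ≠ 0 := fun a a0 c c0 => by
    obtain ⟨U, u1, u2, u3⟩ := op a a0
    obtain ⟨V, -, v2, v3⟩ := op c c0
    obtain ⟨y, ⟨y1, y2⟩, y3⟩ := v2.inter_open_nonempty _ (b.B.isOpen_O.inter u1)
      (u2.inter_open_nonempty _ b.B.isOpen_O (a0.imp fun _ => And.left))
    exact ⟨y, y1, mul_ne_zero (u3 y y1 y2) (v3 y y1 y3)⟩
  choose m hm using gr_eval (fun i => (hh i).1) hN
  have hF : KV93.Fm b.O N {a | Gr b.O N a.1 a.2 ∧ ∃ y ∈ b.O, a.1 y ≠ 0} :=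
    ⟨by
      obtain ⟨j, -, g, hg, -⟩ := b.ai 0
      obtain ⟨-, P, k, -⟩ := rat _ g ((hTEN n M H b _ _ _ hH).2 hg).2.1
      exact ⟨(_, m P), hm P, k⟩,
    fun a ha c hc => ⟨ha.1.mul hc.1, nz (gm ha.1) ha.2 (gm hc.1) hc.2⟩, fun a ha => ha.1.1,
    fun a ha => ha.1.2, fun a ha y hy => by
      obtain ⟨U, -, u2, u3⟩ := op (gm ha.1) ha.2
      exact ((mem_closure_iff_frequently.1 (u2 y)).and_eventually
        (b.B.isOpen_O.mem_nhds hy)).mono fun w hw => u3 w hw.2 hw.1⟩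
  obtain ⟨d, a, ha, k⟩ := valM hH Subset.rfl (lp_tn hH b.B) (fun i => (hh i).1) hN ⟨_, pN⟩ hF
  refine ⟨a.2, a.2, a.1, d + 1, ⟨gm ha.1, ha.2⟩, by positivity, fun x c F κ ε hf k0 k1 hi => ?_⟩
  obtain ⟨C, hC⟩ := k (fun y => normSq (F y) * b.T y ^ x) κ ε (fun e he => by
    have d0 := fun z hz => pow_pos (Mf.pd_det_re (hH.pos e he z hz)) b.d
    refine ⟨fun z => (F ∘ e.symm) z * b.ψ e z ^ x, fun z => ((H e z).det.re ^ b.d)⁻¹ ^ x,
      (ContinuousOn.inv₀ (fun z hz => ((continuous_re.continuousAt.comp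
        (continuous_id.matrix_det.continuousAt.comp
          (hH.sm e he z hz).continuousAt)).pow _).continuousWithinAt)
        fun z hz => (d0 z hz).ne').pow x, fun z hz =>
      ⟨pow_pos (inv_pos.2 (d0 z hz)) x, fun zO => ⟨((hf.1 e he z hz zO).and
        (b.hol e he z hz zO).1).mono fun _ k => k.1.mul (k.2.pow x), ?_⟩⟩⟩
    simp only [hT e he z hz zO, map_mul, map_pow, Function.comp]
    ring) k0.le (by linarith) (fun θ t0 => by
    obtain ⟨j, hj, g, hg, g0⟩ := b.ai (x + ⌈b.c * x / θ⌉₊)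
    obtain ⟨P, P', p1, p2⟩ := rat _ F ((hTEN n M H b _ _ _ hH).2 hf).2.1
    obtain ⟨R, R', r1, r2⟩ := rat _ g ((hTEN n M H b _ _ _ hH).2 hg).2.1
    obtain ⟨y, hy, r3⟩ := nz (gm (hm R')) r1 hg g0
    obtain ⟨C1, c1, hC1⟩ := (hm P).mono N1 le_rfl
    obtain ⟨C2, c2, hC2⟩ := (hm R).mono N1 (le_max_left _ (m R'))
    obtain ⟨C3, c3, hC3⟩ := (hm R').mono N1 (le_max_right (m R) _)
    obtain ⟨C4, hC4⟩ := hg.2
    have q := (hm P').mul (hm R)
    obtain ⟨C5, c5, hC5⟩ := q.mono N1 (m' := m P' + m R + (m P + max (m R) (m R'))) (by omega)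
    refine ⟨(_, m P' + m R + (m P + max (m R) (m R'))), ⟨⟨q.1, C5, hC5⟩, nz (gm (hm P')) p1
      (gm (hm R)) ⟨y, hy, (r2 y hy).symm.trans_ne r3⟩⟩, C1 * (C2 + |C4| * C3), fun y hy => ?_⟩
    obtain ⟨p0, T0⟩ := pos y hy
    have n0 := N0 y hy
    have l1 : b.T y ^ x * b.p y ^ θ * normSq (eval (h · y) R) ≤
        (C2 + |C4| * C3) * N y ^ max (m R) (m R') := by
      have o : b.T y ^ x * b.p y ^ θ ≤ 1 ∨ b.T y ^ x * b.p y ^ θ ≤ b.T y ^ j * b.p y ^ b.c := by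
        rcases x.eq_zero_or_pos with rfl | x0
        · exact Or.inl (by simpa using Real.rpow_le_one p0.le (b.le1 y) t0.le)
        refine pw T0 p0 (b.le1 y) x0 (le_trans le_self_add hj) ?_
        rw [← div_le_iff₀' t0]
        exact (Nat.le_ceil _).trans (by exact_mod_cast le_trans le_add_self hj)
      rw [add_mul]
      rcases o with l | l
      · exact le_add_of_le_of_nonneg ((mul_le_of_le_one_left (normSq_nonneg _) l).trans (hC2 y hy))
          (by positivity)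
      · refine le_add_of_nonneg_of_le (by positivity)
          ((mul_le_mul_of_nonneg_right l (normSq_nonneg _)).trans ?_)
        rw [← r2 y hy, map_mul, mul_comm (normSq _), ← mul_assoc, mul_comm _ (normSq (g y)),
          mul_assoc |C4|]
        exact mul_le_mul ((hC4 y hy).trans (le_abs_self _)) (hC3 y hy) (normSq_nonneg _)
          (abs_nonneg _)
    have l2 := hC1 y hy
    rw [← p2 y hy, map_mul] at l2
    have l3 := mul_le_mul l2 l1 (mul_nonneg (by positivity) (normSq_nonneg _)) (by positivity)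
    simp only [Pi.mul_apply, map_mul]
    refine (le_of_eq (by ring)).trans (l3.trans ?_)
    rw [mul_mul_mul_comm, ← pow_add]
    exact mul_le_mul_of_nonneg_left (pow_le_pow_right₀ (N1 y hy) le_add_self) (by positivity)) hi
  exact ⟨hf.1, C, fun y hy => by simpa using hC y trivial hy⟩

end Pool.Agent.Lib.KT
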