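import Pool.Agent.Lib.KT.Blue
import Pool.Agent.Lib.SIE.Gen

/-! Project kt: the wedge of the differentials is a tensor. -/

open scoped Classical Topology ContDiff ComplexOrder Matrix ENNReal
open Set MeasureTheory Complex Metric Filter

set_option linter.unusedSectionVars false

noncomputable section

namespace Pool.Agent.Lib.KT

open Pool.Agent.Lib.SV (E nsq)
open Pool.Agent.Lib.HS32
open Pool.Agent.Lib.RAA (kp)
open Pool.Agent.Lib.DM (uv)
open Pool.Agent.Lib.KH (HoK OnK Jo)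
open Pool.Agent.Lib.SIE (Rk Mr rd)

namespace WED

variable {n : ℕ} {M : Mf n} [M.Cpt] {H : M.Fam (Mat n)}

theorem bd {O O' : Set M.X} {w w' : M.X → ℝ} {f : M.X → ℂ} {C : ℝ} (h : Bd O w f) (hO : O' ⊆ O)
    (hC : 0 ≤ C) (hw : ∀ y ∈ O', w' y ≤ C * w y) : Bd O' w' f := by
  obtain ⟨h1, A, h2⟩ := h
  refine ⟨fun e he z hz ho => h1 e he z hz (hO ho), C * A, fun y hy => ?_⟩
  calc _ ≤ normSq (f y) * (C * w y) := mul_le_mul_of_nonneg_left (hw y hy) (normSq_nonneg _)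
    _ = C * (normSq (f y) * w y) := by ring
    _ ≤ _ := mul_le_mul_of_nonneg_left (h2 y (hO hy)) hC

theorem bd_mul (hSCL : St_SCL) (hH : M.Met H) (σ τ : Tn M) {f : M.X → ℂ} :
    (Bd σ.O (σ.pn H) f → Bd (σ.mul τ).O ((σ.mul τ).pn H) f) ∧
    (Bd τ.O (τ.pn H) f → Bd (σ.mul τ).O ((σ.mul τ).pn H) f) := by
  obtain ⟨⟨C, C0, hC⟩, -⟩ := hSCL n M H σ hH
  obtain ⟨⟨C', C0', hC'⟩, -⟩ := hSCL n M H τ hH
  refine ⟨fun h => bd h (Tn.O_mul σ τ ▸ inter_subset_left) C0'.le fun y _ => ?_,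
    fun h => bd h (Tn.O_mul σ τ ▸ inter_subset_right) C0.le fun y _ => ?_⟩
  · rw [Tn.pn_mul _ _ hH, mul_comm C']
    exact mul_le_mul_of_nonneg_left (hC' y) ((σ.pn_rep hH).2.2.1 y)
  · rw [Tn.pn_mul _ _ hH]
    exact mul_le_mul_of_nonneg_right (hC y) ((τ.pn_rep hH).2.2.1 y)

/-- A common denominator. -/
theorem den (hSCL : St_SCL) (hH : M.Met H) {ι : Type} (S : Finset ι) {z : ι → M.X → ℂ}
    (h : ∀ i, Mer H (z i)) : ∃ τ : Tn M, ∀ i ∈ S, Bd τ.O (τ.pn H) (z i) := by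
  induction S using Finset.induction_on with
  | empty => exact ⟨Tn.one, fun _ h => absurd h (Finset.notMem_empty _)⟩
  | insert i S _ ih =>
    obtain ⟨σ, hσ⟩ := h i
    obtain ⟨τ, hτ⟩ := ih
    refine ⟨σ.mul τ, fun j hj => ?_⟩
    rcases Finset.mem_insert.1 hj with rfl | hj
    · exact (bd_mul hSCL hH σ τ).1 hσ
    · exact (bd_mul hSCL hH σ τ).2 (hτ j hj)

theorem hol_df {g : E n → ℂ} {w : E n} (h : HolN g w) :
    ∀ᶠ u in 𝓝 w, DifferentiableAt ℂ (fderiv ℂ g) u := by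
  obtain ⟨O, h1, hO, hw⟩ := _root_.eventually_nhds_iff.1 h
  filter_upwards [hO.mem_nhds hw] with u hu
  exact (((SV.H85.contDiffOn_top hO fun u hu => (h1 u hu).differentiableWithinAt).contDiffAt
    (hO.mem_nhds hu)).fderiv_right (m := 1) (by norm_cast)).differentiableAt
    one_ne_zero

theorem chain {f : M.X → ℂ} {e e' : M.Ch} (he : e ∈ M.C) (he' : e' ∈ M.C) {x : M.X}
    (hx : x ∈ e.source) (hx' : x ∈ e'.source) (h : HolN (f ∘ e.symm) (e x)) (v : E n) :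
    df f e' (e' x) v = df f e (e x) (M.J e e' x *ᵥ v) := by
  have t := SIE.trans_hol he he' hx hx'
  have a : (e ∘ e'.symm) (e' x) = e x := by simp only [Function.comp, e'.left_inv hx']
  have : f ∘ e'.symm =ᶠ[𝓝 (e' x)] (f ∘ e.symm) ∘ (e ∘ e'.symm) :=
    t.mono fun w l => by simp only [Function.comp, l.2]
  rw [df, this.fderiv_eq, fderiv_comp _ (a ▸ h.self_of_nhds) t.self_of_nhds.1, a,
    ContinuousLinearMap.comp_apply, BCHN.fderiv_mulVec _ _ v]
  rfl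

theorem fd_rd {k : ℕ} {z : Fin k → M.X → ℂ} {e : M.Ch} {w : E n}
    (h : ∀ i, HolN (z i ∘ e.symm) w) : HolN (rd M z e) w ∧
      fderiv ℂ (rd M z e) w = ContinuousLinearMap.pi fun i => df (z i) e w :=
  ⟨(eventually_all.2 h).mono fun _ l => differentiableAt_pi.2 l,
    fderiv_pi fun i => (h i).self_of_nhds⟩

end WED

theorem tWED (hMIN : St_MIN) (hWRG : St_WRG) (hEXT : St_EXT) (hNUM : St_NUM) (hKIT : St_KIT)
    (hSCL : St_SCL) : St_WED := by
  intro n M _ H k z hH hz hrk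
  obtain ⟨m, rfl⟩ := Nat.exists_eq_add_of_le (SIE.rk_le hrk.choose_spec)
  obtain ⟨Δ, d1, d2, d3, d4, C5, d5⟩ := hMIN k m
  obtain ⟨τ, hτ'⟩ := WED.den hSCL hH Finset.univ hz
  have hτ := fun i => hτ' i (Finset.mem_univ i)
  obtain ⟨k1, k2, k3, -⟩ := hKIT _ M H hH
  obtain ⟨θ, hθ⟩ : ∃ θ, θ = τ.pw (2 * k) := ⟨_, rfl⟩
  have p0 := (τ.pn_rep hH).2.2.1
  obtain ⟨s, hs⟩ : ∃ s : M.Fam ((Fin (θ.N + m) → Fin (k + m)) → ℂ), s = fun e w L =>
      θ.s e w (fun p => L (Fin.castAdd m p)) *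
        Δ (fun i => df (z i) e w) fun p => L (Fin.natAdd θ.N p) := ⟨_, rfl⟩
  have lt : Lt τ.O (θ.N + m) (θ.B + 1) s := by
    rw [hs]
    refine ⟨fun e he w hw ho => ?_, fun e he e' he' x hx hx' ho => funext fun L => ?_⟩
    · filter_upwards [θ.holN e he w hw,
        eventually_all.2 fun i => WED.hol_df ((hτ i).1 e he w hw ho)] with u h1 h2
      exact differentiableAt_pi.2 fun L => (differentiableAt_pi.1 h1 _).mul
        ((d1 _ _).comp u (differentiableAt_pi.2 h2))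
    · rw [Tn.aprod, ← θ.law e he e' he' x hx hx', ← d3 (fun i => df (z i) e (e x)) _ _ fun i v =>
        WED.chain he he' hx hx' ((hτ i).1 e he _ (e.map_source hx) (by rwa [e.left_inv hx])) v]
      simp only [Pi.smul_apply, smul_eq_mul]
      ring
  have key : M.All fun e w₀ => ∃ C R : ℝ, 0 ≤ C ∧ 0 ≤ R ∧ ∀ᶠ w in 𝓝 w₀, w ∈ e.target ∧
      (e.symm w ∈ τ.O → ‖fun i => (τ.pn H (e.symm w) : ℂ) • df (z i) e w‖ ≤ R ∧
        ∀ t : E (k + m) → _, t w = s e w → uv (θ.N + m) (θ.B + 1) (H e) t w ≤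
          C * ‖Δ fun i => (τ.pn H (e.symm w) : ℂ) • df (z i) e w‖ ^ 2) := fun e he w₀ hw₀ => by
    obtain ⟨C, C0, hC⟩ := k1 (θ.N + m) (θ.B + 1) e he w₀ hw₀
    obtain ⟨C', C0', hC'⟩ := k1 θ.N θ.B e he w₀ hw₀
    choose R hR using fun i => (hWRG _ M H hH).1 τ (z i) (hτ i) e he w₀ hw₀
    refine ⟨C * C', ∑ i, √(R i), by positivity, Finset.sum_nonneg fun _ _ => Real.sqrt_nonneg _, ?_⟩
    filter_upwards [hC, hC', eventually_all.2 hR, e.open_target.mem_nhds hw₀] with w h1 h2 h3 h4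
    refine ⟨h4, fun ho => ⟨(pi_norm_le_iff_of_nonneg
      (Finset.sum_nonneg fun _ _ => Real.sqrt_nonneg _)).2 fun i => ?_, fun t ht => ?_⟩⟩
    · refine le_trans (Real.le_sqrt_of_sq_le ?_) (Finset.single_le_sum (f := fun i => √(R i))
        (fun _ _ => Real.sqrt_nonneg _) (Finset.mem_univ i))
      rw [norm_smul, norm_real, Real.norm_of_nonneg (p0 _), mul_pow, mul_comm]
      exact h3 i ho
    · have a : ‖s e w‖ ≤ ‖θ.s e w‖ * ‖Δ fun i => df (z i) e w‖ := by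
        rw [hs]
        refine (pi_norm_le_iff_of_nonneg (by positivity)).2 fun L => ?_
        rw [norm_mul]
        exact mul_le_mul (norm_le_pi_norm _ _) (norm_le_pi_norm _ _) (norm_nonneg _) (norm_nonneg _)
      have b := (h2 (θ.s e)).2
      have b' : uv θ.N θ.B (H e) (θ.s e) w = τ.pn H (e.symm w) ^ (2 * k) :=
        ((θ.pn_rep hH).1 e he w h4).symm.trans (by rw [hθ, Tn.pn_pw _ hH])
      rw [b'] at b
      rw [d2, norm_smul, Finset.prod_const, Finset.card_univ, Fintype.card_fin, norm_pow, norm_real,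
        Real.norm_of_nonneg (p0 _), mul_pow, ← pow_mul, mul_comm k 2]
      refine (h1 t).1.trans ?_
      rw [ht, mul_assoc, ← mul_assoc C']
      refine mul_le_mul_of_nonneg_left ((pow_le_pow_left₀ (norm_nonneg _) a 2).trans ?_) C0.le
      rw [mul_pow]
      exact mul_le_mul_of_nonneg_right b (sq_nonneg _)
  obtain ⟨A, hA⟩ := k3 τ.O (nv H (θ.B + 1) s) fun e he w₀ hw₀ => by
    obtain ⟨C, R, C0, -, h⟩ := key e he w₀ hw₀
    haveI := FiniteDimensional.proper_rclike ℂ (Fin k → E (k + m) →L[ℂ] ℂ)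
    obtain ⟨D, hD⟩ := (isCompact_closedBall (0 : Fin k → E (k + m) →L[ℂ] ℂ) R
      ).exists_bound_of_continuousOn (continuous_pi fun L => (d1 L).continuous).continuousOn
    refine ⟨C * D ^ 2, h.mono fun w l ho => ?_⟩
    exact ((k2 _ _ _ _ lt e he w l.1 ho).trans_le ((l.2 ho).2 _ rfl)).trans (mul_le_mul_of_nonneg_left (pow_le_pow_left₀ (norm_nonneg _)
      (hD _ (mem_closedBall_zero_iff.2 (l.2 ho).1)) 2) C0)
  haveI : IsFiniteMeasure (M.mu H) := (mMU _ M H hH).2.1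
  obtain ⟨t, t1, t2⟩ := hEXT _ M H τ _ _ s hH lt (ne_top_of_le_ne_top
    (ENNReal.mul_ne_top ENNReal.ofReal_ne_top (measure_ne_top (M.mu H) τ.O)) (by
      rw [← setLIntegral_const]
      exact setLIntegral_mono' τ.isOpen_O.measurableSet fun y hy =>
        ENNReal.ofReal_le_ofReal (hA y hy)))
  have ne : OnK M τ.O fun e w => t e w ≠ 0 ↔ Function.Surjective (fderiv ℂ (rd M z e) w) :=
    fun e he w hw ho => by
      beta_reduce
      rw [t2 e he w hw ho, hs, Tn.ne_mul, d4, (WED.fd_rd fun i => (hτ i).1 e he w hw ho).2,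
        and_iff_right ((θ.mem_O e he w hw).1 (hθ ▸ (τ.O_pw _).1 ho))]
  obtain ⟨σ, σ1, σ2⟩ : ∃ σ : Tn M, (M.All fun e w => e.symm w ∈ σ.O → t e w ≠ 0) ∧
      M.All fun e w => σ.pn H (e.symm w) = uv (θ.N + m) (θ.B + 1) (H e) (t e) w := by
    refine ⟨⟨θ.N + m, θ.B + 1, t, fun e he w hw L => SIE.holN_i (t1.hol e he w hw trivial) L, ?_,
      fun e he e' he' x hx hx' => ?_⟩, fun e he w hw => (Tn.mem_O _ e he w hw).1,
      (Tn.pn_rep _ hH).1⟩
    · obtain ⟨x₀⟩ : Nonempty M.X := inferInstance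
      obtain ⟨x, h1, h2⟩ := (SIE.rk_dense (fun j => (hNUM _ M H τ _ hH (hτ j)).1) hrk
        ).inter_open_nonempty _ τ.isOpen_O τ.dense_O.nonempty
      obtain ⟨e, he, hx⟩ := M.cov x
      exact ⟨e, he, _, e.map_source hx,
        (ne e he _ (e.map_source hx) (by rwa [e.left_inv hx])).2 (h2 e he hx).2⟩
    · beta_reduce
      rw [← t1.law e he e' he' x hx hx' trivial, smul_smul,
        inv_mul_cancel₀ (pow_ne_zero _ ((mTR _ M).2.1 e he e' he' x hx hx').2.1), one_smul]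
  obtain ⟨⟨P, P0, hP⟩, -⟩ := hSCL _ M H τ hH
  refine ⟨σ.mul τ, fun i => (WED.bd_mul hSCL hH σ τ).2 (hτ i), fun x hx => ?_,
    fun e he w₀ hw₀ => ?_⟩
  · rw [Tn.O_mul] at hx
    obtain ⟨e, he, hx'⟩ := M.cov x
    have a : e.symm (e x) ∈ τ.O := by rw [e.left_inv hx']; exact hx.2
    exact SIE.rk_of he hx' (WED.fd_rd fun i => (hτ i).1 e he _ (e.map_source hx') a).1
      ((ne e he _ (e.map_source hx') a).1 (σ1 e he _ (e.map_source hx')
        (by rw [e.left_inv hx']; exact hx.1)))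
  · obtain ⟨C, R, C0, R0, h⟩ := key e he w₀ hw₀
    refine ⟨C * (|C5| * (1 + R) ^ k * P) ^ 2 * P, h.mono fun w l ho a => ?_⟩
    rw [Tn.O_mul] at ho
    obtain ⟨l1, l2⟩ := l.2 ho.2
    have b := l2 _ (t2 e he w l.1 ho.2)
    have c := d5 (fun i => (τ.pn H (e.symm w) : ℂ) • df (z i) e w) a
    have c' : ‖∑ i, a i • (τ.pn H (e.symm w) : ℂ) • df (z i) e w‖ ≤
        P * ‖∑ i, a i • df (z i) e w‖ := by
      simp only [smul_comm (a _) (τ.pn H (e.symm w) : ℂ)]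
      rw [← Finset.smul_sum, norm_smul, norm_real, Real.norm_of_nonneg (p0 _)]
      exact mul_le_mul_of_nonneg_right (hP _) (norm_nonneg _)
    have c2 := pow_le_pow_left₀ (by positivity) (c.trans (show _ ≤
      |C5| * (1 + R) ^ k * (P * ‖∑ i, a i • df (z i) e w‖) by gcongr; exact le_abs_self _)) 2
    rw [Tn.pn_mul _ _ hH, σ2 e he w l.1]
    calc _ ≤ ‖a‖ ^ 2 * (C * ‖Δ fun i => (τ.pn H (e.symm w) : ℂ) • df (z i) e w‖ ^ 2 * P) :=
          mul_le_mul_of_nonneg_left (mul_le_mul b (hP _) (p0 _) (by positivity)) (sq_nonneg _)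
      _ = C * P * (‖a‖ * ‖Δ fun i => (τ.pn H (e.symm w) : ℂ) • df (z i) e w‖) ^ 2 := by ring
      _ ≤ C * P * (|C5| * (1 + R) ^ k * (P * ‖∑ i, a i • df (z i) e w‖)) ^ 2 :=
          mul_le_mul_of_nonneg_left c2 (by positivity)
      _ = _ := by ring

end Pool.Agent.Lib.KT
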