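import Pool.Agent.Lib.KT.Blue

/-! Row WRG: the differential of a quotient and the Wronskians of the system. -/

open scoped Topology ENNReal
open Set MeasureTheory Complex Filter

noncomputable section

namespace Pool.Agent.Lib.KT

open Pool.Agent.Lib.HS32
open Pool.Agent.Lib.KH (HoK Jo)

theorem tWRG (hWRO : St_WRO) (hTT : St_TT) (hEXT : St_EXT) (hNUM : St_NUM) : St_WRG := by
  intro n M _ H hH
  have h1 : ∀ O : Set M.X, HoK M O fun _ => (1 : ℂ) := fun O e _ z _ _ =>
    Eventually.of_forall fun _ => differentiableAt_const _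
  refine ⟨fun τ f hf e he z hz => ?_, fun b x c u v hu hv e he z hz => ?_⟩
  · obtain ⟨-, t, t1, t2⟩ := hNUM n M H τ f hH hf
    have l : ∀ O, Lt O τ.N τ.B τ.s := fun O => ⟨fun e he z hz _ => τ.holN e he z hz,
      fun e he e' he' x hx hx' _ => τ.law e he e' he' x hx hx'⟩
    obtain ⟨C, hC⟩ := hWRO n M H τ _ _ τ.s τ.s t _ f hH (l _) (h1 _) hf.1 (l _) t1
      (fun e he z hz h => ⟨(one_smul _ _).symm, t2 e he z hz h⟩) e he z hz
    refine ⟨C, hC.mono fun w hw h => ?_⟩
    have h2 : f (e.symm w) • df (fun _ : M.X => (1 : ℂ)) e w = 0 := by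
      rw [show df (fun _ : M.X => (1 : ℂ)) e w = 0 from fderiv_const_apply _]
      ext
      simp
    have h3 := hw h
    simp only [h2, one_smul, sub_zero] at h3
    exact h3
  · obtain ⟨N, B, t, ht⟩ := hTT n M H b x c hH
    have := (mMU n M H hH).2.1
    have k : ∀ g, b.Gm x c g → ∃ a, Lt univ N B a ∧
        KH.OnK M b.O fun e z => a e z = g (e.symm z) • t e z := fun g hg => by
      obtain ⟨C, hC⟩ := hg.2
      refine hEXT n M H b.B N B _ hH (ht g hg.1).1 (ne_top_of_le_ne_top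
        (ENNReal.mul_ne_top (ENNReal.ofReal_ne_top (r := C)) (measure_ne_top (M.mu H) b.O)) ?_)
      rw [← setLIntegral_const]
      exact setLIntegral_mono' b.B.isOpen_O.measurableSet fun y hy =>
        ENNReal.ofReal_le_ofReal (((ht g hg.1).2 y hy).trans_le (hC y hy))
    obtain ⟨a, a1, a2⟩ := k u hu
    obtain ⟨a', b1, b2⟩ := k v hv
    obtain ⟨C, hC⟩ := hWRO n M H b.B N B _ a a' u v hH (ht _ (h1 _)).1 hu.1 hv.1 a1 b1
      (fun e he z hz h => ⟨by rw [one_smul]; exact a2 e he z hz h,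
        by rw [one_smul]; exact b2 e he z hz h⟩) e he z hz
    refine ⟨C, hC.mono fun w hw h => ?_⟩
    have h3 := hw h
    beta_reduce at h3 ⊢
    rwa [(ht _ (h1 _)).2 _ h, map_one, one_mul, mul_pow, ← pow_mul, ← pow_mul, mul_comm x,
      mul_comm c] at h3

end Pool.Agent.Lib.KT
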