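import Pool.Agent.Lib.KT.Blue

/-! Project kt, row WRO: Wronskians are bounded. -/

open scoped Classical Topology ContDiff ComplexOrder Matrix ENNReal
open Set MeasureTheory Complex Metric Filter

noncomputable section

namespace Pool.Agent.Lib.KT

open Pool.Agent.Lib.SV (E nsq)
open Pool.Agent.Lib.HS32

namespace WRO

variable {n : ℕ}

/-- The Wronskian of two functions. -/
def wr (f g : E n → ℂ) (w : E n) : E n →L[ℂ] ℂ := f w • fderiv ℂ g w - g w • fderiv ℂ f w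

theorem wr_cont {f g : E n → ℂ} {z : E n} (hf : HolN f z) (hg : HolN g z) :
    ContinuousAt (wr f g) z :=
  (hf.self_of_nhds.continuousAt.smul
    ((SV.H85.contDiffAt_nat hg 1).continuousAt_fderiv one_ne_zero)).sub
    (hg.self_of_nhds.continuousAt.smul
      ((SV.H85.contDiffAt_nat hf 1).continuousAt_fderiv one_ne_zero))

theorem wr_mul {f g u v t : E n → ℂ} {w : E n} (hu : DifferentiableAt ℂ u w)
    (hv : DifferentiableAt ℂ v w) (ht : DifferentiableAt ℂ t w)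
    (hf : f =ᶠ[𝓝 w] fun y => u y * t y) (hg : g =ᶠ[𝓝 w] fun y => v y * t y) :
    wr f g w = t w ^ 2 • wr u v w := by
  rw [wr, wr, hf.fderiv_eq, hg.fderiv_eq, hf.self_of_nhds, hg.self_of_nhds, fderiv_fun_mul hu ht,
    fderiv_fun_mul hv ht]
  module

theorem sq_le {ι : Type} [Fintype ι] (t : ι → ℂ) : ‖t‖ ^ 2 ≤ ∑ I, ‖t I‖ ^ 2 :=
  (Real.le_sqrt (norm_nonneg _) (Finset.sum_nonneg fun _ _ => sq_nonneg _)).1
    ((pi_norm_le_iff_of_nonneg (Real.sqrt_nonneg _)).2 fun I => Real.le_sqrt_of_sq_le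
      (Finset.single_le_sum (f := fun I => ‖t I‖ ^ 2) (fun _ _ => sq_nonneg _) (Finset.mem_univ I)))

theorem bnd {ι : Type} [Fintype ι] {a b : E n → ι → ℂ} {z : E n} (ha : HolN a z) (hb : HolN b z) :
    ∃ K, ∀ᶠ w in 𝓝 z, ∀ (u v : E n → ℂ) (t : E n → ι → ℂ), DifferentiableAt ℂ u w →
      DifferentiableAt ℂ v w → DifferentiableAt ℂ t w →
      (∀ᶠ y in 𝓝 w, a y = u y • t y ∧ b y = v y • t y) → ‖wr u v w‖ * ‖t w‖ ^ 2 ≤ K := by
  have c : ContinuousAt (fun w => ∑ I, ‖wr (fun y => a y I) (fun y => b y I) w‖) z :=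
    tendsto_finsetSum _ fun I _ => (wr_cont (ha.mono fun _ l => differentiableAt_pi.1 l I)
      (hb.mono fun _ l => differentiableAt_pi.1 l I)).norm
  refine ⟨∑ I, ‖wr (fun y => a y I) (fun y => b y I) z‖ + 1,
    (c.eventually_lt_const (lt_add_one _)).mono fun w h u v t hu hv ht l => ?_⟩
  refine ((mul_le_mul_of_nonneg_left (sq_le _) (norm_nonneg _)).trans_eq ?_).trans h.le
  rw [Finset.mul_sum]
  refine Finset.sum_congr rfl fun I _ => ?_
  rw [wr_mul hu hv (differentiableAt_pi.1 ht I) (l.mono fun _ k => congrFun k.1 I)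
    (l.mono fun _ k => congrFun k.2 I), norm_smul, norm_pow, mul_comm]

end WRO

theorem tWRO (hKIT : St_KIT) : St_WRO := by
  intro n M _ H ρ N B t a b u v hH ht hu hv ha hb hab e he z hz
  obtain ⟨k1, k2, -⟩ := hKIT n M H hH
  obtain ⟨C, C0, hC⟩ := k1 N B e he z hz
  obtain ⟨K, hK⟩ := WRO.bnd (ha.hol e he z hz trivial) (hb.hol e he z hz trivial)
  refine ⟨(C * K) ^ 2, ?_⟩
  filter_upwards [hC, hK, e.open_target.mem_nhds hz] with w h1 h2 h3 h4
  have h5 : ∀ᶠ y in 𝓝 w, a e y = (u ∘ e.symm) y • t e y ∧ b e y = (v ∘ e.symm) y • t e y := by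
    filter_upwards [e.open_target.mem_nhds h3,
      (e.continuousAt_symm h3).eventually (ρ.isOpen_O.mem_nhds h4)] with y l1 l2
      using hab e he y l1 l2
  have h6 := h2 _ _ _ (hu e he w h3 h4).self_of_nhds (hv e he w h3 h4).self_of_nhds
    (ht.hol e he w h3 h4).self_of_nhds h5
  obtain ⟨l1, l2⟩ := h1 (t e)
  rw [k2 _ _ _ _ ht e he w h3 h4, ← mul_pow]
  refine pow_le_pow_left₀ (mul_nonneg (norm_nonneg _)
    (nonneg_of_mul_nonneg_right ((sq_nonneg _).trans l2) C0)) ?_ 2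
  refine (mul_le_mul_of_nonneg_left l1 (norm_nonneg _)).trans ?_
  rw [mul_left_comm]
  exact mul_le_mul_of_nonneg_left h6 C0.le

end Pool.Agent.Lib.KT
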