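import Pool.Agent.Lib.KT.Blue
import Pool.Agent.Lib.HS32.MAll

/-! Project kt, row FIN. -/

open scoped Classical Topology ContDiff ComplexOrder Matrix ENNReal
open Set MeasureTheory Complex Metric Filter

noncomputable section

namespace Pool.Agent.Lib.KT

open Pool.Agent.Lib.SV (E nsq)
open Pool.Agent.Lib.HS32
open Pool.Agent.Lib.RAA (hq kp kq)
open Pool.Agent.Lib.DM (uv)
open Pool.Agent.Lib.KH (HoK OnK Jo)

namespace FIN

theorem kp0 {n : ℕ} (J : Mat n) (a : (Fin 0 → Fin n) → ℂ) : kp 0 J *ᵥ a = a := by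
  funext I
  simp only [Matrix.mulVec, dotProduct, kp, kq, Matrix.of_apply, Finset.univ_eq_empty,
    Finset.prod_empty, one_mul, Finset.univ_unique, Finset.sum_singleton]
  exact congrArg a (Subsingleton.elim _ _)

end FIN

theorem tFIN (hEXT : St_EXT) (_hKIT : St_KIT) : St_FIN := by
  intro n M _ H b x g hH ⟨hg, C, hC⟩ ⟨y, hy, gy⟩
  have hm := mMU n M H hH
  have := hm.2.1
  obtain ⟨t, t1, t2⟩ := hEXT n M H b.B 0 (x * b.d)
    (fun e z _ => g (e.symm z) * b.ψ e z ^ x) hH ⟨fun e he z hz ho => by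
      filter_upwards [hg e he z hz ho, (b.hol e he z hz ho).1] with w h1 h2
      exact differentiableAt_pi.2 fun _ => h1.mul (h2.pow x),
    fun e he e' he' y h1 h2 ho => by
      rw [FIN.kp0, ← b.law e he e' he' y h1 h2 ho, e.left_inv h1, e'.left_inv h2]
      funext I
      simp only [Pi.smul_apply, smul_eq_mul]
      ring⟩ (by
    refine ne_top_of_le_ne_top ?_ (setLIntegral_mono' (g := fun _ => ENNReal.ofReal C)
      b.B.isOpen_O.measurableSet fun y hy => ENNReal.ofReal_le_ofReal ((le_of_eq ?_).trans (hC y hy)))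
    · rw [setLIntegral_const]
      exact ENNReal.mul_ne_top ENNReal.ofReal_ne_top (measure_ne_top _ _)
    · simp only [nv, Tq, Ba.T, Mf.ev, uv, hq, FIN.kp0, Mf.ch_symm, dotProduct, Finset.univ_unique,
        Finset.sum_singleton, Pi.star_apply, pow_zero, mul_one, div_pow, ← pow_mul]
      rw [mul_comm (star _), Complex.star_def, Complex.mul_conj, ofReal_re, map_mul, map_pow,
        mul_comm b.d, mul_div_assoc])
  have hol : M.All fun e z => HolN (fun w => t e w Fin.elim0) z := fun e he z hz =>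
    (t1.hol e he z hz trivial).mono fun w hw => differentiableAt_pi.1 hw _
  obtain ⟨c1, c2⟩ := (mTR n M).1 y
  have c3 := (M.ch y).map_source c2
  have c4 : (M.ch y).symm (M.ch y y) ∈ b.B.O := by rwa [(M.ch y).left_inv c2]
  refine ⟨fun e z => t e z Fin.elim0, ⟨⟨fun e he z hz => ((mHOL n _ _).2.2 (hol e he z hz)).1,
    fun e he e' he' y h1 h2 => ?_⟩, fun e he z hz => (hol e he z hz).self_of_nhds⟩,
    _, c1, _, c3, ?_⟩
  · have := congrFun (t1.law e he e' he' y h1 h2 trivial) Fin.elim0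
    rw [FIN.kp0, Pi.smul_apply, smul_eq_mul, mul_comm] at this
    exact this.symm
  · beta_reduce
    rw [t2 _ c1 _ c3 c4, (M.ch y).left_inv c2]
    exact mul_ne_zero gy (pow_ne_zero _ (b.hol _ c1 _ c3 c4).2)

end Pool.Agent.Lib.KT
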