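import Pool.Agent.Lib.KT.Blue

/-! The refinement of the base. -/

open scoped Classical Topology ContDiff ComplexOrder Matrix ENNReal
open Set MeasureTheory Complex Metric Filter

noncomputable section

namespace Pool.Agent.Lib.KT

open Pool.Agent.Lib.HS32
open Pool.Agent.Lib.KH (HoK OnK)

namespace REF

theorem bd90 {n : ℕ} {M : Mf n} {O O' : Set M.X} {w w' : M.X → ℝ} {f : M.X → ℂ} {K : ℝ}
    (h : Bd O w f) (hO : O' ⊆ O) (hK : 0 ≤ K) (hw : ∀ y ∈ O', w' y ≤ K * w y) : Bd O' w' f := by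
  obtain ⟨h1, C, h2⟩ := h
  refine ⟨fun e he z hz hx => h1 e he z hz (hO hx), K * C, fun y hy => ?_⟩
  calc normSq (f y) * w' y ≤ normSq (f y) * (K * w y) :=
        mul_le_mul_of_nonneg_left (hw y hy) (normSq_nonneg _)
    _ = K * (normSq (f y) * w y) := by ring
    _ ≤ K * C := mul_le_mul_of_nonneg_left (h2 y (hO hy)) hK

end REF

open REF in
theorem tREF (hSCL : St_SCL) (hKIT : St_KIT) : St_REF := by
  intro n M _ H b ρ hH
  obtain ⟨-, -, -, k4, k5⟩ := hKIT n M H hH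
  obtain ⟨⟨R, R0, hR⟩, -, -⟩ := hSCL n M H ρ hH
  obtain ⟨-, -, σ, ε, ε0, s1, s2, s3, s4⟩ := hSCL n M H ((b.B.pw (ρ.N + 1)).mul ρ) hH
  obtain ⟨n1, n2⟩ := (hSCL n M H b.B hH).2.1 (ρ.N + 1)
  have hO : σ.O = b.O ∩ ρ.O := by rw [s3, Tn.O_mul, (b.B.O_pw ρ.N).2]
  have hp : ∀ y, σ.pn H y = ε * (b.p y ^ (ρ.N + 1) * ρ.pn H y) := fun y => by
    rw [(s4 y).1, Tn.pn_mul _ _ hH, Tn.pn_pw _ hH]
  have p0 : ∀ y, 0 ≤ b.p y := (b.B.pn_rep hH).2.2.1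
  have r0 : ∀ y, 0 ≤ ρ.pn H y := (ρ.pn_rep hH).2.2.1
  have q0 : ∀ y, 0 ≤ σ.pn H y := (σ.pn_rep hH).2.2.1
  have a1 : ∀ y, σ.pn H y ≤ ε * ρ.pn H y := fun y => (hp y).trans_le (mul_le_mul_of_nonneg_left
    (mul_le_of_le_one_left (r0 y) (pow_le_one₀ (p0 y) (b.le1 y))) ε0.le)
  have a2 : ∀ y, σ.pn H y ≤ ε * R * b.p y := fun y => by
    rw [hp y, mul_assoc, mul_comm R]
    exact mul_le_mul_of_nonneg_left (mul_le_mul (pow_le_of_le_one (p0 y) (b.le1 y)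
      (Nat.succ_ne_zero _)) (hR y) (r0 y) (p0 y)) ε0.le
  have K0 : 0 ≤ ε * R := (mul_pos ε0 R0).le
  have o1 : σ.O ⊆ b.O := hO.le.trans inter_subset_left
  have o2 : σ.O ⊆ ρ.O := hO.le.trans inter_subset_right
  have gm : ∀ x c g, b.Gm x c g → Bd σ.O (fun y => b.T y ^ x * σ.pn H y ^ c) g := fun x c g h =>
    bd90 h o1 (pow_nonneg K0 c) fun y hy => by
      rw [mul_left_comm, ← mul_pow]
      exact mul_le_mul_of_nonneg_left (pow_le_pow_left₀ (q0 y) (a2 y) c)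
        (pow_nonneg ((k5 b).1 y (o1 hy)).2.le x)
  refine ⟨⟨b.d, b.ψ, σ, b.c, b.d0, fun e he z hz hx => b.hol e he z hz (o1 hx),
    fun e he e' he' x hx hx' h => b.law e he e' he' x hx hx' (o1 h), ?_, fun y => (s4 y).2, ?_,
    fun J => ?_⟩, ρ.N + 1, ⟨rfl, rfl, Nat.succ_pos _, hO, ε, ε0, hp⟩, gm, fun g h => ?_,
    fun k z h => ⟨fun x hx => h.1 x (o2 hx), fun e he w hw => ?_⟩⟩
  · have h := Nat.mul_le_mul_left (ρ.N + 1) (Nat.succ_le_of_lt b.nb)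
    rw [s1, s2]
    show (b.B.pw (ρ.N + 1)).N + ρ.N < (b.B.pw (ρ.N + 1)).B + ρ.B
    rw [n1, n2]
    rw [Nat.mul_succ] at h
    omega
  · obtain ⟨C, hC⟩ := b.low
    exact ⟨ε * R * C, fun y hy => (a2 y).trans ((mul_le_mul_of_nonneg_left (hC y (o1 hy)) K0).trans_eq
      (mul_assoc _ _ _).symm)⟩
  · obtain ⟨j, hj, γ, h1, y, hy, h2⟩ := b.ai J
    refine ⟨j, hj, γ, gm j b.c γ h1, by_contra fun c => h2 ?_⟩
    refine k4 b.O γ (fun _ => 0) ρ b.B.isOpen_O h1.1 (fun _ _ _ _ _ => Eventually.of_forall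
      fun _ => differentiableAt_const _) (fun y hy => by_contra fun h => c ⟨y, hO.ge hy, h⟩) y hy
  · exact bd90 h o2 ε0.le fun y _ => by
      rw [pow_zero, one_mul, pow_one]
      exact a1 y
  · obtain ⟨C, hC⟩ := h.2 e he w hw
    refine ⟨ε * C, hC.mono fun v hv hx a => ?_⟩
    calc ‖a‖ ^ 2 * σ.pn H (e.symm v) ≤ ‖a‖ ^ 2 * (ε * ρ.pn H (e.symm v)) :=
          mul_le_mul_of_nonneg_left (a1 _) (sq_nonneg _)
      _ = ε * (‖a‖ ^ 2 * ρ.pn H (e.symm v)) := by ring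
      _ ≤ _ := (mul_le_mul_of_nonneg_left (hv (o2 hx) a) ε0.le).trans_eq (mul_assoc _ _ _).symm

end Pool.Agent.Lib.KT
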