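import Pool.Agent.Lib.KT.B_AIC
import Pool.Agent.Lib.KT.B_BS
import Pool.Agent.Lib.KT.B_CHG
import Pool.Agent.Lib.KT.B_COE
import Pool.Agent.Lib.KT.B_CRM
import Pool.Agent.Lib.KT.B_DCO
import Pool.Agent.Lib.KT.B_DRV
import Pool.Agent.Lib.KT.B_EXL
import Pool.Agent.Lib.KT.B_EXT
import Pool.Agent.Lib.KT.B_FIB
import Pool.Agent.Lib.KT.B_FIN
import Pool.Agent.Lib.KT.B_FLD
import Pool.Agent.Lib.KT.B_JQ
import Pool.Agent.Lib.KT.B_KIT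
import Pool.Agent.Lib.KT.B_LAM
import Pool.Agent.Lib.KT.B_LT
import Pool.Agent.Lib.KT.B_MIN
import Pool.Agent.Lib.KT.B_MOD
import Pool.Agent.Lib.KT.B_NEG
import Pool.Agent.Lib.KT.B_NUM
import Pool.Agent.Lib.KT.B_PDT
import Pool.Agent.Lib.KT.B_POL
import Pool.Agent.Lib.KT.B_PSI
import Pool.Agent.Lib.KT.B_QUO
import Pool.Agent.Lib.KT.B_RAT
import Pool.Agent.Lib.KT.B_REF
import Pool.Agent.Lib.KT.B_RIE
import Pool.Agent.Lib.KT.B_RK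
import Pool.Agent.Lib.KT.B_SCL
import Pool.Agent.Lib.KT.B_SIW
import Pool.Agent.Lib.KT.B_ST1
import Pool.Agent.Lib.KT.B_SYS
import Pool.Agent.Lib.KT.B_TEN
import Pool.Agent.Lib.KT.B_TT
import Pool.Agent.Lib.KT.B_TUB
import Pool.Agent.Lib.KT.B_VAL
import Pool.Agent.Lib.KT.B_WED
import Pool.Agent.Lib.KT.B_WRG
import Pool.Agent.Lib.KT.B_WRO

/-! Project kt, assembled. -/

namespace Pool.Agent.Lib.KT

theorem aEXT : St_EXT := tEXT tEXL tKIT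
theorem aNUM : St_NUM := tNUM aEXT
theorem aTEN : St_TEN := tTEN tKIT aEXT tTT
theorem aNEG : St_NEG := tNEG tPOL
theorem aREF : St_REF := tREF tSCL tKIT
theorem aWRG : St_WRG := tWRG (tWRO tKIT) tTT aEXT aNUM
theorem aWED : St_WED := tWED tMIN aWRG aEXT aNUM tKIT tSCL
theorem aCRM : St_CRM := tCRM tLAM
theorem aPSI : St_PSI := tPSI tQUO tSCL
theorem aBS : St_BS := tBS tKIT aNEG aTEN (tLT tKIT)
theorem aCHG : St_CHG := tCHG aTEN aREF (tRIE tEXL) tKIT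
theorem aSYS : St_SYS := tSYS aTEN tKIT
theorem aMOD : St_MOD := tMOD aTEN aNEG tKIT
theorem aRK : St_RK := tRK aNUM
theorem aFIB : St_FIB := tFIB aWED tJQ (tPDT aNEG aNUM tPOL tKIT) aNEG tSCL
theorem aRAT : St_RAT := tRAT
theorem aVAL : St_VAL := tVAL aTEN tKIT
theorem aEX1 : St_EX1 := tEX1 aNUM
theorem aFIN : St_FIN := tFIN aEXT tKIT

theorem aST1 (hGEN : KC.St_GEN) (hDER : KBE.St_DER) : St_ST1 :=
  tST1 (tFLD aNUM tSCL) (tSIW aNUM) aRK aREF aWED aBS (tAIC (tTUB aTEN) aTEN) aSYS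
    (tDRV tCOE aWRG tKIT) (tDCO tCOE aWRG aTEN tKIT) aTEN hGEN hDER

end Pool.Agent.Lib.KT
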