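import Pool.Agent.Lib.KT.Top

/-! Project kt, row TRF: transfer of the field conditions to a larger system. -/

open Set

noncomputable section

namespace Pool.Agent.Lib.KT

namespace TRF

variable {F : Type} [Field F] [Algebra ℂ F]

theorem ind (K : IntermediateField ℂ F) (k w : ℕ) (t : Fin k → K) (z : Fin w → F)
    (ht : AlgebraicIndependent ℂ t) (hz : AlgebraicIndependent K z) :
    AlgebraicIndependent ℂ (Fin.append (fun i => (t i : F)) z) := by
  have h1 := (ht.sumElim_comp hz).comp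
    (fun i => Sum.swap (finSumFinEquiv.symm i))
    (Sum.swap_leftInverse.injective.comp finSumFinEquiv.symm.injective)
  have h2 : Fin.append (fun i => (t i : F)) z =
      Sum.elim z (algebraMap K F ∘ t) ∘ fun i => Sum.swap (finSumFinEquiv.symm i) := by
    funext i
    refine Fin.addCases (fun j => ?_) (fun j => ?_) i
    · simp
    · simp
  rw [h2]
  exact h1

theorem adj (K : IntermediateField ℂ F) (σ τ : Type) (s : σ → F) (h : τ → F)
    (hs : IntermediateField.adjoin ℂ (range s) = K)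
    (hh : IntermediateField.adjoin K (range h) = ⊤) :
    IntermediateField.adjoin ℂ (range (Sum.elim s h)) = ⊤ := by
  subst hs
  rw [Set.Sum.elim_range, ← IntermediateField.adjoin_adjoin_left, hh,
    IntermediateField.restrictScalars_top]

theorem deg (K : IntermediateField ℂ F) (G G' : ℕ → ℕ → Submodule ℂ F) (q : F) (m : ℕ)
    (hq : q ≠ 0) (hm : ∀ x c, ∀ u ∈ G' x c, q ^ c * u ∈ G x (m * c)) (τ : Type) (h : τ → F)
    (hD : KBE.Deg K G h) : KBE.Deg K G' h := by
  intro c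
  obtain ⟨n, hn⟩ := hD (m * c)
  refine ⟨n, fun x u hu v hv hv0 => ?_⟩
  obtain ⟨P, Q, hP, hQ, hQ0, he⟩ := hn x _ (hm x c u hu) _ (hm x c v hv)
    (mul_ne_zero (pow_ne_zero c hq) hv0)
  refine ⟨P, Q, hP, hQ, hQ0, mul_left_cancel₀ (pow_ne_zero c hq) ?_⟩
  rw [← mul_assoc, ← mul_assoc]
  exact he

end TRF

theorem tTRF : St_TRF := by
  intro F _ _ K
  refine ⟨TRF.ind K, TRF.adj K, fun G G' hG => ⟨fun hF f => ?_, fun R τ s l m hC => ?_,
    TRF.deg K G G'⟩⟩
  · obtain ⟨a, q, hq, hq0, hf⟩ := hF f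
    exact ⟨a, q, hG 0 a hq, hq0, hG 0 a hf⟩
  · obtain ⟨Q, Om, e, hO, hO0, he, hp⟩ := hC
    refine ⟨Q, Om, e, hG Q l hO, hO0, he, fun p hpe => ?_⟩
    obtain ⟨M, N, H, d, hH, hrest⟩ := hp p hpe
    exact ⟨M, N, H, d, fun j => hG Q l (hH j), hrest⟩

end Pool.Agent.Lib.KT
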