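import Pool.Agent.Lib.KT.Defs
import Pool.Agent.Lib.SIE.Defs
import Pool.Agent.Lib.KBE.Blue

/-! Project kt: the field of quotients of tensors and the graded system. Blueprint. -/

open scoped Classical Topology ContDiff ComplexOrder Matrix ENNReal
open Set MeasureTheory Complex Metric Filter

set_option linter.unusedVariables false

noncomputable section

namespace Pool.Agent.Lib.KT

open Pool.Agent.Lib.SV (E nsq)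
open Pool.Agent.Lib.HS32
open Pool.Agent.Lib.RAA (kp)
open Pool.Agent.Lib.DM (uv)
open Pool.Agent.Lib.K3E (Tw)
open Pool.Agent.Lib.KH (HoK SmK OnK Jo Pol)
open Pool.Agent.Lib.SIE (Rk Mr)

section defs

variable {n : ℕ} {M : Mf n}

/-- A holomorphic tensor over `O`. -/
structure Lt (O : Set M.X) (N B : ℕ) (s : M.Fam ((Fin N → Fin n) → ℂ)) : Prop where
  hol : OnK M O fun e z => HolN (s e) z
  law : M.Ov fun e e' x => x ∈ O →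
    (M.J e e' x).det ^ B • s e (e x) = kp N (M.J e e' x) *ᵥ s e' (e' x)

/-- The squared norm of a family. -/
def nv (H : M.Fam (Mat n)) (B : ℕ) {N : ℕ} (s : M.Fam ((Fin N → Fin n) → ℂ)) : M.X → ℝ :=
  M.ev fun e => uv N B (H e) (s e)

/-- The squared norm of a pluricanonical family. -/
def Tq (H : M.Fam (Mat n)) (d : ℕ) (ψ : M.Fam ℂ) : M.X → ℝ :=
  M.ev fun e z => normSq (ψ e z) / (H e z).det.re ^ d

/-- A quotient of tensors. -/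
def Mer (H : M.Fam (Mat n)) (f : M.X → ℂ) : Prop := ∃ τ : Tn M, Bd τ.O (τ.pn H) f

/-- Bounded over `O` near every point of every chart. -/
def LB (O : Set M.X) (φ : M.Fam ℝ) : Prop :=
  M.All fun e z => ∃ C, ∀ᶠ w in 𝓝 z, e.symm w ∈ O → φ e w ≤ C

/-- The differential in a chart. -/
abbrev df (f : M.X → ℂ) (e : M.Ch) (w : E n) : E n →L[ℂ] ℂ := fderiv ℂ (f ∘ e.symm) w

/-- The differentials are independent on `O`, with the loss `p`. -/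
def Iv (O : Set M.X) (p : M.X → ℝ) {k : ℕ} (z : Fin k → M.X → ℂ) : Prop :=
  (∀ x ∈ O, Rk M z x) ∧ M.All fun e w₀ => ∃ C, ∀ᶠ w in 𝓝 w₀, e.symm w ∈ O → ∀ a : Fin k → ℂ,
    ‖a‖ ^ 2 * p (e.symm w) ≤ C * ‖∑ i, a i • df (z i) e w‖ ^ 2

/-- The chain rule on `O`. -/
def Chn (O : Set M.X) {k : ℕ} (z : Fin k → M.X → ℂ) (f : M.X → ℂ) (g : Fin k → M.X → ℂ) : Prop :=
  OnK M O fun e w => df f e w = ∑ i, g i (e.symm w) • df (z i) e w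

/-- The polynomial relation holds on `O`. -/
def Alg (O : Set M.X) {k : ℕ} (z : Fin k → M.X → ℂ) (f : M.X → ℂ) : Prop :=
  ∃ P : Polynomial (MvPolynomial (Fin k) ℂ), P ≠ 0 ∧
    ∀ x ∈ O, P.eval₂ (MvPolynomial.eval fun j => z j x) (f x) = 0

/-- Proportional tensors of unbounded level. -/
structure Pro (N : ℕ) (b : ℕ → ℕ) (s : ℕ → M.Fam ((Fin N → Fin n) → ℂ)) : Prop where
  mono : StrictMono b
  tw : ∀ i, Tw M (fun e e' x => kp N (M.J e e' x)) (b i) (s i)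
  pro : ∀ i j, M.All fun e z => ∀ I I', s i e z I * s j e z I' = s i e z I' * s j e z I

/-- The field of quotients. -/
structure Fm (H : M.Fam (Mat n)) (A : Subalgebra ℂ (M.X → ℂ)) {F : Type} [Field F] [Algebra ℂ F]
    (ev : A →ₐ[ℂ] F) : Prop where
  mem : ∀ f, f ∈ A ↔ Mer H f
  ker : ∀ f : A, ev f = 0 ↔ ∃ τ : Tn M, ∀ x ∈ τ.O, f.1 x = 0
  sur : Function.Surjective ev

variable (M) in
/-- The base: a pluricanonical form without zeros and poles off the zeros of a tensor. -/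
structure Ba (H : M.Fam (Mat n)) where
  d : ℕ
  ψ : M.Fam ℂ
  B : Tn M
  c : ℕ
  d0 : 0 < d
  hol : OnK M B.O fun e z => HolN (ψ e) z ∧ ψ e z ≠ 0
  law : M.Ov fun e e' x => x ∈ B.O → (M.J e e' x).det ^ d * ψ e (e x) = ψ e' (e' x)
  nb : B.N < B.B
  le1 : ∀ y, B.pn H y ≤ 1
  low : ∃ C, ∀ y ∈ B.O, B.pn H y ≤ C * Tq H d ψ y
  ai : ∀ J, ∃ j ≥ J, ∃ γ, Bd B.O (fun y => Tq H d ψ y ^ j * B.pn H y ^ c) γ ∧ ∃ y ∈ B.O, γ y ≠ 0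

namespace Ba

variable {H : M.Fam (Mat n)} (b : Ba M H)

/-- The open set. -/
abbrev O : Set M.X := b.B.O

/-- The norm of the form. -/
abbrev T : M.X → ℝ := Tq H b.d b.ψ

/-- The norm of the denominator. -/
abbrev p : M.X → ℝ := b.B.pn H

/-- Level `x`, cost `c`. -/
abbrev Gm (x c : ℕ) (g : M.X → ℂ) : Prop := Bd b.O (fun y => b.T y ^ x * b.p y ^ c) g

/-- The system in the field. -/
def IsG {A : Subalgebra ℂ (M.X → ℂ)} {F : Type} [Field F] [Algebra ℂ F] (ev : A →ₐ[ℂ] F)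
    (G : ℕ → ℕ → Submodule ℂ F) : Prop :=
  ∀ x c u, u ∈ G x c ↔ ∃ f : A, b.Gm x c f.1 ∧ ev f = u

/-- The base `b'` has the denominator of `b` to the power `m` times `ρ`. -/
def Ref (b' : Ba M H) (ρ : Tn M) (m : ℕ) : Prop := b'.d = b.d ∧ b'.ψ = b.ψ ∧ 0 < m ∧
  b'.O = b.O ∩ ρ.O ∧ ∃ ε > (0 : ℝ), ∀ y, b'.p y = ε * (b.p y ^ m * ρ.pn H y)

/-- The functions of the field that are holomorphic on the open set. -/
structure Md {A : Subalgebra ℂ (M.X → ℂ)} {F : Type} [Field F] [Algebra ℂ F] (ev : A →ₐ[ℂ] F)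
    (G : ℕ → ℕ → Submodule ℂ F) (R : Subalgebra ℂ F) (fn : R →ₐ[ℂ] (M.X → ℂ)) : Prop where
  frc : ∀ f : F, ∃ v ∈ R, v ≠ 0 ∧ v * f ∈ R
  ae : ∀ f : R, f ≠ 0 → ∀ᵐ y ∂M.mu H, fn f y ≠ 0
  inj : ∀ f : R, (∀ y ∈ b.O, fn f y = 0) → f = 0
  mem : ∀ x c (f : F), f ∈ G x c ↔ ∃ h : f ∈ R, b.Gm x c (fn ⟨f, h⟩)
  sur : ∀ x c u, b.Gm x c u → ∃ f : R, ∀ y ∈ b.O, fn f y = u y
  rep : ∀ f : R, ∃ h : fn f ∈ A, ev ⟨fn f, h⟩ = f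

end Ba

end defs

/-! ### Tensors -/

/-- Extension across a thin set. -/
def St_EXL : Prop := ∀ (n : ℕ) (U S : Set (E n)) (f : E n → ℂ), IsOpen U → IsOpen S → S ⊆ U →
  DifferentiableOn ℂ f S → (∀ w₀ ∈ U, ∃ j : E n → ℂ, HolN j w₀ ∧ (∃ᶠ w in 𝓝 w₀, j w ≠ 0) ∧
    (∀ᶠ w in 𝓝 w₀, j w ≠ 0 → w ∈ S) ∧
    ∃ V ∈ 𝓝 w₀, ∫⁻ w in V ∩ S, ENNReal.ofReal (‖f w‖ ^ 2) ≠ ⊤) →
  ∃ g, DifferentiableOn ℂ g U ∧ EqOn g f S

/-- Norms in a chart; local bounds. -/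
def St_KIT : Prop := ∀ (n : ℕ) (M : Mf n) [M.Cpt] (H : M.Fam (Mat n)), M.Met H →
  (∀ N B, M.All fun e w₀ => ∃ C > (0 : ℝ), ∀ᶠ w in 𝓝 w₀, ∀ s : E n → (Fin N → Fin n) → ℂ,
    uv N B (H e) s w ≤ C * ‖s w‖ ^ 2 ∧ ‖s w‖ ^ 2 ≤ C * uv N B (H e) s w) ∧
  (∀ O N B s, Lt O N B s → OnK M O fun e z => nv H B s (e.symm z) = uv N B (H e) (s e) z) ∧
  (∀ (O : Set M.X) (φ : M.X → ℝ), (LB O fun e w => φ (e.symm w)) → ∃ C, ∀ y ∈ O, φ y ≤ C) ∧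
  (∀ (O : Set M.X) (f g : M.X → ℂ) (τ : Tn M), IsOpen O → HoK M O f → HoK M O g →
    (∀ y ∈ O ∩ τ.O, f y = g y) → ∀ y ∈ O, f y = g y) ∧
  ∀ b : Ba M H, (∀ y ∈ b.O, 0 < b.p y ∧ 0 < b.T y) ∧ ContinuousOn b.T b.O ∧
    OnK M b.O fun e z => b.T (e.symm z) = normSq (b.ψ e z) / (H e z).det.re ^ b.d

/-- Square integrable tensors extend. -/
def St_EXT : Prop := ∀ (n : ℕ) (M : Mf n) [M.Cpt] (H : M.Fam (Mat n)) (ρ : Tn M) (N B : ℕ)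
  (s : M.Fam ((Fin N → Fin n) → ℂ)), M.Met H → Lt ρ.O N B s → Jo M H ρ.O (nv H B s) ≠ ⊤ →
  ∃ t, Lt univ N B t ∧ OnK M ρ.O fun e z => t e z = s e z

/-- The tensor of a level and a cost. -/
def St_TT : Prop := ∀ (n : ℕ) (M : Mf n) [M.Cpt] (H : M.Fam (Mat n)) (b : Ba M H) (x c : ℕ),
  M.Met H → ∃ (N B : ℕ) (t : M.Fam ((Fin N → Fin n) → ℂ)), ∀ g, HoK M b.O g →
    Lt b.O N B (fun e z => g (e.symm z) • t e z) ∧ ∀ y ∈ b.O,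
      nv H B (fun e z => g (e.symm z) • t e z) y = normSq (g y) * (b.T y ^ x * b.p y ^ c)

/-- Elements of the system are tensors. -/
def St_TEN : Prop := ∀ (n : ℕ) (M : Mf n) [M.Cpt] (H : M.Fam (Mat n)) (b : Ba M H) (x c : ℕ)
  (g : M.X → ℂ), M.Met H →
  (HoK M b.O g → Jo M H b.O (fun y => normSq (g y) * (b.T y ^ x * b.p y ^ c)) ≠ ⊤ → b.Gm x c g) ∧
  (b.Gm x c g → Mer H g ∧ b.Gm 0 (x + c) g ∧ ((∃ y ∈ b.O, g y ≠ 0) → ∃ σ : Tn M,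
    b.O ∩ σ.O = b.O ∩ {y | g y ≠ 0} ∧
    ∀ y ∈ b.O, σ.pn H y = normSq (g y) * (b.T y ^ x * b.p y ^ c)))

/-- The multiples of a tensor. -/
def St_NUM : Prop := ∀ (n : ℕ) (M : Mf n) [M.Cpt] (H : M.Fam (Mat n)) (τ : Tn M) (f : M.X → ℂ),
  M.Met H → Bd τ.O (τ.pn H) f → Mr M f ∧
    ∃ t, Lt univ τ.N τ.B t ∧ OnK M τ.O fun e z => t e z = f (e.symm z) • τ.s e z

/-- Sums of norms have almost plurisubharmonic logarithms. -/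
def St_POL : Prop := ∀ (n : ℕ) (M : Mf n) [M.Cpt] (H : M.Fam (Mat n)) (N B : ℕ), M.Met H →
  ∃ C : ℝ, ∀ (ι : Type) [Fintype ι] (s : ι → M.Fam ((Fin N → Fin n) → ℂ)),
    (∀ i, Lt univ N B (s i)) → M.Sm (fun y => ∑ i, nv H B (s i) y) ∧
      (∀ i y, 0 ≤ nv H B (s i) y) ∧
      ∀ d ∈ Ioc (0 : ℝ) 1, M.Le 0 (C • H + M.hs fun y => Real.log (∑ i, nv H B (s i) y + d))

/-- A negative power is integrable. -/
def St_NEG : Prop := ∀ (n : ℕ) (M : Mf n) [M.Cpt] (H : M.Fam (Mat n)) (τ : Tn M), M.Met H →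
  Pol M H (τ.pn H) ∧ (∀ᵐ y ∂M.mu H, y ∈ τ.O) ∧
    ∃ ε > (0 : ℝ), ∫⁻ y, ENNReal.ofReal (τ.pn H y) ^ (-ε) ∂M.mu H ≠ ⊤

/-- The curvature of the form. -/
def St_LT : Prop := ∀ (n : ℕ) (M : Mf n) [M.Cpt] (H : M.Fam (Mat n)) (b : Ba M H), M.Met H →
  SmK M b.O (fun y => Real.log (b.T y)) ∧
    OnK M b.O fun e z => M.hs (fun y => Real.log (b.T y)) e z = (b.d : ℝ) • M.ric H e z

/-- Bounded functions extend inside the open set. -/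
def St_RIE : Prop := ∀ (n : ℕ) (M : Mf n) [M.Cpt] (O : Set M.X) (ρ : Tn M) (w : M.X → ℝ)
  (f : M.X → ℂ), IsOpen O → ContinuousOn w O → (∀ y ∈ O, 0 < w y) → Bd (O ∩ ρ.O) w f →
  ∃ g, Bd O w g ∧ ∀ y ∈ O ∩ ρ.O, g y = f y

/-- The quotient of two proportional tensors. -/
def St_QUO : Prop := ∀ (n : ℕ) (M : Mf n) [M.Cpt] (H : M.Fam (Mat n)) (N a j : ℕ)
  (s t : M.Fam ((Fin N → Fin n) → ℂ)) (hs : Tw M (fun e e' x => kp N (M.J e e' x)) a s),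
  M.Met H → Tw M (fun e e' x => kp N (M.J e e' x)) (a + j) t →
  (M.All fun e z => ∀ I I', s e z I * t e z I' = s e z I' * t e z I) → ∃ χ : M.Fam ℂ,
    (OnK M (Tn.mk N a s hs).O fun e z => HolN (χ e) z ∧ t e z = χ e z • s e z) ∧
    (M.Ov fun e e' x => x ∈ (Tn.mk N a s hs).O →
      (M.J e e' x).det ^ j * χ e (e x) = χ e' (e' x)) ∧
    ∀ y ∈ (Tn.mk N a s hs).O, nv H (a + j) t y = Tq H j χ y * nv H a s y

/-- Small multiples. -/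
def St_SCL : Prop := ∀ (n : ℕ) (M : Mf n) [M.Cpt] (H : M.Fam (Mat n)) (τ : Tn M), M.Met H →
  (∃ C > (0 : ℝ), ∀ y, τ.pn H y ≤ C) ∧ (∀ k, (τ.pw k).N = k * τ.N ∧ (τ.pw k).B = k * τ.B) ∧
  ∃ (σ : Tn M) (ε : ℝ), 0 < ε ∧ σ.N = τ.N ∧ σ.B = τ.B ∧ σ.O = τ.O ∧
    ∀ y, σ.pn H y = ε * τ.pn H y ∧ σ.pn H y ≤ 1

/-- The first base. -/
def St_PSI : Prop := ∀ (n : ℕ) (M : Mf n) [M.Cpt] (H : M.Fam (Mat n)) (N : ℕ) (a : ℕ → ℕ)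
  (s : ℕ → M.Fam ((Fin N → Fin n) → ℂ)), M.Met H → Pro N a s →
  ∃ b : Ba M H, ∀ y ∈ b.O, M.ev (s 0) y ≠ 0

/-- The refinement of the base. -/
def St_REF : Prop := ∀ (n : ℕ) (M : Mf n) [M.Cpt] (H : M.Fam (Mat n)) (b : Ba M H) (ρ : Tn M),
  M.Met H → ∃ b' m, b.Ref b' ρ m ∧ (∀ x c g, b.Gm x c g → b'.Gm x c g) ∧
    (∀ g, Bd ρ.O (ρ.pn H) g → b'.Gm 0 1 g) ∧
    ∀ k (z : Fin k → M.X → ℂ), Iv ρ.O (ρ.pn H) z → Iv b'.O b'.p z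

/-- The section at the end. -/
def St_FIN : Prop := ∀ (n : ℕ) (M : Mf n) [M.Cpt] (H : M.Fam (Mat n)) (b : Ba M H) (x : ℕ)
  (g : M.X → ℂ), M.Met H → b.Gm x 0 g → (∃ y ∈ b.O, g y ≠ 0) →
  ∃ t, M.HSec (x * b.d) t ∧ ∃ e ∈ M.C, ∃ z ∈ e.target, t e z ≠ 0

/-! ### Differentials -/

/-- Wronskians are bounded. -/
def St_WRO : Prop := ∀ (n : ℕ) (M : Mf n) [M.Cpt] (H : M.Fam (Mat n)) (ρ : Tn M) (N B : ℕ)
  (t a b : M.Fam ((Fin N → Fin n) → ℂ)) (u v : M.X → ℂ), M.Met H → Lt ρ.O N B t →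
  HoK M ρ.O u → HoK M ρ.O v → Lt univ N B a → Lt univ N B b →
  (OnK M ρ.O fun e z => a e z = u (e.symm z) • t e z ∧ b e z = v (e.symm z) • t e z) →
  LB ρ.O fun e w => ‖u (e.symm w) • df v e w - v (e.symm w) • df u e w‖ ^ 2 *
    nv H B t (e.symm w) ^ 2

/-- The differential of a quotient and the Wronskians of the system. -/
def St_WRG : Prop := ∀ (n : ℕ) (M : Mf n) [M.Cpt] (H : M.Fam (Mat n)), M.Met H →
  (∀ (τ : Tn M) (f : M.X → ℂ), Bd τ.O (τ.pn H) f →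
    LB τ.O fun e w => ‖df f e w‖ ^ 2 * τ.pn H (e.symm w) ^ 2) ∧
  ∀ (b : Ba M H) (x c : ℕ) (u v : M.X → ℂ), b.Gm x c u → b.Gm x c v →
    LB b.O fun e w => ‖u (e.symm w) • df v e w - v (e.symm w) • df u e w‖ ^ 2 *
      (b.T (e.symm w) ^ (2 * x) * b.p (e.symm w) ^ (2 * c))

/-- The minors of a matrix of covectors. -/
def St_MIN : Prop := ∀ k m : ℕ, ∃ Δ : (Fin k → E (k + m) →L[ℂ] ℂ) → (Fin m → Fin (k + m)) → ℂ,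
  (∀ L, Differentiable ℂ fun a => Δ a L) ∧
  (∀ (a : Fin k → E (k + m) →L[ℂ] ℂ) (c : Fin k → ℂ), Δ (fun i => c i • a i) = (∏ i, c i) • Δ a) ∧
  (∀ (a a' : Fin k → E (k + m) →L[ℂ] ℂ) (J : Mat (k + m)), (∀ i v, a' i v = a i (J *ᵥ v)) →
    J.det • Δ a = kp m J *ᵥ Δ a') ∧
  (∀ a : Fin k → E (k + m) →L[ℂ] ℂ, Δ a ≠ 0 ↔ Function.Surjective (ContinuousLinearMap.pi a)) ∧
  ∃ C : ℝ, ∀ (a : Fin k → E (k + m) →L[ℂ] ℂ) (c : Fin k → ℂ),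
    ‖c‖ * ‖Δ a‖ ≤ C * (1 + ‖a‖) ^ k * ‖∑ i, c i • a i‖

/-- The wedge of the differentials is a tensor. -/
def St_WED : Prop := ∀ (n : ℕ) (M : Mf n) [M.Cpt] (H : M.Fam (Mat n)) (k : ℕ)
  (z : Fin k → M.X → ℂ), M.Met H → (∀ i, Mer H (z i)) → (∃ x, Rk M z x) →
  ∃ ρ : Tn M, (∀ i, Bd ρ.O (ρ.pn H) (z i)) ∧ Iv ρ.O (ρ.pn H) z

/-- The coefficients of a differential. -/
def St_COE : Prop := ∀ (n : ℕ) (M : Mf n) (O : Set M.X) (k : ℕ) (z : Fin k → M.X → ℂ)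
  (f : M.X → ℂ), IsOpen O → (∀ x ∈ O, Rk M z x) → HoK M O f →
  (∀ x, ¬Rk M (Fin.cons f z) x) → (∃ g, (∀ i, HoK M O (g i)) ∧ Chn O z f g) ∧
    ∀ g g', Chn O z f g → Chn O z f g' → ∀ i, ∀ y ∈ O, g i y = g' i y

/-! ### The field -/

/-- The field exists. -/
def St_FLD : Prop := ∀ (n : ℕ) (M : Mf n) [M.Cpt] (H : M.Fam (Mat n)), M.Met H →
  ∃ (A : Subalgebra ℂ (M.X → ℂ)) (F : Type) (_ : Field F) (_ : Algebra ℂ F) (ev : A →ₐ[ℂ] F),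
    Fm H A ev

/-- Algebraic independence is independence of the differentials. -/
def St_RK : Prop := ∀ (n : ℕ) (M : Mf n) [M.Cpt] (H : M.Fam (Mat n))
  (A : Subalgebra ℂ (M.X → ℂ)) (F : Type) [Field F] [Algebra ℂ F] (ev : A →ₐ[ℂ] F) (k : ℕ)
  (z : Fin k → A), M.Met H → Fm H A ev →
  ((AlgebraicIndependent ℂ fun i => ev (z i)) ↔ ∃ x, Rk M (fun i => (z i).1) x) ∧
  (IsTranscendenceBasis ℂ (fun i => ev (z i)) → ∀ f : A,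
    (∀ x, ¬Rk M (Fin.cons f.1 fun i => (z i).1) x) ∧ ∀ O, IsOpen O → HoK M O f.1 →
      (∀ i, HoK M O (z i).1) → Alg O (fun i => (z i).1) f.1)

/-- The field is finitely generated. -/
def St_SIW : Prop := ∀ (n : ℕ) (M : Mf n) [M.Cpt] (H : M.Fam (Mat n))
  (A : Subalgebra ℂ (M.X → ℂ)) (F : Type) [Field F] [Algebra ℂ F] (ev : A →ₐ[ℂ] F),
  M.Met H → Fm H A ev → Algebra.EssFiniteType ℂ F ∧ ∃ (k : ℕ) (z : Fin k → A) (θ : A),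
    IsTranscendenceBasis ℂ (fun i => ev (z i)) ∧ ∀ f : F,
      ∃ P Q : MvPolynomial (Option (Fin k)) ℂ,
        MvPolynomial.aeval (fun o => ev (o.elim θ z)) Q ≠ 0 ∧
        MvPolynomial.aeval (fun o => ev (o.elim θ z)) Q * f =
          MvPolynomial.aeval (fun o => ev (o.elim θ z)) P

/-- The dual derivations. -/
def St_DRV : Prop := ∀ (n : ℕ) (M : Mf n) [M.Cpt] (H : M.Fam (Mat n))
  (A : Subalgebra ℂ (M.X → ℂ)) (F : Type) [Field F] [Algebra ℂ F] (ev : A →ₐ[ℂ] F) (k : ℕ)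
  (z : Fin k → A) (ρ : Tn M), M.Met H → Fm H A ev → Iv ρ.O (ρ.pn H) (fun i => (z i).1) →
  (∀ (f : A) x, ¬Rk M (Fin.cons f.1 fun i => (z i).1) x) →
  ∃ D : Fin k → Derivation ℂ F F, (∀ i j, D i (ev (z j)) = if i = j then 1 else 0) ∧
    ∀ f : A, ∃ (g : Fin k → A) (τ : Tn M), (∀ i, D i (ev f) = ev (g i)) ∧
      Chn τ.O (fun i => (z i).1) f.1 fun i => (g i).1

/-- The system. -/
def St_SYS : Prop := ∀ (n : ℕ) (M : Mf n) [M.Cpt] (H : M.Fam (Mat n))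
  (A : Subalgebra ℂ (M.X → ℂ)) (F : Type) [Field F] [Algebra ℂ F] (ev : A →ₐ[ℂ] F) (b : Ba M H),
  M.Met H → Fm H A ev → ∃ G, b.IsG ev G ∧
    (∀ c0, (∀ x, ∃ g, b.Gm x c0 g ∧ ∃ y ∈ b.O, g y ≠ 0) → KBE.Sys G c0) ∧
    ∀ (τ : Type) (h : τ → A), (∀ i, b.Gm 0 1 (h i).1) → (∀ f : F, ∃ P Q : MvPolynomial τ ℂ,
      MvPolynomial.aeval (fun i => ev (h i)) Q ≠ 0 ∧ MvPolynomial.aeval (fun i => ev (h i)) Q * f =
        MvPolynomial.aeval (fun i => ev (h i)) P) → KBE.Frc G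

/-- The cost of a Wronskian. -/
def St_DCO : Prop := ∀ (n : ℕ) (M : Mf n) [M.Cpt] (H : M.Fam (Mat n))
  (A : Subalgebra ℂ (M.X → ℂ)) (F : Type) [Field F] [Algebra ℂ F] (ev : A →ₐ[ℂ] F) (b : Ba M H)
  (G : ℕ → ℕ → Submodule ℂ F) (k : ℕ) (z : Fin k → A) (D : Fin k → Derivation ℂ F F),
  M.Met H → Fm H A ev → b.IsG ev G → Iv b.O b.p (fun i => (z i).1) →
  (∀ (f : A) x, ¬Rk M (Fin.cons f.1 fun i => (z i).1) x) →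
  (∀ f : A, ∃ (g : Fin k → A) (τ : Tn M), (∀ i, D i (ev f) = ev (g i)) ∧
    Chn τ.O (fun i => (z i).1) f.1 fun i => (g i).1) →
  ∀ i x c, ∀ u ∈ G x c, ∀ v ∈ G x c, u * D i v - v * D i u ∈ G (2 * x) (2 * c + 1)

/-- The inverse is bounded on a tube. -/
def St_TUB : Prop := ∀ (n : ℕ) (M : Mf n) [M.Cpt] (H : M.Fam (Mat n)) (b : Ba M H) (k x c : ℕ)
  (z : Fin k → M.X → ℂ) (γ : M.X → ℂ), M.Met H → (∀ y ∈ b.O, Rk M z y) → b.Gm x c γ →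
  (∃ y ∈ b.O, γ y ≠ 0) → Alg b.O z γ → ∃ y₀ ∈ b.O, ∃ ρ > (0 : ℝ), ∃ C : ℝ,
    ∀ y ∈ b.O, ‖(z · y) - (z · y₀)‖ ≤ ρ → 1 ≤ C * normSq (γ y)

/-- The model on the open set. -/
def St_MOD : Prop := ∀ (n : ℕ) (M : Mf n) [M.Cpt] (H : M.Fam (Mat n))
  (A : Subalgebra ℂ (M.X → ℂ)) (F : Type) [Field F] [Algebra ℂ F] (ev : A →ₐ[ℂ] F) (b : Ba M H)
  (G : ℕ → ℕ → Submodule ℂ F), M.Met H → Fm H A ev → b.IsG ev G → KBE.Frc G →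
  ∃ (R : Subalgebra ℂ F) (fn : R →ₐ[ℂ] (M.X → ℂ)), b.Md ev G R fn

/-- The change of the system under a refinement by a function. -/
def St_CHG : Prop := ∀ (n : ℕ) (M : Mf n) [M.Cpt] (H : M.Fam (Mat n))
  (A : Subalgebra ℂ (M.X → ℂ)) (F : Type) [Field F] [Algebra ℂ F] (ev : A →ₐ[ℂ] F) (b : Ba M H)
  (G : ℕ → ℕ → Submodule ℂ F) (τ : Type) [Finite τ] (h : τ → F), M.Met H → Fm H A ev →
  b.IsG ev G → KBE.Frc G → ∃ (b' : Ba M H) (q : F) (m : ℕ), b'.O ⊆ b.O ∧ q ≠ 0 ∧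
    ∀ G', b'.IsG ev G' → (∀ i, h i ∈ G' 0 1) ∧ (∀ x c, G x c ≤ G' x c) ∧
      ∀ x c, ∀ u ∈ G' x c, q ^ c * u ∈ G x (m * c)

/-- The removal of the last poles. -/
def St_VAL : Prop := ∀ (n : ℕ) (M : Mf n) [M.Cpt] (H : M.Fam (Mat n)) (b : Ba M H) (τ : Type)
  [Fintype τ] (h : τ → M.X → ℂ), M.Met H → (∀ i, b.Gm 0 1 (h i)) →
  (∀ c g, b.Gm 0 c g → ∃ P Q : MvPolynomial τ ℂ, (∃ y ∈ b.O, MvPolynomial.eval (h · y) Q ≠ 0) ∧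
    ∀ y ∈ b.O, MvPolynomial.eval (h · y) Q * g y = MvPolynomial.eval (h · y) P) →
  ∃ (c q : ℕ) (Q : M.X → ℂ) (v : ℝ), (b.Gm 0 c Q ∧ ∃ y ∈ b.O, Q y ≠ 0) ∧ 0 < v ∧
    ∀ (x a : ℕ) (F : M.X → ℂ) (κ e : ℝ), b.Gm x a F → 0 < κ → v * κ ≤ e →
      Jo M H b.O (fun y => normSq (F y) * b.T y ^ x * b.p y ^ κ *
        ((1 + ∑ i, normSq (h i y)) ^ q / normSq (Q y)) ^ e) ≠ ⊤ → b.Gm x 0 F

end Pool.Agent.Lib.KT
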